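import Pool.Agent.Helper601.ACA.NewtonDefs

namespace ACA

open BiDiff SA

theorem coeff_trunc {A : Type*} [CommRing A] (T : Finset ℚ) (z : SA A) (g : ℚ) :
    (trunc T z).coeff g = if g ∈ T then z.coeff g else 0 := by
  unfold trunc
  rw [coeff_sum]
  simp only [coeff_sgl]
  rw [Finset.sum_ite_eq]

theorem finite_determinacy_aux {A : Type*} [CommRing A] [Algebra ℚ A] [BiDiff A] {D : Type*}
    (F : GP D) (φ : D → SA A) (X z : SA A) :
    ∃ S : Set ℚ, S.IsPWO ∧
      (∀ T : Finset ℚ, Function.support (F.eval φ (X + trunc T z)).coeff ⊆ S) ∧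
      Function.support (F.eval φ (X + z)).coeff ⊆ S ∧
      ∀ g : ℚ, ∃ T0 : Finset ℚ, ∀ T : Finset ℚ, T0 ⊆ T →
        (F.eval φ (X + trunc T z)).coeff g = (F.eval φ (X + z)).coeff g := by
  induction F with
  | const a =>
    refine ⟨Function.support (φ a).coeff, (φ a).isPWO, fun T => subset_rfl, subset_rfl,
      fun g => ⟨∅, fun T _ => rfl⟩⟩
  | X =>
    refine ⟨Function.support X.coeff ∪ Function.support z.coeff, X.isPWO.union z.isPWO, ?_, ?_, ?_⟩
    · intro T g hg
      by_contra hn
      rw [Set.mem_union, not_or] at hn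
      obtain ⟨h1, h2⟩ := hn
      rw [Function.notMem_support] at h1 h2
      apply hg
      show (X + trunc T z).coeff g = 0
      rw [coeff_add, coeff_trunc, h1, h2, ite_self, add_zero]
    · intro g hg
      by_contra hn
      rw [Set.mem_union, not_or] at hn
      obtain ⟨h1, h2⟩ := hn
      rw [Function.notMem_support] at h1 h2
      apply hg
      show (X + z).coeff g = 0
      rw [coeff_add, h1, h2, add_zero]
    · intro g
      refine ⟨{g}, fun T hT => ?_⟩
      show (X + trunc T z).coeff g = (X + z).coeff g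
      rw [coeff_add, coeff_add, coeff_trunc, if_pos (hT (Finset.mem_singleton_self g))]
  | add p q hp hq =>
    obtain ⟨S1, hS1, h1, h1', e1⟩ := hp
    obtain ⟨S2, hS2, h2, h2', e2⟩ := hq
    refine ⟨S1 ∪ S2, hS1.union hS2, ?_, ?_, ?_⟩
    · intro T g hg
      by_contra hn
      rw [Set.mem_union, not_or] at hn
      obtain ⟨n1, n2⟩ := hn
      apply hg
      show (p.eval φ (X + trunc T z) + q.eval φ (X + trunc T z)).coeff g = 0
      rw [coeff_add, Function.notMem_support.1 (fun h => n1 (h1 T h)),
        Function.notMem_support.1 (fun h => n2 (h2 T h)), add_zero]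
    · intro g hg
      by_contra hn
      rw [Set.mem_union, not_or] at hn
      obtain ⟨n1, n2⟩ := hn
      apply hg
      show (p.eval φ (X + z) + q.eval φ (X + z)).coeff g = 0
      rw [coeff_add, Function.notMem_support.1 (fun h => n1 (h1' h)),
        Function.notMem_support.1 (fun h => n2 (h2' h)), add_zero]
    · intro g
      obtain ⟨T1, hT1⟩ := e1 g
      obtain ⟨T2, hT2⟩ := e2 g
      refine ⟨T1 ∪ T2, fun T hT => ?_⟩
      show (p.eval φ (X + trunc T z) + q.eval φ (X + trunc T z)).coeff g =
        (p.eval φ (X + z) + q.eval φ (X + z)).coeff g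
      rw [coeff_add, coeff_add, hT1 T (Finset.union_subset_left hT),
        hT2 T (Finset.union_subset_right hT)]
  | mul p q hp hq =>
    obtain ⟨S1, hS1, h1, h1', e1⟩ := hp
    obtain ⟨S2, hS2, h2, h2', e2⟩ := hq
    have key : ∀ x y : SA A, Function.support x.coeff ⊆ S1 → Function.support y.coeff ⊆ S2 →
        Function.support (x * y).coeff ⊆ {g : ℚ | (trip S1 S2 g).Nonempty} := by
      intro x y hx hy g hg
      by_contra hne
      simp only [Set.mem_ofPred_eq, Set.not_nonempty_iff_eq_empty] at hne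
      apply hg
      rw [coeff_mul_eq x y hS1 hS2 hx hy g]
      apply Finset.sum_eq_zero
      intro w hw
      rw [Set.Finite.mem_toFinset, hne] at hw
      exact absurd hw (Set.notMem_empty w)
    refine ⟨{g : ℚ | (trip S1 S2 g).Nonempty}, sumset_isPWO hS1 hS2, ?_, ?_, ?_⟩
    · intro T
      exact key _ _ (h1 T) (h2 T)
    · exact key _ _ h1' h2'
    · intro g
      choose T1 hT1 using e1
      choose T2 hT2 using e2
      refine ⟨(trip_finite hS1 hS2 g).toFinset.biUnion (fun w => T1 w.2.1 ∪ T2 w.2.2),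
        fun T hT => ?_⟩
      show (p.eval φ (X + trunc T z) * q.eval φ (X + trunc T z)).coeff g =
        (p.eval φ (X + z) * q.eval φ (X + z)).coeff g
      rw [coeff_mul_eq _ _ hS1 hS2 (h1 T) (h2 T) g, coeff_mul_eq _ _ hS1 hS2 h1' h2' g]
      refine Finset.sum_congr rfl fun w hw => ?_
      have hsub : T1 w.2.1 ∪ T2 w.2.2 ⊆ T :=
        (Finset.subset_biUnion_of_mem (fun w : ℕ × ℚ × ℚ => T1 w.2.1 ∪ T2 w.2.2) hw).trans hT
      unfold term
      rw [hT1 w.2.1 T (Finset.union_subset_left hsub),
        hT2 w.2.2 T (Finset.union_subset_right hsub)]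

/-- Each coefficient of a generalised polynomial depends on finitely many coefficients of the
argument. -/
theorem finite_determinacy {A : Type*} [CommRing A] [Algebra ℚ A] [BiDiff A] {D : Type*}
    (F : GP D) (φ : D → SA A) (X z : SA A) (g : ℚ) :
    ∃ T0 : Finset ℚ, ∀ T : Finset ℚ, T0 ⊆ T →
      (F.eval φ (X + trunc T z)).coeff g = (F.eval φ (X + z)).coeff g := by
  obtain ⟨S, _, _, _, h⟩ := finite_determinacy_aux F φ X z
  exact h g

end ACA

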