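import Pool.Agent.Helper601.ACA.Defs

namespace ACA

theorem GP.map_eval {D B B' : Type*} [Ring B] [Ring B'] (g : B →+* B') (φ : D → B) (b : B)
    (F : GP D) : g (F.eval φ b) = F.eval (fun a => g (φ a)) (g b) := by
  induction F with
  | const a => rfl
  | X => rfl
  | add p q hp hq => simp only [GP.eval, map_add, hp, hq]
  | mul p q hp hq => simp only [GP.eval, map_mul, hp, hq]

/-- Expansion of a generalised polynomial along a central parameter. -/
theorem poly_expand {D R : Type*} [Ring R] (F : GP D) (φ : D → R) (X Y : R) :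
    ∃ (n : ℕ) (c : ℕ → R), 0 < n ∧ c 0 = F.eval φ X ∧ (∀ m, n ≤ m → c m = 0) ∧
      ∀ z : R, (∀ x, Commute z x) →
        F.eval φ (X + z * Y) = ∑ i ∈ Finset.range n, z ^ i * c i := by
  classical
  set p : Polynomial R := F.eval (fun a => Polynomial.C (φ a))
    (Polynomial.C X + Polynomial.X * Polynomial.C Y) with hp
  refine ⟨p.natDegree + 1, p.coeff, Nat.succ_pos _, ?_, ?_, ?_⟩
  · have h1 := GP.map_eval (Polynomial.constantCoeff : Polynomial R →+* R)
      (fun a => Polynomial.C (φ a)) (Polynomial.C X + Polynomial.X * Polynomial.C Y) F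
    rw [← hp] at h1
    simpa using h1
  · intro m hm
    exact Polynomial.coeff_eq_zero_of_natDegree_lt (by omega)
  · intro z hz
    have h1 := GP.map_eval (Polynomial.eval₂RingHom' (RingHom.id R) z
      (fun a => (hz a).symm)) (fun a => Polynomial.C (φ a))
      (Polynomial.C X + Polynomial.X * Polynomial.C Y) F
    rw [← hp] at h1
    have h2 : (Polynomial.eval₂RingHom' (RingHom.id R) z (fun a => (hz a).symm)) p =
        ∑ i ∈ Finset.range (p.natDegree + 1), z ^ i * p.coeff i := by
      change Polynomial.eval₂ (RingHom.id R) z p = _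
      rw [Polynomial.eval₂_eq_sum_range]
      apply Finset.sum_congr rfl
      intro i _
      rw [RingHom.id_apply]
      exact ((hz (p.coeff i)).pow_left i).eq.symm
    rw [← h2, h1]
    have h3 : ∀ a : R, (Polynomial.eval₂RingHom' (RingHom.id R) z (fun a => (hz a).symm))
        (Polynomial.C a) = a := by
      intro a
      change Polynomial.eval₂ (RingHom.id R) z (Polynomial.C a) = a
      rw [Polynomial.eval₂_C]; rfl
    have h4 : (Polynomial.eval₂RingHom' (RingHom.id R) z (fun a => (hz a).symm))
        (Polynomial.X) = z := by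
      change Polynomial.eval₂ (RingHom.id R) z Polynomial.X = z
      rw [Polynomial.eval₂_X]
    rw [map_add, map_mul, h3, h3, h4]
    congr 1
    funext a
    exact (h3 (φ a)).symm

/-- Vandermonde: a polynomial vanishing at all naturals has zero coefficients. -/
theorem vander {B : Type*} [AddCommGroup B] [Module ℚ B] (n : ℕ) (c : ℕ → B)
    (h : ∀ j : ℕ, ∑ i ∈ Finset.range n, ((j : ℚ) ^ i) • c i = 0) : ∀ i < n, c i = 0 := by
  intro i hi
  rw [← Module.forall_dual_apply_eq_zero_iff ℚ]
  intro f
  set p : Polynomial ℚ := ∑ k ∈ Finset.range n, Polynomial.monomial k (f (c k)) with hp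
  have hroot : ∀ j : ℕ, p.IsRoot (j : ℚ) := by
    intro j
    have h1 := congrArg f (h j)
    rw [map_sum, map_zero] at h1
    rw [Polynomial.IsRoot, hp, Polynomial.eval_finset_sum, ← h1]
    apply Finset.sum_congr rfl
    intro k _
    rw [Polynomial.eval_monomial, map_smul, smul_eq_mul, mul_comm]
  have hp0 : p = 0 := by
    apply Polynomial.eq_zero_of_infinite_isRoot
    apply Set.Infinite.mono (s := Set.range (fun j : ℕ => (j : ℚ)))
    · rintro _ ⟨j, rfl⟩
      exact hroot j
    · exact Set.infinite_range_of_injective Nat.cast_injective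
  have h2 : p.coeff i = f (c i) := by
    rw [hp, Polynomial.finset_sum_coeff]
    simp only [Polynomial.coeff_monomial]
    rw [Finset.sum_ite_eq' (Finset.range n) i]
    simp [hi]
  rw [← h2, hp0, Polynomial.coeff_zero]

/-- A constant polynomial function has zero higher coefficients. -/
theorem vander_const {B : Type*} [AddCommGroup B] [Module ℚ B] (n : ℕ) (c : ℕ → B) (b : B)
    (h : ∀ j : ℕ, ∑ i ∈ Finset.range n, ((j : ℚ) ^ i) • c i = b) : ∀ i < n, 0 < i → c i = 0 := by
  intro i hi hi0
  have h1 := vander n (fun k => c k - if k = 0 then b else 0) (fun j => by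
    simp only [smul_sub, Finset.sum_sub_distrib]
    rw [h j, Finset.sum_eq_single_of_mem 0 (Finset.mem_range.2 (by omega))]
    · simp
    · intro k _ hk
      simp [hk]) i hi
  simpa [hi0.ne'] using h1

end ACA

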