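import Pool.Agent.Helper601.ACA.A1
import Pool.Agent.Helper601.ACA.A2

namespace ACA

open BiDiff SA

/- GIVEN (proved elsewhere), keep as axioms. -/
/-- Perturbation by `ħ^t Y`, `t > 0`. -/
theorem lip_single {A : Type*} [CommRing A] [Algebra ℚ A] [BiDiff A] {D : Type*} (F : GP D)
    (φ : D → SA A) (X Y : SA A) (μ t : ℚ) (ht : 0 < t)
    (h : ∀ j : ℕ, ∀ g < μ, (F.eval φ (X + (j : SA A) * Y)).coeff g = 0) :
    (∀ g < μ, (F.eval φ (X + mon A t * Y)).coeff g = 0) ∧
      (F.eval φ (X + mon A t * Y)).coeff μ = (F.eval φ X).coeff μ := by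
  obtain ⟨n, c, hn, hc0, hcn, hexp⟩ := poly_expand F φ X Y
  have hc : ∀ g < μ, ∀ i, (c i).coeff g = 0 := by
    intro g hg i
    by_cases hi : i < n
    · refine vander (B := A) n (fun i => (c i).coeff g) (fun j => ?_) i hi
      have h1 := h j g hg
      rw [hexp (j : SA A) (fun x => Nat.cast_commute j x), SA.coeff_sum] at h1
      rw [← h1]
      refine Finset.sum_congr rfl fun i _ => ?_
      have h2 : ((j : SA A) ^ i * c i) = (j ^ i) • c i := by
        rw [nsmul_eq_mul, Nat.cast_pow]
      rw [h2]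
      have h3 : ((j ^ i) • c i).coeff g = (j ^ i) • (c i).coeff g :=
        map_nsmul (SA.coeffHom g) (j ^ i) (c i)
      rw [h3, ← Nat.cast_smul_eq_nsmul ℚ, Nat.cast_pow]
    · rw [hcn i (by omega)]; rfl
  have hterm : ∀ g i, (mon A t ^ i * c i).coeff g = (c i).coeff (g - i * t) := by
    intro g i
    rw [SA.mon_pow, SA.coeff_mon_mul]
  rw [hexp (mon A t) (SA.mon_comm t)]
  constructor
  · intro g hg
    rw [SA.coeff_sum]
    refine Finset.sum_eq_zero fun i _ => ?_
    rw [hterm]
    apply hc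
    have : 0 ≤ (i : ℚ) * t := by positivity
    linarith
  · rw [SA.coeff_sum, Finset.sum_eq_single 0]
    · rw [hterm, hc0]
      congr 1
      simp
    · intro i _ hi
      rw [hterm]
      apply hc
      have : 0 < (i : ℚ) * t := mul_pos (by exact_mod_cast Nat.pos_of_ne_zero hi) ht
      linarith
    · intro h0
      exact absurd (Finset.mem_range.mpr hn) h0

variable {k : Type} [Field k] [CharZero k] [BiDiff k]

theorem lip_iota_sgl (s : ℚ) (c : k) : iota (sgl s c) = sgl s (fun _ : k => c) := by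
  ext g u
  rw [coeff_iota, coeff_sgl, coeff_sgl]
  split_ifs <;> rfl

theorem lip_pre_uu (c : k) : pre (fun u => u + c) (uu : SA (k → k)) = uu + sgl 0 (fun _ : k => c) := by
  ext g u
  rw [coeff_pre, coeff_add, uu, coeff_sgl, coeff_sgl]
  split_ifs
  · rfl
  · simp

theorem lip_shift (F : GP (SA k)) (x : SA k) (ρ : ℚ) (c : k) :
    ww F (x + sgl ρ c) ρ = pre (fun u => u + c) (ww F x ρ) := by
  have h2 : pre (fun u => u + c) (iota x + mon (k → k) ρ * uu) =
      iota (x + sgl ρ c) + mon (k → k) ρ * uu := by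
    rw [map_add (pre _), map_mul, pre_iota, pre_mon, lip_pre_uu, map_add iota, lip_iota_sgl,
      mul_add, mon_mul_sgl, add_zero]
    abel
  have h1 : (fun a : SA k => pre (fun u => u + c) (iota a)) = fun a => iota a := by
    funext a; exact pre_iota _ a
  rw [ww, ww, GP.map_eval, h2, h1]

theorem lip_step1 (F : GP (SA k)) (x : SA k) (ρ μ s : ℚ) (c : k) (hs : ρ < s)
    (hμ : ∀ g < μ, (ww F x ρ).coeff g = 0) :
    (∀ g < μ, (ww F (x + sgl s c) ρ).coeff g = 0) ∧
      (ww F (x + sgl s c) ρ).coeff μ = (ww F x ρ).coeff μ := by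
  have h := lip_single F (fun a => iota a) (iota x + mon (k → k) ρ * uu) (iota (sgl ρ c)) μ (s - ρ)
    (by linarith) (by
      intro j g hg
      have h1 : iota x + mon (k → k) ρ * uu + (j : SA (k → k)) * iota (sgl ρ c) =
          iota (x + sgl ρ ((j : k) * c)) + mon (k → k) ρ * uu := by
        have h2 : (j : SA k) * sgl ρ c = sgl ρ ((j : k) * c) := by
          ext g
          rw [← nsmul_eq_mul]
          have h3 : (j • sgl ρ c).coeff g = j • (sgl ρ c).coeff g :=
            map_nsmul (SA.coeffHom g) j (sgl ρ c)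
          rw [h3, coeff_sgl, coeff_sgl]
          split_ifs
          · rw [nsmul_eq_mul]
          · simp
        rw [← h2, map_add, map_mul, map_natCast]
        abel
      rw [h1]
      have h4 := lip_shift F x ρ ((j : k) * c)
      rw [ww] at h4
      rw [h4]
      funext u
      rw [coeff_pre, hμ g hg]; rfl)
  have h5 : iota x + mon (k → k) ρ * uu + mon (k → k) (s - ρ) * iota (sgl ρ c) =
      iota (x + sgl s c) + mon (k → k) ρ * uu := by
    rw [lip_iota_sgl, mon_mul_sgl, map_add, lip_iota_sgl, sub_add_cancel]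
    abel
  rw [h5] at h
  exact h

theorem lip_sgl_zero (s : ℚ) : (sgl s (0 : k)) = 0 := by
  ext g
  rw [coeff_sgl]; split_ifs <;> rfl

theorem lip_trunc_insert {A : Type*} [CommRing A] (s : ℚ) (T : Finset ℚ) (hs : s ∉ T) (z : SA A) :
    trunc (insert s T) z = sgl s (z.coeff s) + trunc T z := by
  classical
  rw [trunc, trunc, Finset.sum_insert hs]

theorem lip_step2 (F : GP (SA k)) (x z : SA k) (ρ μ : ℚ) (hμ : ∀ g < μ, (ww F x ρ).coeff g = 0)
    (hz : ∀ g < ρ, z.coeff g = 0) (T : Finset ℚ) :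
    (∀ g < μ, (ww F (x + trunc T z) ρ).coeff g = 0) ∧
      ∀ u, (ww F (x + trunc T z) ρ).coeff μ u =
        (ww F x ρ).coeff μ (u + (if ρ ∈ T then z.coeff ρ else 0)) := by
  classical
  induction T using Finset.induction_on with
  | empty =>
    have h0 : trunc ∅ z = 0 := by rw [trunc, Finset.sum_empty]
    rw [h0, add_zero]
    refine ⟨hμ, fun u => ?_⟩
    simp
  | insert s T hs ih =>
    rw [lip_trunc_insert s T hs z]
    have e : x + (sgl s (z.coeff s) + trunc T z) = (x + trunc T z) + sgl s (z.coeff s) := by abel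
    rw [e]
    rcases lt_trichotomy s ρ with h | h | h
    · rw [hz s h, lip_sgl_zero, add_zero]
      refine ⟨ih.1, fun u => ?_⟩
      rw [ih.2 u]
      have : (ρ ∈ insert s T) ↔ ρ ∈ T := by
        rw [Finset.mem_insert]
        constructor
        · rintro (h1 | h1)
          · exact absurd h1 h.ne'
          · exact h1
        · exact Or.inr
      simp only [this]
    · subst h
      rw [lip_shift]
      refine ⟨fun g hg => ?_, fun u => ?_⟩
      · funext u
        rw [coeff_pre, ih.1 g hg]; rfl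
      · rw [coeff_pre, ih.2, if_neg hs, if_pos (Finset.mem_insert_self s T), add_zero]
    · have h1 := lip_step1 F (x + trunc T z) ρ μ s (z.coeff s) h ih.1
      refine ⟨h1.1, fun u => ?_⟩
      rw [h1.2, ih.2 u]
      have : (ρ ∈ insert s T) ↔ ρ ∈ T := by
        rw [Finset.mem_insert]
        constructor
        · rintro (h1 | h1)
          · exact absurd h1 h.ne
          · exact h1
        · exact Or.inr
      simp only [this]

theorem lip_trunc_iota (T : Finset ℚ) (z : SA k) : trunc T (iota z) = iota (trunc T z) := by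
  rw [trunc, trunc, map_sum]
  refine Finset.sum_congr rfl fun t _ => ?_
  rw [lip_iota_sgl]
  rfl

theorem lip_det (F : GP (SA k)) (x z : SA k) (ρ g : ℚ) :
    ∃ T : Finset ℚ, ρ ∈ T ∧ (ww F (x + trunc T z) ρ).coeff g = (ww F (x + z) ρ).coeff g := by
  classical
  obtain ⟨T0, hT0⟩ := finite_determinacy F (fun a => iota a) (iota x + mon (k → k) ρ * uu) (iota z) g
  refine ⟨insert ρ T0, Finset.mem_insert_self _ _, ?_⟩
  have h := hT0 (insert ρ T0) (Finset.subset_insert _ _)
  rw [lip_trunc_iota] at h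
  have e : ∀ y : SA k, iota x + mon (k → k) ρ * uu + iota y = iota (x + y) + mon (k → k) ρ * uu := by
    intro y
    rw [map_add]; abel
  rw [e, e] at h
  exact h

/-- Perturbation lemma. -/
theorem lip (F : GP (SA k)) (x z : SA k) (ρ μ : ℚ) (hμ : ∀ g < μ, (ww F x ρ).coeff g = 0)
    (hz : ∀ g < ρ, z.coeff g = 0) :
    (∀ g < μ, (ww F (x + z) ρ).coeff g = 0) ∧
      ∀ u, (ww F (x + z) ρ).coeff μ u = (ww F x ρ).coeff μ (u + z.coeff ρ) := by
  constructor
  · intro g hg
    obtain ⟨T, -, hT⟩ := lip_det F x z ρ g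
    rw [← hT]
    exact (lip_step2 F x z ρ μ hμ hz T).1 g hg
  · intro u
    obtain ⟨T, hρ, hT⟩ := lip_det F x z ρ μ
    rw [← hT, (lip_step2 F x z ρ μ hμ hz T).2 u, if_pos hρ]

end ACA


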