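import Pool.Agent.Helper601.ACA.A1
import Pool.Agent.Helper601.ACA.A2

namespace ACA

open BiDiff SA

/- GIVEN (proved elsewhere), keep as axioms. -/
variable {k : Type} [Field k] [CharZero k] [BiDiff k]

/-- Homogeneous expansion of `F(x + ħ^ρ u)`. -/
theorem hom_expand (F : GP (SA k)) (x : SA k) :
    ∃ (n : ℕ) (p : ℕ → SA (k → k)), 0 < n ∧ p 0 = iota (F.eval id x) ∧
      (∀ m, n ≤ m → p m = 0) ∧
      (∀ ρ : ℚ, ww F x ρ = ∑ m ∈ Finset.range n, mon (k → k) (m * ρ) * p m) ∧
      (∀ (m j : ℕ) (g : ℚ) (u : k), (p m).coeff g ((j : k) * u) = (j : k) ^ m * (p m).coeff g u) := by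
  obtain ⟨n, p, hn, hp0, hpn, hz⟩ := poly_expand F (fun a => iota a) (iota x) (uu : SA (k → k))
  refine ⟨n, p, hn, ?_, hpn, ?_, ?_⟩
  · rw [hp0, GP.map_eval]
    rfl
  · intro ρ
    have h1 := hz (mon (k → k) ρ) (fun y => mon_comm ρ y)
    rw [ww]
    refine h1.trans ?_
    refine Finset.sum_congr rfl fun m _ => ?_
    rw [mon_pow]
  · intro m j g u
    rcases Nat.lt_or_ge m n with hm | hm
    swap
    · rw [hpn m hm]
      simp
    have huu : pre (fun u : k => (j : k) * u) (uu : SA (k → k)) = (j : SA (k → k)) * uu := by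
      rw [← nsmul_eq_mul]
      ext h v
      rw [coeff_pre]
      have e : (j • (uu : SA (k → k))).coeff h = j • (uu : SA (k → k)).coeff h :=
        map_nsmul (coeffHom h) j uu
      rw [e, uu, coeff_sgl]
      split_ifs
      · simp
      · simp
    have hcast : ∀ i : ℕ, F.eval (fun a => iota a) (iota x + (i : SA (k → k)) * uu) =
        ∑ m ∈ Finset.range n, (i : SA (k → k)) ^ m * p m := fun i =>
      hz (i : SA (k → k)) (fun y => Nat.cast_commute i y)
    have key : ∀ i : ℕ, ∑ m ∈ Finset.range n, ((i : ℚ) ^ m) •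
        (pre (fun u : k => (j : k) * u) (p m) - ((j : ℚ) ^ m) • p m) = 0 := by
      intro i
      have h1 := congrArg (pre (fun u : k => (j : k) * u)) (hcast i)
      rw [GP.map_eval, map_add, map_mul, map_natCast, huu, map_sum] at h1
      simp only [pre_iota] at h1
      have h2 := hcast (i * j)
      have e1 : ((i * j : ℕ) : SA (k → k)) * uu = (i : SA (k → k)) * ((j : SA (k → k)) * uu) := by
        rw [Nat.cast_mul, mul_assoc]
      rw [e1] at h2
      rw [h2] at h1
      have hsm : ∀ (a m : ℕ) (y : SA (k → k)), (a : SA (k → k)) ^ m * y = ((a : ℚ) ^ m) • y := by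
        intro a m y
        have e2 : ((a : ℚ) ^ m) = ((a ^ m : ℕ) : ℚ) := by push_cast; rfl
        rw [e2, Nat.cast_smul_eq_nsmul, nsmul_eq_mul, Nat.cast_pow]
      have h3 : ∑ m ∈ Finset.range n, ((i : ℚ) ^ m) • (((j : ℚ) ^ m) • p m) =
          ∑ m ∈ Finset.range n, ((i : ℚ) ^ m) • pre (fun u : k => (j : k) * u) (p m) := by
        have e3 : ∀ m, ((i : ℚ) ^ m) • (((j : ℚ) ^ m) • p m) = ((i * j : ℕ) : SA (k → k)) ^ m * p m := by
          intro m
          rw [hsm, smul_smul]
          congr 1
          push_cast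
          rw [mul_pow]
        have e4 : ∀ m, ((i : ℚ) ^ m) • pre (fun u : k => (j : k) * u) (p m) =
            pre (fun u : k => (j : k) * u) ((i : SA (k → k)) ^ m * p m) := by
          intro m
          rw [map_mul, map_pow, map_natCast, hsm]
        rw [Finset.sum_congr rfl fun m _ => e3 m, Finset.sum_congr rfl fun m _ => e4 m]
        exact h1
      simp only [smul_sub]
      rw [Finset.sum_sub_distrib, h3, sub_self]
    have h4 := vander n (fun m => pre (fun u : k => (j : k) * u) (p m) - ((j : ℚ) ^ m) • p m) key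
      m hm
    have h5 : pre (fun u : k => (j : k) * u) (p m) = ((j : ℚ) ^ m) • p m := sub_eq_zero.mp h4
    have h6 : (pre (fun u : k => (j : k) * u) (p m)).coeff g u = (((j : ℚ) ^ m) • p m).coeff g u := by
      rw [h5]
    rw [coeff_pre, coeff_smul, Pi.smul_apply, Rat.smul_def] at h6
    rw [h6]
    push_cast
    rfl

theorem isDP_congr {f g : k → k} (hf : IsDP f) (h : ∀ u, g u = f u) : IsDP g := by
  have : g = f := funext h
  rw [this]
  exact hf

theorem isDP_zero : IsDP (0 : k → k) := isDP_congr (IsDP.const 0) (fun _ => rfl)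

theorem isDP_add {f g : k → k} (hf : IsDP f) (hg : IsDP g) : IsDP (f + g) :=
  isDP_congr (IsDP.add hf hg) (fun _ => rfl)

theorem isDP_mul {f g : k → k} (hf : IsDP f) (hg : IsDP g) : IsDP (f * g) :=
  isDP_congr (IsDP.mul hf hg) (fun _ => rfl)

theorem isDP_smul (r : ℚ) {f : k → k} (hf : IsDP f) : IsDP (r • f) :=
  isDP_congr (IsDP.mul (IsDP.const (r : k)) hf) (fun u => by
    rw [Pi.smul_apply, Rat.smul_def])

theorem isDP_sum {ι : Type*} (s : Finset ι) (f : ι → k → k) (hf : ∀ i ∈ s, IsDP (f i)) :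
    IsDP (∑ i ∈ s, f i) := by
  classical
  induction s using Finset.induction_on with
  | empty =>
    rw [Finset.sum_empty]
    exact isDP_zero
  | insert a s ha ih =>
    rw [Finset.sum_insert ha]
    exact isDP_add (hf a (Finset.mem_insert_self a s))
      (ih fun i hi => hf i (Finset.mem_insert_of_mem hi))

theorem isDP_d1_iter (n : ℕ) {f : k → k} (hf : IsDP f) :
    IsDP ((⇑(d1 : Derivation ℤ (k → k) (k → k)))^[n] f) := by
  induction n with
  | zero => exact hf
  | succ n ih =>
    rw [Function.iterate_succ_apply']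
    exact isDP_congr (IsDP.d1 ih) (fun u => d1_fn _ u)

theorem isDP_d2_iter (n : ℕ) {f : k → k} (hf : IsDP f) :
    IsDP ((⇑(d2 : Derivation ℤ (k → k) (k → k)))^[n] f) := by
  induction n with
  | zero => exact hf
  | succ n ih =>
    rw [Function.iterate_succ_apply']
    exact isDP_congr (IsDP.d2 ih) (fun u => d2_fn _ u)

theorem isDP_eval (F : GP (SA k)) (X : SA (k → k)) (hX : ∀ g, IsDP (X.coeff g)) :
    ∀ g, IsDP ((F.eval (fun a => iota a) X).coeff g) := by
  induction F with
  | const a =>
    intro g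
    exact isDP_congr (IsDP.const (a.coeff g)) (fun u => coeff_iota a g u)
  | X =>
    intro g
    exact hX g
  | add p q hp hq =>
    intro g
    show IsDP ((GP.eval (fun a => iota a) X p + GP.eval (fun a => iota a) X q).coeff g)
    rw [coeff_add]
    exact isDP_add (hp g) (hq g)
  | mul p q hp hq =>
    intro g
    show IsDP ((GP.eval (fun a => iota a) X p * GP.eval (fun a => iota a) X q).coeff g)
    rw [coeff_mul_eq _ _ (isPWO _) (isPWO _) subset_rfl subset_rfl g]
    apply isDP_sum
    intro z _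
    unfold term
    exact isDP_smul _ (isDP_mul (isDP_d1_iter _ (hp _)) (isDP_d2_iter _ (hq _)))

/-- Coefficients are differential polynomial functions. -/
theorem coeff_isDP (F : GP (SA k)) (x : SA k) (ρ g : ℚ) : IsDP ((ww F x ρ).coeff g) := by
  rw [ww]
  apply isDP_eval
  intro h
  rw [coeff_add]
  apply isDP_add
  · exact isDP_congr (IsDP.const (x.coeff h)) (fun u => coeff_iota x h u)
  · rw [coeff_mon_mul, uu, coeff_sgl]
    split_ifs
    · exact IsDP.id
    · exact isDP_zero

end ACA

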