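import Pool.Agent.Helper601.ACA.A3
import Pool.Agent.Helper601.ACA.A5

namespace ACA

open BiDiff SA

/- GIVEN (proved elsewhere), keep as axioms. -/
variable {k : Type} [Field k] [CharZero k] [BiDiff k]

/-- `(x,ρ)` is good: the leading coefficient of `F(x + ħ^ρ u)` is not a constant function. -/
def Good (F : GP (SA k)) (x : SA k) (ρ : ℚ) : Prop :=
  ∃ μ : ℚ, (∀ g < μ, (ww F x ρ).coeff g = 0) ∧ ¬ ∃ c, ∀ u, (ww F x ρ).coeff μ u = c

theorem coeff_expand (F : GP (SA k)) (x : SA k) {n : ℕ} {p : ℕ → SA (k → k)}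
    (hp : ∀ ρ : ℚ, ww F x ρ = ∑ m ∈ Finset.range n, mon (k → k) (m * ρ) * p m)
    (ρ g : ℚ) (u : k) :
    (ww F x ρ).coeff g u = ∑ m ∈ Finset.range n, (p m).coeff (g - m * ρ) u := by
  rw [hp ρ, coeff_sum, Finset.sum_apply]
  exact Finset.sum_congr rfl (fun m _ => by rw [coeff_mon_mul])

theorem key_const {n : ℕ} {p : ℕ → SA (k → k)}
    (hh : ∀ (m j : ℕ) (g : ℚ) (u : k), (p m).coeff g ((j : k) * u) = (j : k) ^ m * (p m).coeff g u)
    (a : ℕ → ℚ) (c : k) (h : ∀ u, ∑ m ∈ Finset.range n, (p m).coeff (a m) u = c) :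
    ∀ m < n, 0 < m → ∀ u, (p m).coeff (a m) u = 0 := by
  intro m hm hm0 u
  refine vander_const n (fun m => (p m).coeff (a m) u) c (fun j => ?_) m hm hm0
  rw [← h ((j:k) * u)]
  refine Finset.sum_congr rfl (fun i _ => ?_)
  rw [hh, Algebra.smul_def]
  simp

theorem key_zero {n : ℕ} {p : ℕ → SA (k → k)}
    (hh : ∀ (m j : ℕ) (g : ℚ) (u : k), (p m).coeff g ((j : k) * u) = (j : k) ^ m * (p m).coeff g u)
    (a : ℕ → ℚ) (h : ∀ u, ∑ m ∈ Finset.range n, (p m).coeff (a m) u = 0) :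
    ∀ m < n, ∀ u, (p m).coeff (a m) u = 0 := by
  intro m hm u
  refine vander n (fun m => (p m).coeff (a m) u) (fun j => ?_) m hm
  rw [← h ((j:k) * u)]
  refine Finset.sum_congr rfl (fun i _ => ?_)
  rw [hh, Algebra.smul_def]
  simp

/-- Good is stable under perturbation. -/
theorem good_shift (F : GP (SA k)) (x y : SA k) (ρ : ℚ) (h : Good F x ρ)
    (hxy : ∀ g < ρ, (y - x).coeff g = 0) : Good F y ρ := by
  obtain ⟨μ, h1, h2⟩ := h
  obtain ⟨h3, h4⟩ := lip F x (y - x) ρ μ h1 hxy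
  rw [add_sub_cancel] at h3 h4
  refine ⟨μ, h3, ?_⟩
  rintro ⟨c, hc⟩
  refine h2 ⟨c, fun u => ?_⟩
  have h5 := h4 (u - (y - x).coeff ρ)
  rw [sub_add_cancel, hc] at h5
  exact h5.symm

/-- Good is downward closed. -/
theorem good_mono (F : GP (SA k)) (x : SA k) (ρ ρ' : ℚ) (h : Good F x ρ) (hr : ρ' ≤ ρ) :
    Good F x ρ' := by
  classical
  obtain ⟨μ, h1, h2⟩ := h
  obtain ⟨n, p, hn, -, -, hp, hh⟩ := hom_expand F x
  have hce := coeff_expand F x hp
  -- vanishing below μ
  have hz : ∀ g < μ, ∀ m < n, (p m).coeff (g - m * ρ) = 0 := by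
    intro g hg m hm
    funext u
    refine key_zero hh (fun m => g - m * ρ) (fun u => ?_) m hm u
    rw [← hce, h1 g hg]
    rfl
  have hm0 : ∃ m0, 0 < m0 ∧ m0 < n ∧ (p m0).coeff (μ - m0 * ρ) ≠ 0 := by
    by_contra hcon
    push Not at hcon
    refine h2 ⟨(p 0).coeff μ 0, fun u => ?_⟩
    rw [hce, Finset.sum_eq_single_of_mem 0 (Finset.mem_range.2 hn)]
    · have := hh 0 0 μ u
      simp only [Nat.cast_zero, zero_mul, pow_zero, one_mul] at this
      simp only [Nat.cast_zero, zero_mul, sub_zero]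
      exact this.symm
    · intro m hm hmne
      rw [hcon m (Nat.pos_of_ne_zero hmne) (Finset.mem_range.1 hm)]
      rfl
  obtain ⟨m0, hm0p, hm0n, hm0c⟩ := hm0
  -- least elements of the supports
  have hs : ∀ m, ∃ s : ℚ, (p m ≠ 0 → (p m).coeff s ≠ 0) ∧ ∀ g < s, (p m).coeff g = 0 := by
    intro m
    by_cases hpm : p m = 0
    · exact ⟨0, fun h => absurd hpm h, fun g _ => by rw [hpm]; rfl⟩
    · have hne : (Function.support (p m).coeff).Nonempty := by
        by_contra hemp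
        rw [Set.not_nonempty_iff_eq_empty] at hemp
        apply hpm
        refine SA.ext fun g => ?_
        by_contra hg
        have : g ∈ Function.support (p m).coeff := hg
        rw [hemp] at this
        exact this
      have hwf : (Function.support (p m).coeff).IsWF := (p m).isPWO.isWF
      refine ⟨hwf.min hne, fun _ => hwf.min_mem hne, fun g hg => ?_⟩
      by_contra hg2
      exact hwf.not_lt_min hne hg2 hg
  choose s hs1 hs2 using hs
  let M : Finset ℕ := (Finset.range n).filter (fun m => 0 < m ∧ p m ≠ 0)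
  have hpm0 : p m0 ≠ 0 := by
    intro h0
    apply hm0c
    rw [h0]
    rfl
  have hM0 : m0 ∈ M := Finset.mem_filter.2 ⟨Finset.mem_range.2 hm0n, hm0p, hpm0⟩
  obtain ⟨m1, hm1, hmin⟩ := Finset.exists_min_image M (fun m => s m + m * ρ') ⟨m0, hM0⟩
  have hm1' := (Finset.mem_filter.1 hm1)
  have hle : s m1 + m1 * ρ' ≤ μ := by
    have h3 : s m0 ≤ μ - m0 * ρ := by
      by_contra hlt
      push Not at hlt
      exact hm0c (hs2 m0 _ hlt)
    have h4 := hmin m0 hM0
    have h5 : (m0 : ℚ) * ρ' ≤ m0 * ρ := mul_le_mul_of_nonneg_left hr (Nat.cast_nonneg _)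
    linarith
  refine ⟨s m1 + m1 * ρ', ?_, ?_⟩
  · intro g hg
    funext u
    rw [hce]
    refine (Finset.sum_eq_zero fun m hm => ?_)
    have hmn := Finset.mem_range.1 hm
    by_cases hm0' : m = 0
    · subst hm0'
      have := hz g (lt_of_lt_of_le hg hle) 0 hmn
      simp only [Nat.cast_zero, zero_mul, sub_zero] at this ⊢
      rw [this]
      rfl
    · by_cases hpm : p m = 0
      · rw [hpm]; rfl
      · have hmM : m ∈ M := Finset.mem_filter.2 ⟨hm, Nat.pos_of_ne_zero hm0', hpm⟩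
        have h4 := hmin m hmM
        rw [hs2 m (g - m * ρ') (by linarith)]
        rfl
  · rintro ⟨c, hc⟩
    have h6 := key_const hh (fun m => s m1 + m1 * ρ' - m * ρ') c
      (fun u => by rw [← hce, hc]) m1 (Finset.mem_range.1 hm1'.1) hm1'.2.1
    apply hs1 m1 hm1'.2.2
    funext u
    have := h6 u
    simp only [add_sub_cancel_right] at this
    exact this

end ACA

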