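import Pool.Agent.Helper601.ACA.A7a

namespace ACA

open BiDiff SA

/- GIVEN (proved elsewhere), keep as axioms. -/
variable {k : Type} [Field k] [CharZero k] [BiDiff k]

theorem SA_order {A : Type*} [CommRing A] (x : SA A) (hx : x ≠ 0) :
    ∃ s, x.coeff s ≠ 0 ∧ ∀ g < s, x.coeff g = 0 := by
  have hne : (Function.support x.coeff).Nonempty := by
    by_contra hcon
    rw [Set.not_nonempty_iff_eq_empty, Function.support_eq_empty_iff] at hcon
    apply hx
    ext g
    rw [hcon]; rfl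
  have hwf := x.isPWO.isWF
  refine ⟨hwf.min hne, hwf.min_mem hne, fun g hg => ?_⟩
  by_contra hcon
  exact hwf.not_lt_min hne hcon hg

theorem SA_lb {A : Type*} [CommRing A] (x : SA A) : ∃ b : ℚ, ∀ g < b, x.coeff g = 0 := by
  by_cases hx : x = 0
  · exact ⟨0, fun g _ => by rw [hx]; rfl⟩
  · obtain ⟨s, _, hs⟩ := SA_order x hx
    exact ⟨s, hs⟩

theorem coeff_exp {k : Type} [Field k] [CharZero k] [BiDiff k] (n : ℕ) (p : ℕ → SA (k → k))
    (ρ g : ℚ) (u : k) :
    (∑ m ∈ Finset.range n, mon (k → k) (m * ρ) * p m).coeff g u =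
      ∑ m ∈ Finset.range n, (p m).coeff (g - m * ρ) u := by
  rw [coeff_sum, Finset.sum_apply]
  refine Finset.sum_congr rfl fun m _ => ?_
  rw [coeff_mon_mul]

theorem key_const_b {F : GP (SA k)} {x : SA k} {n : ℕ} {p : ℕ → SA (k → k)}
    (h1 : ∀ ρ : ℚ, ww F x ρ = ∑ m ∈ Finset.range n, mon (k → k) (m * ρ) * p m)
    (h2 : ∀ (m j : ℕ) (g : ℚ) (u : k), (p m).coeff g ((j : k) * u) = (j : k) ^ m * (p m).coeff g u)
    {ρ g : ℚ} {c : k} (hc : ∀ u, (ww F x ρ).coeff g u = c) :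
    ∀ m < n, 0 < m → (p m).coeff (g - m * ρ) = 0 := by
  intro m hm hm0
  ext u
  refine vander_const n (fun i => (p i).coeff (g - i * ρ) u) c ?_ m hm hm0
  intro j
  rw [← hc ((j : k) * u), h1, coeff_exp]
  refine Finset.sum_congr rfl fun i _ => ?_
  rw [h2, Algebra.smul_def, map_pow, map_natCast]

theorem key_zero_b {F : GP (SA k)} {x : SA k} {n : ℕ} {p : ℕ → SA (k → k)}
    (h1 : ∀ ρ : ℚ, ww F x ρ = ∑ m ∈ Finset.range n, mon (k → k) (m * ρ) * p m)
    (h2 : ∀ (m j : ℕ) (g : ℚ) (u : k), (p m).coeff g ((j : k) * u) = (j : k) ^ m * (p m).coeff g u)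
    {ρ g : ℚ} (hc : (ww F x ρ).coeff g = 0) :
    ∀ m < n, (p m).coeff (g - m * ρ) = 0 := by
  intro m hm
  ext u
  refine vander n (fun i => (p i).coeff (g - i * ρ) u) ?_ m hm
  intro j
  have h3 : (ww F x ρ).coeff g ((j : k) * u) = 0 := by rw [hc]; rfl
  rw [h1, coeff_exp] at h3
  rw [← h3]
  refine Finset.sum_congr rfl fun i _ => ?_
  rw [h2, Algebra.smul_def, map_pow, map_natCast]

theorem coeff_zero_of {F : GP (SA k)} {x : SA k} {n : ℕ} {p : ℕ → SA (k → k)}
    (h1 : ∀ ρ : ℚ, ww F x ρ = ∑ m ∈ Finset.range n, mon (k → k) (m * ρ) * p m)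
    {ρ g : ℚ} (hc : ∀ m < n, (p m).coeff (g - m * ρ) = 0) : (ww F x ρ).coeff g = 0 := by
  ext u
  rw [h1, coeff_exp]
  apply Finset.sum_eq_zero
  intro m hm
  rw [hc m (Finset.mem_range.1 hm)]; rfl

/-- If `F` is not a constant function, every `x` has some good `ρ`. -/
theorem good_exists (F : GP (SA k)) (hnc : ∃ a b, F.eval id a ≠ F.eval id b) (x : SA k) :
    ∃ ρ, Good F x ρ := by
  classical
  obtain ⟨n, p, hn, hp0, hpn, h1, h2⟩ := hom_expand F x
  have hm0 : ∃ m0, 0 < m0 ∧ m0 < n ∧ p m0 ≠ 0 := by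
    by_contra hcon
    push Not at hcon
    have hall : ∀ m, 0 < m → p m = 0 := by
      intro m hm
      by_cases hmn : m < n
      · exact hcon m hm hmn
      · exact hpn m (not_lt.1 hmn)
    have hww : ∀ ρ, ww F x ρ = iota (F.eval id x) := by
      intro ρ
      rw [h1, Finset.sum_eq_single 0]
      · rw [hp0, Nat.cast_zero, zero_mul, mon_zero, one_mul]
      · intro m _ hm
        rw [hall m (Nat.pos_of_ne_zero hm), mul_zero]
      · intro h
        exact absurd (Finset.mem_range.2 hn) h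
    set F1 : GP (SA k) := GP.add F (GP.const (-(F.eval id x))) with hF1
    have hww1 : ∀ ρ, ww F1 x ρ = 0 := by
      intro ρ
      have : ww F1 x ρ = ww F x ρ + iota (-(F.eval id x)) := rfl
      rw [this, hww, map_neg, add_neg_cancel]
    have hconst : ∀ y, F.eval id y = F.eval id x := by
      intro y
      obtain ⟨ρ, hρ⟩ := SA_lb (y - x)
      have hz : ∀ g, (ww F1 y ρ).coeff g = 0 := by
        intro g
        have := (lip F1 x (y - x) ρ (g + 1) (fun g' _ => by rw [hww1]; rfl) hρ).1 g (by linarith)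
        rwa [add_sub_cancel] at this
      have h3 : F1.eval id y = 0 := by
        have h4 := evu_ww F1 y ρ 0
        have h5 : sgl ρ (0 : k) = 0 := by
          ext g
          rw [coeff_sgl, coeff_zero, ite_self]
        rw [h5, add_zero] at h4
        rw [← h4]
        ext g
        rw [coeff_evu, hz g]; rfl
      have h6 : F1.eval id y = F.eval id y + -(F.eval id x) := rfl
      rw [h6, ← sub_eq_add_neg, sub_eq_zero] at h3
      exact h3
    obtain ⟨a, b, hab⟩ := hnc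
    exact hab (by rw [hconst a, hconst b])
  obtain ⟨m0, hm0, hm0n, hpm0⟩ := hm0
  have hs : ∀ m, ∃ s : ℚ, (p m ≠ 0 → (p m).coeff s ≠ 0) ∧ ∀ g < s, (p m).coeff g = 0 := by
    intro m
    by_cases hpm : p m = 0
    · exact ⟨0, fun h => absurd hpm h, fun g _ => by rw [hpm]; rfl⟩
    · obtain ⟨s, hs1, hs2⟩ := SA_order (p m) hpm
      exact ⟨s, fun _ => hs1, hs2⟩
  choose s hs1 hs2 using hs
  set ρ : ℚ := (s 0 - s m0) / m0 with hρ
  have hm0q : (0 : ℚ) < m0 := by exact_mod_cast hm0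
  have hρm : s m0 + m0 * ρ = s 0 := by
    rw [hρ]; field_simp; ring
  set S : Finset ℕ := (Finset.range n).filter (fun m => 0 < m ∧ p m ≠ 0) with hS
  have hm0S : m0 ∈ S := by
    rw [hS, Finset.mem_filter, Finset.mem_range]; exact ⟨hm0n, hm0, hpm0⟩
  obtain ⟨m1, hm1S, hm1⟩ := Finset.exists_min_image S (fun m => s m + m * ρ) ⟨m0, hm0S⟩
  rw [hS, Finset.mem_filter, Finset.mem_range] at hm1S
  refine ⟨ρ, s m1 + m1 * ρ, ?_, ?_⟩
  · intro g hg
    apply coeff_zero_of h1
    intro m hm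
    by_cases hpm : p m = 0
    · rw [hpm]; rfl
    · apply hs2
      rcases Nat.eq_zero_or_pos m with rfl | hmpos
      · have h3 := hm1 m0 hm0S
        rw [hρm] at h3
        rw [Nat.cast_zero, zero_mul, sub_zero]
        linarith
      · have h3 := hm1 m (by rw [hS, Finset.mem_filter, Finset.mem_range]; exact ⟨hm, hmpos, hpm⟩)
        linarith
  · rintro ⟨c, hc⟩
    have h3 := key_const_b h1 h2 hc m1 hm1S.1 hm1S.2.1
    rw [add_sub_cancel_right] at h3
    exact hs1 m1 hm1S.2.2 h3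

/-- If `F x ≠ 0`, there is a largest good `ρ`. -/
theorem good_max (F : GP (SA k)) (x : SA k) (hx : F.eval id x ≠ 0) (h : ∃ ρ, Good F x ρ) :
    ∃ r, Good F x r ∧ ∀ ρ, Good F x ρ → ρ ≤ r := by
  classical
  obtain ⟨n, p, hn, hp0, hpn, h1, h2⟩ := hom_expand F x
  have hpz : p 0 ≠ 0 := by
    intro h0
    apply hx
    rw [hp0] at h0
    have h3 := congrArg (evu 0) h0
    rw [evu_iota, map_zero] at h3
    exact h3
  have hs : ∀ m, ∃ s : ℚ, (p m ≠ 0 → (p m).coeff s ≠ 0) ∧ ∀ g < s, (p m).coeff g = 0 := by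
    intro m
    by_cases hpm : p m = 0
    · exact ⟨0, fun h => absurd hpm h, fun g _ => by rw [hpm]; rfl⟩
    · obtain ⟨s, hs1, hs2⟩ := SA_order (p m) hpm
      exact ⟨s, fun _ => hs1, hs2⟩
  choose s hs1 hs2 using hs
  set S : Finset ℕ := (Finset.range n).filter (fun m => 0 < m ∧ p m ≠ 0) with hS
  -- a good radius gives an index
  have hgood : ∀ ρ, Good F x ρ → ∃ m ∈ S, ρ ≤ (s 0 - s m) / m := by
    rintro ρ ⟨μ, hμ, hμc⟩
    have hμ0 : μ ≤ s 0 := by
      by_contra hcon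
      rw [not_le] at hcon
      have h3 := key_zero_b h1 h2 (hμ (s 0) hcon) 0 hn
      rw [Nat.cast_zero, zero_mul, sub_zero] at h3
      exact hs1 0 hpz h3
    have hex : ∃ m, 0 < m ∧ m < n ∧ (p m).coeff (μ - m * ρ) ≠ 0 := by
      by_contra hcon
      push Not at hcon
      apply hμc
      refine ⟨(F.eval id x).coeff μ, fun u => ?_⟩
      rw [h1, coeff_exp, Finset.sum_eq_single 0]
      · rw [Nat.cast_zero, zero_mul, sub_zero, hp0, coeff_iota]
      · intro m hm hm0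
        rw [hcon m (Nat.pos_of_ne_zero hm0) (Finset.mem_range.1 hm)]; rfl
      · intro h
        exact absurd (Finset.mem_range.2 hn) h
    obtain ⟨m, hm0, hmn, hm⟩ := hex
    have hpm : p m ≠ 0 := by
      intro h0; apply hm; rw [h0]; rfl
    have hsm : s m ≤ μ - m * ρ := by
      by_contra hcon
      exact hm (hs2 m _ (not_le.1 hcon))
    have hmq : (0 : ℚ) < m := by exact_mod_cast hm0
    refine ⟨m, ?_, ?_⟩
    · rw [hS, Finset.mem_filter, Finset.mem_range]; exact ⟨hmn, hm0, hpm⟩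
    · rw [le_div_iff₀ hmq]
      linarith [mul_comm ρ (m : ℚ)]
  have hSne : S.Nonempty := by
    obtain ⟨ρ, hρ⟩ := h
    obtain ⟨m, hm, _⟩ := hgood ρ hρ
    exact ⟨m, hm⟩
  obtain ⟨m1, hm1S, hm1⟩ := Finset.exists_max_image S (fun m => (s 0 - s m) / m) hSne
  have hm1S' := hm1S
  rw [hS, Finset.mem_filter, Finset.mem_range] at hm1S'
  have hm1q : (0 : ℚ) < m1 := by exact_mod_cast hm1S'.2.1
  refine ⟨(s 0 - s m1) / m1, ⟨s 0, ?_, ?_⟩, ?_⟩
  · intro g hg
    apply coeff_zero_of h1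
    intro m hm
    by_cases hpm : p m = 0
    · rw [hpm]; rfl
    · apply hs2
      rcases Nat.eq_zero_or_pos m with rfl | hmpos
      · rw [Nat.cast_zero, zero_mul, sub_zero]; exact hg
      · have hmq : (0 : ℚ) < m := by exact_mod_cast hmpos
        have h3 := hm1 m (by rw [hS, Finset.mem_filter, Finset.mem_range]; exact ⟨hm, hmpos, hpm⟩)
        rw [div_le_iff₀ hmq] at h3
        linarith [mul_comm ((s 0 - s m1) / (m1 : ℚ)) (m : ℚ)]
  · rintro ⟨c, hc⟩
    have h3 := key_const_b h1 h2 hc m1 hm1S'.1 hm1S'.2.1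
    have h4 : s 0 - m1 * ((s 0 - s m1) / m1) = s m1 := by
      field_simp; ring
    rw [h4] at h3
    exact hs1 m1 hm1S'.2.2 h3
  · intro ρ hρ
    obtain ⟨m, hm, hle⟩ := hgood ρ hρ
    exact hle.trans (hm1 m hm)


end ACA

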