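import Pool.Agent.Helper601.ACA.A7b

namespace ACA

open BiDiff SA

/- GIVEN (proved elsewhere), keep as axioms. -/
variable {k : Type} [Field k] [CharZero k] [BiDiff k]

theorem ww_coeff (F : GP (SA k)) (x : SA k) (n : ℕ) (p : ℕ → SA (k → k)) (ρ : ℚ)
    (hw : ww F x ρ = ∑ m ∈ Finset.range n, mon (k → k) (m * ρ) * p m) (g : ℚ) (u : k) :
    (ww F x ρ).coeff g u = ∑ m ∈ Finset.range n, (p m).coeff (g - m * ρ) u := by
  rw [hw, SA.coeff_sum, Finset.sum_apply]
  refine Finset.sum_congr rfl fun m _ => ?_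
  rw [coeff_mon_mul]

theorem rat_pow_smul (j i : ℕ) (z : k) : ((j : ℚ) ^ i) • z = (j : k) ^ i * z := by
  rw [Algebra.smul_def, map_pow, map_natCast]

theorem good_crit (F : GP (SA k)) (x : SA k) (n : ℕ) (p : ℕ → SA (k → k))
    (hp0 : p 0 = iota (F.eval id x)) (hpn : ∀ m, n ≤ m → p m = 0) (hn : 0 < n) (ρ : ℚ)
    (hw : ww F x ρ = ∑ m ∈ Finset.range n, mon (k → k) (m * ρ) * p m)
    (hh : ∀ (m j : ℕ) (g : ℚ) (u : k), (p m).coeff g ((j : k) * u) = (j : k) ^ m * (p m).coeff g u)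
    (m0 : ℕ) (hm0 : 0 < m0) (e : ℚ) (he : (p m0).coeff e ≠ 0)
    (hlt : ∀ g ≤ e + m0 * ρ, (F.eval id x).coeff g = 0) : Good F x ρ := by
  have hm0n : m0 < n := by
    by_contra h
    apply he
    rw [hpn m0 (not_lt.mp h)]
    rfl
  have hc := ww_coeff F x n p ρ hw
  have hsum : ∀ (g : ℚ) (u : k) (j : ℕ), ∑ i ∈ Finset.range n,
      ((j : ℚ) ^ i) • (p i).coeff (g - i * ρ) u = (ww F x ρ).coeff g ((j : k) * u) := by
    intro g u j
    rw [hc]
    refine Finset.sum_congr rfl fun i _ => ?_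
    rw [hh, rat_pow_smul]
  have hg0 : (ww F x ρ).coeff (e + m0 * ρ) ≠ 0 := by
    intro h0
    apply he
    funext u
    have h1 := vander n (fun i => (p i).coeff (e + m0 * ρ - i * ρ) u) (by
      intro j
      rw [hsum, h0]; rfl) m0 hm0n
    have h2 : e + (m0 : ℚ) * ρ - (m0 : ℚ) * ρ = e := by ring
    simp only [h2] at h1
    exact h1
  have hne : (Function.support (ww F x ρ).coeff).Nonempty := ⟨_, hg0⟩
  have hwf : (Function.support (ww F x ρ).coeff).IsWF := (ww F x ρ).isPWO.isWF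
  refine ⟨hwf.min hne, ?_, ?_⟩
  · intro g hg
    by_contra hcon
    exact absurd hg (not_lt.mpr (hwf.min_le hne hcon))
  · rintro ⟨c, hcc⟩
    have hmem := hwf.min_mem hne
    have hle : hwf.min hne ≤ e + m0 * ρ := hwf.min_le hne hg0
    apply hmem
    funext u
    have h1 := vander_const n (fun i => (p i).coeff (hwf.min hne - i * ρ) u) c (by
      intro j
      rw [hsum, hcc])
    rw [hc]
    apply Finset.sum_eq_zero
    intro i hi
    rcases Nat.eq_zero_or_pos i with rfl | hpos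
    · rw [hp0, coeff_iota]
      have h2 : hwf.min hne - ((0 : ℕ) : ℚ) * ρ = hwf.min hne := by push_cast; ring
      rw [h2, hlt _ hle]
    · exact h1 i (Finset.mem_range.mp hi) hpos

theorem exists_pos_index (F : GP (SA k)) (x : SA k) (n : ℕ) (p : ℕ → SA (k → k))
    (hp0 : p 0 = iota (F.eval id x)) (hn : 0 < n) (ρ : ℚ)
    (hw : ww F x ρ = ∑ m ∈ Finset.range n, mon (k → k) (m * ρ) * p m) (μ : ℚ)
    (hnc : ¬ ∃ c, ∀ u, (ww F x ρ).coeff μ u = c) :
    ∃ m0 : ℕ, 0 < m0 ∧ (p m0).coeff (μ - m0 * ρ) ≠ 0 := by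
  by_contra hcon
  push Not at hcon
  apply hnc
  refine ⟨(F.eval id x).coeff μ, fun u => ?_⟩
  rw [ww_coeff F x n p ρ hw, Finset.sum_eq_single 0]
  · rw [hp0, coeff_iota]
    congr 1
    push_cast; ring
  · intro m _ hm
    rw [hcon m (Nat.pos_of_ne_zero hm)]
    rfl
  · intro h
    exact absurd (Finset.mem_range.mpr hn) h

/-- Newton step. -/
theorem newton_step (hD : ∀ h : k → k, IsDP h → (∃ c, ∀ u, h u = c) ∨ Function.Surjective h)
    (F : GP (SA k)) (x : SA k) (hx : F.eval id x ≠ 0) (r : ℚ) (hr : Good F x r)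
    (hmax : ∀ ρ, Good F x ρ → ρ ≤ r) :
    ∃ y : SA k, (∀ g < r, (y - x).coeff g = 0) ∧
      (F.eval id y = 0 ∨ ∃ r' > r, Good F y r') := by
  obtain ⟨μ, hμ, hnc⟩ := hr
  have hsurj : Function.Surjective ((ww F x r).coeff μ) := by
    rcases hD _ (coeff_isDP F x r μ) with h | h
    · exact absurd h hnc
    · exact h
  obtain ⟨u0, hu0⟩ := hsurj 0
  have hz : ∀ g < r, (sgl r u0 : SA k).coeff g = 0 := by
    intro g hg
    rw [coeff_sgl, if_neg hg.ne]
  refine ⟨x + sgl r u0, ?_, ?_⟩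
  · intro g hg
    rw [add_sub_cancel_left]
    exact hz g hg
  by_cases hy : F.eval id (x + sgl r u0) = 0
  · exact Or.inl hy
  right
  obtain ⟨hl1, hl2⟩ := lip F x (sgl r u0) r μ hμ hz
  have hFy : ∀ g ≤ μ, (F.eval id (x + sgl r u0)).coeff g = 0 := by
    intro g hg
    rw [← evu_ww, coeff_evu]
    rcases hg.lt_or_eq with h | h
    · rw [hμ g h]; rfl
    · rw [h]; exact hu0
  have hnc' : ¬ ∃ c, ∀ u, (ww F (x + sgl r u0) r).coeff μ u = c := by
    rintro ⟨c, hc⟩
    apply hnc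
    refine ⟨c, fun u => ?_⟩
    have h1 := hc (u - u0)
    rw [hl2, coeff_sgl, if_pos rfl, sub_add_cancel] at h1
    exact h1
  obtain ⟨n, p, hn, hp0, hpn, hw, hh⟩ := hom_expand F (x + sgl r u0)
  obtain ⟨m0, hm0, hpm0⟩ := exists_pos_index F (x + sgl r u0) n p hp0 hn r (hw r) μ hnc'
  -- least exponent of F y
  have hne : (Function.support (F.eval id (x + sgl r u0)).coeff).Nonempty := by
    by_contra hcon
    rw [Set.not_nonempty_iff_eq_empty, Function.support_eq_empty_iff] at hcon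
    apply hy
    ext g
    rw [hcon]; rfl
  have hwf : (Function.support (F.eval id (x + sgl r u0)).coeff).IsWF :=
    (F.eval id (x + sgl r u0)).isPWO.isWF
  set s := hwf.min hne with hs
  have hsmem := hwf.min_mem hne
  have hslt : μ < s := by
    by_contra hcon
    exact hsmem (hFy _ (not_lt.mp hcon))
  have hbelow : ∀ g < s, (F.eval id (x + sgl r u0)).coeff g = 0 := by
    intro g hg
    by_contra hcon
    exact absurd hg (not_lt.mpr (hwf.min_le hne hcon))
  have hm0' : (0 : ℚ) < m0 := by exact_mod_cast hm0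
  refine ⟨r + (s - μ) / (2 * m0), ?_, ?_⟩
  · have : 0 < (s - μ) / (2 * m0) := div_pos (by linarith) (by linarith)
    linarith
  · apply good_crit F (x + sgl r u0) n p hp0 hpn hn _ (hw _) hh m0 hm0 (μ - m0 * r) hpm0
    intro g hg
    apply hbelow
    refine lt_of_le_of_lt hg ?_
    have h1 : μ - (m0 : ℚ) * r + m0 * (r + (s - μ) / (2 * m0)) = μ + (s - μ) / 2 := by
      field_simp
      ring
    rw [h1]
    linarith

end ACA

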