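import Pool.Agent.Helper601.ACA.Ring

namespace ACA

open SA

/-- Spherical completeness of Hahn series: no function `r` can increase for ever. -/
theorem no_infinite_ascent {A : Type*} [CommRing A] (r : SA A → ℚ)
    (Z1 : ∀ (x y : SA A) (ρ : ℚ), ρ ≤ r x → (∀ g < ρ, (y - x).coeff g = 0) → ρ ≤ r y)
    (Z2 : ∀ x : SA A, ∃ y, (∀ g < r x, (y - x).coeff g = 0) ∧ r x < r y) : False := by
  classical
  let R : SA A → SA A → Prop := fun x y => r x < r y ∧ ∀ g < r x, (y - x).coeff g = 0
  let le : SA A → SA A → Prop := fun x y => x = y ∨ R x y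
  have hRt : ∀ x y z, R x y → R y z → R x z := by
    intro x y z h1 h2
    refine ⟨h1.1.trans h2.1, fun g hg => ?_⟩
    have e1 := h1.2 g hg
    have e2 := h2.2 g (hg.trans h1.1)
    rw [coeff_sub] at e1 e2 ⊢
    rw [sub_eq_zero] at e1 e2 ⊢
    rw [e2, e1]
  have hlt : ∀ {x y z : SA A}, le x y → le y z → le x z := by
    rintro x y z (rfl | h1) (rfl | h2)
    · exact Or.inl rfl
    · exact Or.inr h2
    · exact Or.inr h1
    · exact Or.inr (hRt _ _ _ h1 h2)
  have hchain : ∀ C : Set (SA A), IsChain le C → ∃ ub, ∀ a ∈ C, le a ub := by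
    intro C hC
    by_cases hmax : ∃ m ∈ C, ∀ a ∈ C, le a m
    · obtain ⟨m, -, hm⟩ := hmax
      exact ⟨m, hm⟩
    push Not at hmax
    have hnext : ∀ x ∈ C, ∃ x' ∈ C, R x x' := by
      intro x hx
      obtain ⟨a, ha, hna⟩ := hmax x hx
      have hne : a ≠ x := fun h => hna (Or.inl h)
      rcases hC ha hx hne with h | h
      · exact absurd h hna
      · rcases h with h | h
        · exact absurd h.symm hne
        · exact ⟨a, ha, h⟩
    have hwd : ∀ x ∈ C, ∀ x' ∈ C, ∀ g, g < r x → g < r x' → x.coeff g = x'.coeff g := by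
      intro x hx x' hx' g hg hg'
      by_cases hxx : x = x'
      · rw [hxx]
      rcases hC hx hx' hxx with h | h
      · rcases h with h | h
        · rw [h]
        · have := h.2 g hg
          rw [coeff_sub, sub_eq_zero] at this
          exact this.symm
      · rcases h with h | h
        · rw [h]
        · have := h.2 g hg'
          rw [coeff_sub, sub_eq_zero] at this
          exact this
    let f : ℚ → A := fun g => if h : ∃ x ∈ C, g < r x then (Classical.choose h).coeff g else 0
    have hf : ∀ x ∈ C, ∀ g, g < r x → f g = x.coeff g := by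
      intro x hx g hg
      have h : ∃ x ∈ C, g < r x := ⟨x, hx, hg⟩
      simp only [f]
      rw [dif_pos h]
      exact hwd _ (Classical.choose_spec h).1 _ hx g (Classical.choose_spec h).2 hg
    have hpwo : (Function.support f).IsPWO := by
      rw [Set.isPWO_iff_isWF, Set.isWF_iff_no_descending_seq]
      intro u hu hmem
      have h0 : ∃ x ∈ C, u 0 < r x := by
        by_contra hno
        apply hmem 0
        simp only [f]
        rw [dif_neg hno]
      obtain ⟨x0, hx0, hlt0⟩ := h0
      have hall : ∀ n, u n ∈ Function.support x0.coeff := by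
        intro n
        have h1 : u n ≤ u 0 := hu.antitone (Nat.zero_le n)
        have h2 := hf x0 hx0 (u n) (lt_of_le_of_lt h1 hlt0)
        have h3 := hmem n
        rw [Function.mem_support, h2] at h3
        exact h3
      have h4 := x0.isPWO
      rw [Set.isPWO_iff_isWF, Set.isWF_iff_no_descending_seq] at h4
      exact h4 u hu hall
    refine ⟨ofFun f hpwo, ?_⟩
    have hz : ∀ x ∈ C, ∀ g < r x, (ofFun f hpwo - x).coeff g = 0 := by
      intro x hx g hg
      rw [coeff_sub, coeff_ofFun, hf x hx g hg, sub_self]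
    intro x hx
    obtain ⟨x', hx', hR⟩ := hnext x hx
    have h5 : r x' ≤ r (ofFun f hpwo) := Z1 x' (ofFun f hpwo) (r x') le_rfl (hz x' hx')
    exact Or.inr ⟨lt_of_lt_of_le hR.1 h5, hz x hx⟩
  obtain ⟨m, hm⟩ := exists_maximal_of_chains_bounded (r := le) hchain hlt
  obtain ⟨y, hy1, hy2⟩ := Z2 m
  rcases hm y (Or.inr ⟨hy2, hy1⟩) with h | h
  · rw [h] at hy2; exact lt_irrefl _ hy2
  · exact lt_irrefl _ (hy2.trans h.1)

end ACA

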