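import Mathlib

namespace ACA

open scoped TensorProduct

variable {P D : Type*} [Field P] [DivisionRing D] [Algebra P D]

/-- The operator `y ↦ ∑ b y c` attached to `∑ b ⊗ c`. -/
noncomputable def mu : D ⊗[P] D →ₗ[P] (D →ₗ[P] D) :=
  TensorProduct.lift
    { toFun := fun b =>
        { toFun := fun c => (LinearMap.mulLeft P b) ∘ₗ (LinearMap.mulRight P c)
          map_add' := fun c c' => by ext y; simp [mul_add]
          map_smul' := fun r c => by ext y; simp }
      map_add' := fun b b' => by ext c y; simp [add_mul]
      map_smul' := fun r b => by ext c y; simp }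

theorem mu_tmul (b c y : D) : mu (P := P) (b ⊗ₜ[P] c) y = b * (y * c) := by
  simp [mu]

theorem core (hcenter : ∀ c : D, (∀ d, c * d = d * c) → c ∈ Set.range (algebraMap P D))
    (hinf : ¬ FiniteDimensional P D) {ι : Type*} (b : ι → D) (hb : LinearIndependent P b)
    (s : Finset ι) : ∀ (c : ι → D) (W : Submodule P D) (_ : FiniteDimensional P W),
      (∀ y, ∑ i ∈ s, b i * (y * c i) ∈ W) → ∀ i ∈ s, c i = 0 := by
  classical
  induction s using Finset.induction_on with
  | empty => intro c W _ _ i hi; simp at hi
  | insert j s hj ih =>
    intro c W hW h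
    by_cases hcj : c j = 0
    · have h' : ∀ y, ∑ i ∈ s, b i * (y * c i) ∈ W := by
        intro y
        have := h y
        rw [Finset.sum_insert hj, hcj, mul_zero, mul_zero, zero_add] at this
        exact this
      intro i hi
      rcases Finset.mem_insert.mp hi with rfl | hi
      · exact hcj
      · exact ih c W hW h' i hi
    · exfalso
      -- normalise
      set c' : ι → D := fun i => c i * (c j)⁻¹ with hc'
      set W' : Submodule P D := W.map (LinearMap.mulRight P (c j)⁻¹) with hW'
      have hfd : FiniteDimensional P W' := inferInstance
      have hcj' : c' j = 1 := mul_inv_cancel₀ hcj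
      have h' : ∀ y, ∑ i ∈ insert j s, b i * (y * c' i) ∈ W' := by
        intro y
        refine ⟨_, h y, ?_⟩
        rw [LinearMap.mulRight_apply, Finset.sum_mul]
        refine Finset.sum_congr rfl fun i _ => ?_
        rw [hc']
        simp only [mul_assoc]
      have hcomm : ∀ i ∈ s, ∀ d, d * c' i - c' i * d = 0 := by
        intro i hi d
        refine ih (fun i => d * c' i - c' i * d) (W' ⊔ W'.map (LinearMap.mulRight P d))
          inferInstance ?_ i hi
        intro y
        have h1 := h' (y * d)
        have h2 : (∑ i ∈ insert j s, b i * (y * c' i)) * d ∈ W'.map (LinearMap.mulRight P d) :=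
          ⟨_, h' y, rfl⟩
        have h3 : ∑ i ∈ s, b i * (y * (d * c' i - c' i * d)) =
            ∑ i ∈ insert j s, b i * (y * d * c' i) - (∑ i ∈ insert j s, b i * (y * c' i)) * d := by
          rw [Finset.sum_mul, ← Finset.sum_sub_distrib, Finset.sum_insert hj, hcj']
          have : b j * (y * d * 1) - b j * (y * 1) * d = 0 := by
            simp only [mul_one, mul_assoc, sub_self]
          rw [this, zero_add]
          refine Finset.sum_congr rfl fun i _ => ?_
          simp only [mul_sub, mul_assoc]
        show ∑ i ∈ s, b i * (y * (d * c' i - c' i * d)) ∈ _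
        rw [h3]
        exact Submodule.sub_mem _ (Submodule.mem_sup_left h1) (Submodule.mem_sup_right h2)
      have hp : ∀ i ∈ insert j s, ∃ p : P, algebraMap P D p = c' i := by
        intro i hi
        rcases Finset.mem_insert.mp hi with rfl | hi
        · exact ⟨1, by rw [map_one, hcj']⟩
        · obtain ⟨p, hp⟩ := hcenter (c' i) (fun d => by
            have := hcomm i hi d
            exact (sub_eq_zero.mp this).symm)
          exact ⟨p, hp⟩
      choose! p hp using hp
      set β : D := ∑ i ∈ insert j s, p i • b i with hβ
      have hβ0 : β ≠ 0 := by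
        intro h0
        have := linearIndependent_iff'.mp hb (insert j s) p h0 j (Finset.mem_insert_self j s)
        have h1 := hp j (Finset.mem_insert_self j s)
        rw [this, map_zero, hcj'] at h1
        exact zero_ne_one h1
      have hT : ∀ y, β * y ∈ W' := by
        intro y
        have h1 := h' y
        have h2 : ∑ i ∈ insert j s, b i * (y * c' i) = β * y := by
          rw [hβ, Finset.sum_mul]
          refine Finset.sum_congr rfl fun i hi => ?_
          rw [← hp i hi, Algebra.smul_def, ← Algebra.commutes, ← mul_assoc, ← Algebra.commutes,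
            mul_assoc]
        rw [← h2]
        exact h1
      have htop : W' = ⊤ := by
        rw [eq_top_iff]
        intro z _
        have := hT (β⁻¹ * z)
        rwa [mul_inv_cancel_left₀ hβ0] at this
      apply hinf
      rw [htop] at hfd
      exact (Submodule.topEquiv (R := P) (M := D)).finiteDimensional

/-- If `D` is a division ring with centre `P`, of infinite dimension over `P`, then no nonzero
element of `D ⊗ D` acts on `D` with finite rank. -/
theorem mu_finite_rank (hcenter : ∀ c : D, (∀ d, c * d = d * c) → c ∈ Set.range (algebraMap P D))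
    (hinf : ¬ FiniteDimensional P D) (t : D ⊗[P] D) (W : Submodule P D) [FiniteDimensional P W]
    (ht : ∀ y, mu t y ∈ W) : t = 0 := by
  classical
  set B := Module.Basis.ofVectorSpace P D with hB
  set e := TensorProduct.equivFinsuppOfBasisLeft (N := D) B with he
  have h1 : t = (e t).sum fun i n => B i ⊗ₜ[P] n := by
    rw [← TensorProduct.equivFinsuppOfBasisLeft_symm_apply, ← he, LinearEquiv.symm_apply_apply]
  have h2 : ∀ y, ∑ i ∈ (e t).support, B i * (y * (e t) i) ∈ W := by
    intro y
    have h5 : mu t y = ∑ i ∈ (e t).support, B i * (y * (e t) i) := by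
      conv_lhs => rw [h1]
      rw [Finsupp.sum, map_sum, LinearMap.sum_apply]
      simp only [mu_tmul]
    rw [← h5]
    exact ht y
  have h3 := core hcenter hinf B B.linearIndependent (e t).support (e t) W inferInstance h2
  have h4 : e t = 0 := by
    ext i
    by_cases hi : i ∈ (e t).support
    · exact h3 i hi
    · simpa using hi
  exact (LinearEquiv.map_eq_zero_iff e).mp h4

end ACA

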