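import Pool.Agent.Helper601.ACA.Defs
import Pool.Agent.Results.MP_4b1745_al.OneVariable

namespace ACA

open Pool.Agent.Results.MP_4b1745_al.OneVariable
open scoped TensorProduct BigOperators

section fil
variable (P D : Type*) [Field P] [Ring D] [Algebra P D]

/-- Generalised polynomials of degree `< m`. -/
def Fil : ℕ → Set (FreeOver P D Unit)
  | 0 => {0}
  | m + 1 => {f | ∃ (a : D) (n : ℕ) (β : Fin n → D) (h : Fin n → FreeOver P D Unit),
      (∀ i, h i ∈ Fil m) ∧
      f = const P D Unit a + ∑ i, const P D Unit (β i) * var P D Unit () * h i}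

variable {P D}

theorem fil_of_fintype {ι : Type*} [Fintype ι] {m : ℕ} (a : D) (β : ι → D)
    (h : ι → FreeOver P D Unit) (hh : ∀ i, h i ∈ Fil P D m) :
    const P D Unit a + ∑ i, const P D Unit (β i) * var P D Unit () * h i ∈ Fil P D (m + 1) := by
  let e := Fintype.equivFin ι
  refine ⟨a, Fintype.card ι, fun i => β (e.symm i), fun i => h (e.symm i), fun i => hh _, ?_⟩
  congr 1
  exact (e.symm.sum_comp (fun i => const P D Unit (β i) * var P D Unit () * h i)).symm

theorem fil_mono_succ (m : ℕ) : Fil P D m ⊆ Fil P D (m + 1) := by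
  induction m with
  | zero =>
    intro f hf
    have hf0 : f = 0 := hf
    exact ⟨0, 0, Fin.elim0, Fin.elim0, fun i => i.elim0, by rw [hf0]; simp⟩
  | succ m ih =>
    rintro f ⟨a, n, β, h, hh, rfl⟩
    exact ⟨a, n, β, h, fun i => ih (hh i), rfl⟩

theorem fil_mono {m n : ℕ} (h : m ≤ n) : Fil P D m ⊆ Fil P D n := by
  induction h with
  | refl => exact subset_rfl
  | step _ ih => exact ih.trans (fil_mono_succ _)

theorem fil_add {m : ℕ} {f g : FreeOver P D Unit} (hf : f ∈ Fil P D m) (hg : g ∈ Fil P D m) :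
    f + g ∈ Fil P D m := by
  cases m with
  | zero =>
    have hf0 : f = 0 := hf
    have hg0 : g = 0 := hg
    rw [hf0, hg0, add_zero]
    rfl
  | succ m =>
    obtain ⟨a, n, β, h, hh, rfl⟩ := hf
    obtain ⟨a', n', β', h', hh', rfl⟩ := hg
    have := fil_of_fintype (P := P) (D := D) (m := m) (ι := Fin n ⊕ Fin n') (a + a')
      (Sum.elim β β') (Sum.elim h h') (by rintro (i | i); exacts [hh i, hh' i])
    rw [Fintype.sum_sum_type, map_add] at this
    simp only [Sum.elim_inl, Sum.elim_inr] at this
    rw [add_add_add_comm] at this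
    exact this

theorem fil_const_mul {m : ℕ} {f : FreeOver P D Unit} (b : D) (hf : f ∈ Fil P D m) :
    const P D Unit b * f ∈ Fil P D m := by
  cases m with
  | zero =>
    have hf0 : f = 0 := hf
    rw [hf0, mul_zero]
    rfl
  | succ m =>
    obtain ⟨a, n, β, h, hh, rfl⟩ := hf
    refine ⟨b * a, n, fun i => b * β i, h, hh, ?_⟩
    rw [mul_add, map_mul, Finset.mul_sum]
    congr 1
    exact Finset.sum_congr rfl fun i _ => by rw [map_mul]; simp only [mul_assoc]

theorem fil_smul {m : ℕ} {f : FreeOver P D Unit} (b : P) (hf : f ∈ Fil P D m) :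
    b • f ∈ Fil P D m := by
  have h : b • f = const P D Unit (algebraMap P D b) * f := by
    rw [AlgHom.commutes, ← Algebra.smul_def]
  rw [h]
  exact fil_const_mul _ hf

theorem fil_zero_mem (m : ℕ) : (0 : FreeOver P D Unit) ∈ Fil P D m :=
  fil_mono (Nat.zero_le m) rfl

theorem fil_sum_mem {m : ℕ} {ι : Type*} (s : Finset ι) (F : ι → FreeOver P D Unit)
    (h : ∀ i ∈ s, F i ∈ Fil P D m) : ∑ i ∈ s, F i ∈ Fil P D m := by
  classical
  induction s using Finset.induction_on with
  | empty => rw [Finset.sum_empty]; exact fil_zero_mem m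
  | insert a s ha ih =>
    rw [Finset.sum_insert ha]
    exact fil_add (h a (Finset.mem_insert_self a s))
      (ih fun i hi => h i (Finset.mem_insert_of_mem hi))

theorem fil_mul {m : ℕ} : ∀ {n : ℕ} {f g : FreeOver P D Unit}, f ∈ Fil P D m → g ∈ Fil P D n →
    f * g ∈ Fil P D (m + n) := by
  induction m with
  | zero =>
    intro n f g hf hg
    have hf0 : f = 0 := hf
    rw [hf0, zero_mul]
    exact fil_zero_mem _
  | succ m ih =>
    intro n f g hf hg
    obtain ⟨a, k, β, h, hh, rfl⟩ := hf
    rw [add_mul]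
    apply fil_add
    · exact fil_mono (by omega) (fil_const_mul a hg)
    · have e : m + 1 + n = (m + n) + 1 := by ring
      rw [e]
      refine ⟨0, k, β, fun i => h i * g, fun i => ih (hh i) hg, ?_⟩
      rw [map_zero, zero_add, Finset.sum_mul]
      exact Finset.sum_congr rfl fun i _ => by rw [mul_assoc]

theorem fil_exists (f : FreeOver P D Unit) : ∃ m, f ∈ Fil P D m := by
  have hc : ∀ a : D, const P D Unit a ∈ Fil P D 1 := fun a =>
    ⟨a, 0, Fin.elim0, Fin.elim0, fun i => i.elim0, by simp⟩
  refine induct (C := fun f => ∃ m, f ∈ Fil P D m) ?_ ?_ ?_ ?_ f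
  · intro a
    exact ⟨1, hc a⟩
  · intro i
    refine ⟨2, 0, 1, fun _ => 1, fun _ => const P D Unit 1, fun _ => hc 1, ?_⟩
    rw [map_zero, zero_add, Fin.sum_univ_one, map_one, one_mul, mul_one]
  · rintro f g ⟨m, hm⟩ ⟨n, hn⟩
    exact ⟨max m n, fil_add (fil_mono (le_max_left _ _) hm) (fil_mono (le_max_right _ _) hn)⟩
  · rintro f g ⟨m, hm⟩ ⟨n, hn⟩
    exact ⟨m + n, fil_mul hm hn⟩

/-- In the representation of an element of `Fil (m+1)` the left coefficients can be taken
linearly independent over `P`. -/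
theorem fil_indep {m : ℕ} {f : FreeOver P D Unit} (hf : f ∈ Fil P D (m + 1)) :
    ∃ (a : D) (n : ℕ) (β : Fin n → D) (h : Fin n → FreeOver P D Unit),
      LinearIndependent P β ∧ (∀ i, h i ∈ Fil P D m) ∧
      f = const P D Unit a + ∑ i, const P D Unit (β i) * var P D Unit () * h i := by
  obtain ⟨a, n, β, h, hh, rfl⟩ := hf
  let W : Submodule P D := Submodule.span P (Set.range β)
  have : FiniteDimensional P W := FiniteDimensional.span_of_finite P (Set.finite_range β)
  let e := Module.finBasis P W
  have hβ : ∀ i, β i ∈ W := fun i => Submodule.subset_span (Set.mem_range_self i)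
  let r : Fin n → Fin (Module.finrank P W) → P := fun i j => e.repr ⟨β i, hβ i⟩ j
  have hr : ∀ i, β i = ∑ j, r i j • (e j : D) := by
    intro i
    have h1 := congrArg (Subtype.val) (e.sum_repr ⟨β i, hβ i⟩)
    rw [Submodule.coe_sum] at h1
    exact h1.symm
  refine ⟨a, Module.finrank P W, fun j => (e j : D), fun j => ∑ i, r i j • h i, ?_, ?_, ?_⟩
  · exact e.linearIndependent.map' W.subtype (Submodule.ker_subtype W)
  · intro j
    exact fil_sum_mem _ _ fun i _ => fil_smul _ (hh i)
  · congr 1
    have h1 : ∀ i, const P D Unit (β i) * var P D Unit () * h i =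
        ∑ j, const P D Unit (e j : D) * var P D Unit () * (r i j • h i) := by
      intro i
      rw [hr i, map_sum, Finset.sum_mul, Finset.sum_mul]
      refine Finset.sum_congr rfl fun j _ => ?_
      rw [map_smul, smul_mul_assoc, smul_mul_assoc, mul_smul_comm]
    simp only [h1]
    rw [Finset.sum_comm]
    refine Finset.sum_congr rfl fun j _ => ?_
    rw [Finset.mul_sum]

end fil

end ACA

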