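import Pool.Agent.Helper601.ACA.B1
import Pool.Agent.Helper601.ACA.B3

namespace ACA

open Pool.Agent.Results.MP_4b1745_al.OneVariable
open scoped TensorProduct BigOperators

section fil
variable (P D : Type*) [Field P] [Ring D] [Algebra P D]

variable {P D}

end fil

/- GIVEN lemmas (proved elsewhere), keep them as axioms. -/

/-- Scalar functions which are polynomial along all lines. -/
def IsTheta (P D : Type*) [Field P] [DivisionRing D] [Algebra P D] (θ : D → P) : Prop :=
  ∀ x y : D, ∃ q : Polynomial P, ∀ n : ℕ, θ (x + n • y) = q.eval (n : P)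


section descend
variable {P D : Type*} [Field P] [DivisionRing D] [Algebra P D]

/-- Evaluation along a line, with values in `D[X]`. -/
noncomputable def evl (x y : D) : FreeOver P D Unit →ₐ[P] Polynomial D :=
  lift (Polynomial.CAlgHom) (fun _ => Polynomial.C x + Polynomial.X * Polynomial.C y)

theorem evl_const (x y a : D) : evl (P := P) x y (const P D Unit a) = Polynomial.C a := by
  rw [evl, lift_const]; rfl

theorem evl_var (x y : D) : evl (P := P) x y (var P D Unit ()) =
    Polynomial.C x + Polynomial.X * Polynomial.C y := by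
  rw [evl, lift_var]

theorem evalAt_const' (x a : D) : evalAt (P := P) (fun _ : Unit => x) (const P D Unit a) = a := by
  rw [evalAt, lift_const]; rfl

theorem evalAt_var' (x : D) : evalAt (P := P) (fun _ : Unit => x) (var P D Unit ()) = x := by
  rw [evalAt, lift_var]

theorem evl_eval (x y : D) (n : ℕ) (f : FreeOver P D Unit) :
    (evl x y f).eval (n : D) = evalAt (fun _ => x + n • y) f := by
  have key : (Polynomial.eval₂AlgHom (AlgHom.id P D) (n : D)
      (fun a => (Nat.cast_commute n a).symm)).comp (evl x y) =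
      evalAt (P := P) (fun _ : Unit => x + n • y) := by
    apply hom_ext'
    · intro a
      rw [AlgHom.comp_apply, evl_const, evalAt_const']
      simp [Polynomial.eval₂AlgHom]
    · intro i
      cases i
      rw [AlgHom.comp_apply, evl_var, evalAt_var', map_add, map_mul]
      simp [Polynomial.eval₂AlgHom]
  have := DFunLike.congr_fun key f
  rw [← this]
  rfl

theorem evl_coeff_zero (x y : D) (f : FreeOver P D Unit) :
    (evl x y f).coeff 0 = evalAt (fun _ => x) f := by
  have := evl_eval x y 0 f
  rw [Polynomial.coeff_zero_eq_eval_zero]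
  simpa using this

/-- Left multiplication on the left tensor factor. -/
noncomputable def LM (q : D) : D ⊗[P] D →ₗ[P] D ⊗[P] D :=
  LinearMap.rTensor D (LinearMap.mulLeft P q)

theorem mu_LM (q : D) (t : D ⊗[P] D) (y : D) : mu (LM q t) y = q * mu t y := by
  induction t using TensorProduct.induction_on with
  | zero => simp
  | tmul b c => simp [LM, mu_tmul, mul_assoc]
  | add a b ha hb => rw [map_add, map_add, map_add, LinearMap.add_apply, LinearMap.add_apply, ha, hb, mul_add]

theorem LM_one (t : D ⊗[P] D) : LM 1 t = t := by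
  simp [LM]

theorem LM_mul (q q' : D) (t : D ⊗[P] D) : LM (q * q') t = LM q (LM q' t) := by
  induction t using TensorProduct.induction_on with
  | zero => simp
  | tmul b c => simp [LM, mul_assoc]
  | add a b ha hb => simp only [map_add, ha, hb]

/-- Right multiplication on the right tensor factor. -/
noncomputable def RM (q : D) : D ⊗[P] D →ₗ[P] D ⊗[P] D :=
  LinearMap.lTensor D (LinearMap.mulRight P q)

theorem mu_RM (q : D) (t : D ⊗[P] D) (y : D) : mu (RM q t) y = mu t y * q := by
  induction t using TensorProduct.induction_on with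
  | zero => simp
  | tmul b c => simp [RM, mu_tmul, mul_assoc]
  | add a b ha hb => rw [map_add, map_add, map_add, LinearMap.add_apply, LinearMap.add_apply, ha, hb, add_mul]

theorem exists_T (x : D) (f : FreeOver P D Unit) :
    ∃ t : D ⊗[P] D, ∀ y, mu t y = (evl x y f).coeff 1 := by
  induction f using induct with
  | hc a => exact ⟨0, fun y => by rw [evl_const]; simp⟩
  | hv i =>
    cases i
    refine ⟨1 ⊗ₜ 1, fun y => ?_⟩
    rw [evl_var, mu_tmul]; simp
  | hadd f g hf hg =>
    obtain ⟨t, ht⟩ := hf
    obtain ⟨s, hs⟩ := hg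
    exact ⟨t + s, fun y => by rw [map_add, LinearMap.add_apply, ht, hs, map_add, Polynomial.coeff_add]⟩
  | hmul f g hf hg =>
    obtain ⟨t, ht⟩ := hf
    obtain ⟨s, hs⟩ := hg
    refine ⟨LM (evalAt (fun _ => x) f) s + RM (evalAt (fun _ => x) g) t, fun y => ?_⟩
    rw [map_add, LinearMap.add_apply, mu_LM, mu_RM, map_mul, Polynomial.mul_coeff_one,
      evl_coeff_zero, evl_coeff_zero, ht, hs]

/-- The noncommutative derivative. -/
noncomputable def T (x : D) (f : FreeOver P D Unit) : D ⊗[P] D := (exists_T x f).choose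

theorem mu_T (x y : D) (f : FreeOver P D Unit) : mu (T x f) y = (evl x y f).coeff 1 :=
  (exists_T x f).choose_spec y

/-- Apply a functional to the left tensor factor. -/
noncomputable def PS (ψ : D →ₗ[P] P) : D ⊗[P] D →ₗ[P] D :=
  (TensorProduct.lid P D).toLinearMap ∘ₗ LinearMap.rTensor D ψ

theorem PS_tmul (ψ : D →ₗ[P] P) (b c : D) : PS ψ (b ⊗ₜ[P] c) = ψ b • c := by
  simp [PS]

/-- Coefficientwise application of a functional. -/
noncomputable def psiPoly (ψ : D →ₗ[P] P) (Q : Polynomial D) : Polynomial P :=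
  ∑ i ∈ Finset.range (Q.natDegree + 1), Polynomial.monomial i (ψ (Q.coeff i))

theorem psiPoly_eval (ψ : D →ₗ[P] P) (Q : Polynomial D) (n : ℕ) :
    (psiPoly ψ Q).eval (n : P) = ψ (Q.eval (n : D)) := by
  rw [psiPoly, Polynomial.eval_finset_sum, Polynomial.eval_eq_sum_range, map_sum]
  refine Finset.sum_congr rfl fun i _ => ?_
  rw [Polynomial.eval_monomial]
  have : (n : D) ^ i = algebraMap P D ((n : P) ^ i) := by simp
  rw [this, ← Algebra.commutes, ← Algebra.smul_def, map_smul, smul_eq_mul, mul_comm]

theorem psiPoly_coeff (ψ : D →ₗ[P] P) (Q : Polynomial D) (i : ℕ) :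
    (psiPoly ψ Q).coeff i = ψ (Q.coeff i) := by
  rw [psiPoly, Polynomial.finset_sum_coeff]
  simp only [Polynomial.coeff_monomial]
  rw [Finset.sum_ite_eq' ]
  split_ifs with h
  · rfl
  · rw [Polynomial.coeff_eq_zero_of_natDegree_lt, map_zero]
    simpa [Nat.lt_succ_iff] using h

theorem poly_zero [CharZero P] (Q : Polynomial D) (h : ∀ n : ℕ, Q.eval (n : D) = 0) : Q = 0 := by
  ext i
  rw [Polynomial.coeff_zero, ← Module.forall_dual_apply_eq_zero_iff P]
  intro ψ
  have h0 : psiPoly ψ Q = 0 := by
    apply Polynomial.eq_of_infinite_eval_eq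
    apply Set.infinite_of_injective_forall_mem (f := fun n : ℕ => (n : P)) Nat.cast_injective
    intro n
    change (psiPoly ψ Q).eval (n : P) = Polynomial.eval (n : P) 0
    rw [psiPoly_eval, h, map_zero, Polynomial.eval_zero]
  rw [← psiPoly_coeff, h0, Polynomial.coeff_zero]

theorem theta_psi (ψ : D →ₗ[P] P) (w : FreeOver P D Unit) :
    IsTheta P D (fun x => ψ (evalAt (fun _ => x) w)) := by
  intro x y
  refine ⟨psiPoly ψ (evl x y w), fun n => ?_⟩
  rw [psiPoly_eval, evl_eval]

theorem theta_mul {θ θ' : D → P} (h : IsTheta P D θ) (h' : IsTheta P D θ') :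
    IsTheta P D (fun x => θ x * θ' x) := by
  intro x y
  obtain ⟨q, hq⟩ := h x y
  obtain ⟨q', hq'⟩ := h' x y
  exact ⟨q * q', fun n => by rw [Polynomial.eval_mul, ← hq, ← hq']⟩

theorem theta_const (c : P) : IsTheta P D (fun _ => c) := by
  intro x y
  exact ⟨Polynomial.C c, fun n => by simp⟩

/-- Combinations with scalar coefficients polynomial along lines. -/
def Comb (P D : Type*) [Field P] [DivisionRing D] [Algebra P D] (n : ℕ) : Submodule P (D → D) :=
  Submodule.span P {F | ∃ (θ : D → P) (g : FreeOver P D Unit), IsTheta P D θ ∧ g ∈ Fil P D n ∧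
    F = fun z => θ z • evalAt (fun _ => z) g}

theorem comb_gen {n : ℕ} {θ : D → P} {g : FreeOver P D Unit} (hθ : IsTheta P D θ)
    (hg : g ∈ Fil P D n) : (fun z => θ z • evalAt (fun _ => z) g) ∈ Comb P D n :=
  Submodule.subset_span ⟨θ, g, hθ, hg, rfl⟩

theorem comb_mono {n n' : ℕ} (h : n ≤ n') : Comb P D n ≤ Comb P D n' := by
  apply Submodule.span_mono
  rintro F ⟨θ, g, hθ, hg, rfl⟩
  exact ⟨θ, g, hθ, fil_mono h hg, rfl⟩

theorem comb_theta {n : ℕ} {θ : D → P} {F : D → D} (hθ : IsTheta P D θ) (hF : F ∈ Comb P D n) :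
    (fun z => θ z • F z) ∈ Comb P D n := by
  induction hF using Submodule.span_induction with
  | mem F h =>
    obtain ⟨θ', g, hθ', hg, rfl⟩ := h
    have := comb_gen (theta_mul hθ hθ') hg
    simpa [mul_smul] using this
  | zero =>
    have : (fun z => θ z • (0 : D → D) z) = 0 := by ext z; simp
    rw [this]; exact Submodule.zero_mem _
  | add F G _ _ hF hG =>
    have : (fun z => θ z • (F + G) z) = (fun z => θ z • F z) + (fun z => θ z • G z) := by
      ext z; simp
    rw [this]; exact Submodule.add_mem _ hF hG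
  | smul a F _ hF =>
    have : (fun z => θ z • (a • F) z) = a • (fun z => θ z • F z) := by
      ext z; simp [smul_smul, mul_comm]
    rw [this]; exact Submodule.smul_mem _ _ hF

theorem comb_rep {n : ℕ} {F : D → D} (hF : F ∈ Comb P D n) :
    ∃ (r : ℕ) (θ : Fin r → D → P) (g : Fin r → FreeOver P D Unit),
      (∀ k, IsTheta P D (θ k)) ∧ (∀ k, g k ∈ Fil P D n) ∧
      ∀ z, F z = ∑ k, θ k z • evalAt (fun _ => z) (g k) := by
  rw [Comb, Submodule.mem_span_set'] at hF
  obtain ⟨r, c, G, hG⟩ := hF
  choose θ g hθ hg hGe using fun i => (G i).2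
  refine ⟨r, fun k z => c k * θ k z, g, fun k => theta_mul (theta_const (c k)) (hθ k), hg, ?_⟩
  intro z
  rw [← hG, Finset.sum_apply]
  refine Finset.sum_congr rfl fun i _ => ?_
  rw [Pi.smul_apply, hGe i, smul_smul]

section key
variable [CharZero P]
    (hcenter : ∀ c : D, (∀ d, c * d = d * c) → c ∈ Set.range (algebraMap P D))
    (hinf : ¬ FiniteDimensional P D)
include hcenter hinf

theorem mu_inj {t s : D ⊗[P] D} (h : ∀ y, mu t y = mu s y) : t = s := by
  rw [← sub_eq_zero]
  apply mu_finite_rank hcenter hinf (t - s) ⊥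
  intro y
  rw [map_sub, LinearMap.sub_apply, h, sub_self]
  exact Submodule.zero_mem _

theorem T_formula (x a : D) {n : ℕ} (β : Fin n → D) (h : Fin n → FreeOver P D Unit) :
    T x (const P D Unit a + ∑ i, const P D Unit (β i) * var P D Unit () * h i) =
      ∑ i, (β i ⊗ₜ[P] (evalAt (fun _ => x) (h i)) + LM (β i * x) (T x (h i))) := by
  apply mu_inj hcenter hinf
  intro y
  rw [mu_T, map_add, map_sum, Polynomial.coeff_add, Polynomial.finset_sum_coeff, evl_const,
    Polynomial.coeff_C_of_ne_zero one_ne_zero, zero_add, map_sum, LinearMap.sum_apply]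
  refine Finset.sum_congr rfl fun i _ => ?_
  rw [map_mul, map_mul, evl_const, evl_var, map_add, LinearMap.add_apply, mu_tmul, mu_LM, mu_T,
    mul_assoc, Polynomial.coeff_C_mul, Polynomial.mul_coeff_one, evl_coeff_zero]
  simp [mul_add, mul_assoc, add_comm]

theorem suff (n : ℕ) : ∀ (h w : FreeOver P D Unit) (_ : h ∈ Fil P D (n + 1)) (ψ : D →ₗ[P] P),
    (fun x => PS ψ (LM (evalAt (fun _ => x) w) (T x h))) ∈ Comb P D n := by
  induction n with
  | zero =>
    intro h w hh ψ
    obtain ⟨a, n, β, g, hg, rfl⟩ := hh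
    have hg0 : ∀ i, g i = 0 := fun i => hg i
    have : (fun x => PS ψ (LM (evalAt (fun _ => x) w)
        (T x (const P D Unit a + ∑ i, const P D Unit (β i) * var P D Unit () * g i)))) = 0 := by
      funext x
      have h0 : T x (0 : FreeOver P D Unit) = 0 := by
        apply mu_inj hcenter hinf
        intro y
        rw [mu_T]; simp
      rw [T_formula hcenter hinf]
      simp [hg0, h0]
    rw [this]
    exact Submodule.zero_mem _
  | succ n ih =>
    intro h w hh ψ
    obtain ⟨a, r, β, g, hg, rfl⟩ := hh
    have : (fun x => PS ψ (LM (evalAt (fun _ => x) w)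
        (T x (const P D Unit a + ∑ i, const P D Unit (β i) * var P D Unit () * g i)))) =
        ∑ i, ((fun x => (ψ (evalAt (fun _ => x) (w * const P D Unit (β i)))) •
            evalAt (fun _ => x) (g i)) +
          (fun x => PS ψ (LM (evalAt (fun _ => x) (w * (const P D Unit (β i) * var P D Unit ())))
            (T x (g i))))) := by
      funext x
      rw [T_formula hcenter hinf, map_sum, map_sum, Finset.sum_apply]
      refine Finset.sum_congr rfl fun i _ => ?_
      rw [map_add, map_add, Pi.add_apply]
      congr 1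
      · have e1 : evalAt (fun _ : Unit => x) (w * const P D Unit (β i)) =
            evalAt (fun _ => x) w * β i := by rw [map_mul, evalAt_const']
        rw [LM, LinearMap.rTensor_tmul, PS_tmul, LinearMap.mulLeft_apply, e1]
      · have e2 : evalAt (fun _ : Unit => x) (w * (const P D Unit (β i) * var P D Unit ())) =
            evalAt (fun _ => x) w * (β i * x) := by
          rw [map_mul, map_mul, evalAt_const', evalAt_var']
        rw [e2, LM_mul (evalAt (fun _ : Unit => x) w) (β i * x)]
    rw [this]
    refine Submodule.sum_mem _ fun i _ => Submodule.add_mem _ ?_ ?_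
    · exact comb_gen (theta_psi ψ _) (hg i)
    · exact comb_mono (Nat.le_succ n) (ih _ _ (hg i) ψ)

theorem T_comb (f : FreeOver P D Unit) (r : ℕ) (θ : Fin r → D → P)
    (g : Fin r → FreeOver P D Unit) (hθ : ∀ k, IsTheta P D (θ k))
    (heq : ∀ z : D, evalAt (fun _ => z) f = ∑ k, θ k z • evalAt (fun _ => z) (g k)) (x : D) :
    T x f = ∑ k, θ k x • T x (g k) := by
  rw [← sub_eq_zero]
  let W : Submodule P D := Submodule.span P (Set.range fun k => evalAt (fun _ => x) (g k))
  haveI : FiniteDimensional P W := FiniteDimensional.span_of_finite P (Set.finite_range _)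
  apply mu_finite_rank hcenter hinf _ W
  intro y
  choose q hq using fun k => hθ k x y
  have hpoly : evl x y f = ∑ k, (q k).map (algebraMap P D) * evl x y (g k) := by
    rw [← sub_eq_zero]
    apply poly_zero (P := P)
    intro n
    rw [Polynomial.eval_sub, evl_eval, heq, Polynomial.eval_finset_sum, sub_eq_zero]
    refine Finset.sum_congr rfl fun k _ => ?_
    rw [hq, ← evl_eval, Algebra.smul_def]
    have hc : Polynomial.eval (n : D) ((q k).map (algebraMap P D) * evl x y (g k)) =
        Polynomial.eval (n : D) ((q k).map (algebraMap P D)) *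
          Polynomial.eval (n : D) (evl x y (g k)) := by
      have := map_mul (Polynomial.eval₂AlgHom (AlgHom.id P D) (n : D)
        (fun a => (Nat.cast_commute n a).symm)) ((q k).map (algebraMap P D)) (evl x y (g k))
      exact this
    rw [hc]
    congr 1
    rw [Polynomial.eval_map, Polynomial.eval₂_at_natCast]
  have h1 : (evl x y f).coeff 1 = ∑ k, (θ k x • (evl x y (g k)).coeff 1 +
      (q k).coeff 1 • evalAt (fun _ => x) (g k)) := by
    rw [hpoly, Polynomial.finset_sum_coeff]
    refine Finset.sum_congr rfl fun k _ => ?_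
    rw [Polynomial.mul_coeff_one, Polynomial.coeff_map, Polynomial.coeff_map, evl_coeff_zero,
      Algebra.smul_def, Algebra.smul_def]
    have := hq k 0
    rw [Polynomial.coeff_zero_eq_eval_zero]
    simp at this
    rw [this]
  rw [map_sub, LinearMap.sub_apply, mu_T, h1, map_sum, LinearMap.sum_apply, ← Finset.sum_sub_distrib]
  refine Submodule.sum_mem _ fun k _ => ?_
  rw [map_smul, LinearMap.smul_apply, mu_T, add_sub_cancel_left]
  exact Submodule.smul_mem _ _ (Submodule.subset_span ⟨k, rfl⟩)

theorem descend (m : ℕ) : ∀ f ∈ Fil P D (m + 1),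
    (fun z => evalAt (fun _ => z) f) ∈ Comb P D m → f ∈ Fil P D m := by
  induction m with
  | zero =>
    intro f hf hF
    obtain ⟨a, n, β, g, hg, rfl⟩ := hf
    have hg0 : ∀ i, g i = 0 := fun i => hg i
    obtain ⟨r, θ, g', hθ, hg', he⟩ := comb_rep hF
    have hg0' : ∀ i, g' i = 0 := fun i => hg' i
    have h0 := he 0
    simp only [hg0, hg0', mul_zero, Finset.sum_const_zero, add_zero, map_zero, smul_zero,
      evalAt_const'] at h0
    simp only [hg0, mul_zero, Finset.sum_const_zero, add_zero, h0, map_zero]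
    exact Set.mem_singleton _
  | succ m ih =>
    intro f hf hF
    obtain ⟨r, θ, g, hθ, hg, he⟩ := comb_rep hF
    obtain ⟨a, n, β, h, hβ, hh, rfl⟩ := fil_indep hf
    refine ⟨a, n, β, h, fun i₀ => ?_, rfl⟩
    apply ih _ (hh i₀)
    obtain ⟨ψ, hψ⟩ := LinearMap.exists_extend ((Finsupp.lapply i₀ : (Fin n →₀ P) →ₗ[P] P) ∘ₗ
      hβ.repr)
    have hψβ : ∀ i, ψ (β i) = if i = i₀ then 1 else 0 := by
      intro i
      have h1 := LinearMap.congr_fun hψ ⟨β i, Submodule.subset_span (Set.mem_range_self i)⟩
      simp only [LinearMap.comp_apply, Submodule.subtype_apply] at h1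
      rw [h1]
      have h2 := hβ.repr_eq_single i ⟨β i, Submodule.subset_span (Set.mem_range_self i)⟩ rfl
      change (hβ.repr ⟨β i, _⟩) i₀ = _
      rw [h2, Finsupp.single_apply]
    have hform : (fun z => evalAt (fun _ => z) (h i₀)) =
        (∑ k, fun z => θ k z • PS ψ (LM (evalAt (fun _ : Unit => z) (1 : FreeOver P D Unit)) (T z (g k)))) -
        ∑ i, fun z => PS ψ (LM (evalAt (fun _ : Unit => z) (const P D Unit (β i) * var P D Unit ()))
          (T z (h i))) := by
      funext z
      have hT := T_comb hcenter hinf _ r θ g hθ he z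
      rw [T_formula hcenter hinf] at hT
      have hT' := congrArg (PS ψ) hT
      rw [map_sum, map_sum] at hT'
      simp only [map_add, PS_tmul, hψβ, map_smul, Finset.sum_add_distrib, ite_smul, one_smul,
        zero_smul, Finset.sum_ite_eq', Finset.mem_univ, if_true] at hT'
      rw [Pi.sub_apply, Finset.sum_apply, Finset.sum_apply, eq_sub_iff_add_eq]
      simp only [map_mul, map_one, evalAt_const', evalAt_var', LM_one]
      simpa using hT'
    rw [hform]
    refine Submodule.sub_mem _ (Submodule.sum_mem _ fun k _ => ?_) (Submodule.sum_mem _ fun i _ => ?_)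
    · exact comb_theta (hθ k) (suff hcenter hinf m _ _ (hg k) ψ)
    · exact suff hcenter hinf m _ _ (hh i) ψ

end key

end descend

/-- Key step of Amitsur's theorem. -/
theorem fil_descend {P D : Type*} [Field P] [CharZero P] [DivisionRing D] [Algebra P D]
    (hcenter : ∀ c : D, (∀ d, c * d = d * c) → c ∈ Set.range (algebraMap P D))
    (hinf : ¬ FiniteDimensional P D) (m : ℕ) (f : FreeOver P D Unit) (hf : f ∈ Fil P D (m + 1))
    (r : ℕ) (θ : Fin r → D → P) (g : Fin r → FreeOver P D Unit)
    (hθ : ∀ k, IsTheta P D (θ k)) (hg : ∀ k, g k ∈ Fil P D m)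
    (heq : ∀ z : D, evalAt (fun _ => z) f = ∑ k, θ k z • evalAt (fun _ => z) (g k)) :
    f ∈ Fil P D m := by
  apply descend hcenter hinf m f hf
  have : (fun z => evalAt (fun _ : Unit => z) f) =
      ∑ k, (fun z => θ k z • evalAt (fun _ : Unit => z) (g k)) := by
    funext z
    rw [heq, Finset.sum_apply]
  rw [this]
  exact Submodule.sum_mem _ fun k _ => comb_gen (hθ k) (hg k)

end ACA

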