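import Pool.Agent.Helper601.ACA.Gpi
import Pool.Agent.Results.MP_4b1745_al.OneVariable

namespace ACA

open Pool.Agent.Results.MP_4b1745_al.OneVariable
open scoped TensorProduct BigOperators

section fil
variable (P D : Type*) [Field P] [Ring D] [Algebra P D]

variable {P D}

end fil

/- GIVEN (proved elsewhere), keep as axioms. -/
theorem aux663_exists_eval {P D : Type*} [Field P] [Ring D] [Algebra P D]
    (f : FreeOver P D Unit) : ∃ F : GP D, ∀ c : Unit → D, evalAt c f = F.eval id (c ()) := by
  induction f using induct with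
  | hc a => exact ⟨GP.const a, fun c => by rw [evalAt, lift_const]; rfl⟩
  | hv i => exact ⟨GP.X, fun c => by rw [evalAt, lift_var]; rfl⟩
  | hadd f g hf hg =>
    obtain ⟨F, hF⟩ := hf
    obtain ⟨G, hG⟩ := hg
    exact ⟨GP.add F G, fun c => by rw [map_add, hF, hG]; rfl⟩
  | hmul f g hf hg =>
    obtain ⟨F, hF⟩ := hf
    obtain ⟨G, hG⟩ := hg
    exact ⟨GP.mul F G, fun c => by rw [map_mul, hF, hG]; rfl⟩

theorem aux663_der {P D : Type*} [Field P] [Ring D] [Algebra P D] (x W : D)
    (h : x * W - W * x = 1) (p : Polynomial P) :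
    Polynomial.aeval x p * W - W * Polynomial.aeval x p =
      Polynomial.aeval x (Polynomial.derivative p) := by
  have hpow : ∀ n : ℕ, x ^ n * W - W * x ^ n = (n : D) * x ^ (n - 1) := by
    intro n
    induction n with
    | zero => simp
    | succ n ih =>
      have e : x ^ (n + 1) * W - W * x ^ (n + 1) =
          x ^ n * (x * W - W * x) + (x ^ n * W - W * x ^ n) * x := by
        rw [pow_succ]; noncomm_ring
      rw [e, h, ih, mul_one, Nat.add_sub_cancel]
      cases n with
      | zero => simp
      | succ n =>
        rw [Nat.add_sub_cancel, mul_assoc, ← pow_succ]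
        push_cast
        ring_nf
        noncomm_ring
  induction p using Polynomial.induction_on' with
  | add p q hp hq =>
    rw [Polynomial.derivative_add, map_add, map_add, ← hp, ← hq]
    noncomm_ring
  | monomial n a =>
    rw [Polynomial.derivative_monomial, Polynomial.aeval_monomial, Polynomial.aeval_monomial,
      map_mul, map_natCast, mul_assoc (algebraMap P D a) ((n : D)), ← hpow n, mul_sub,
      ← mul_assoc W, ← Algebra.commutes a W, mul_assoc, mul_assoc]

theorem aux663_closed {D : Type} [DivisionRing D] [Algebra ℚ D]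
    (hnc : ∃ a b : D, a * b ≠ b * a)
    (hroot : ∀ F : GP D, (∃ a b : D, F.eval id a ≠ F.eval id b) → ∃ x : D, F.eval id x = 0) :
    ∃ (P : Type) (_ : Field P) (_ : Algebra P D),
      (∀ c : D, (∀ d, c * d = d * c) ↔ c ∈ Set.range (algebraMap P D)) ∧
      AlgClosedIn P D ℕ := by
  have hcz : CharZero D := algebraRat.charZero D
  have hcen : ∀ c : D, (∀ d, c * d = d * c) ↔ c ∈ Set.range (algebraMap (Subring.center D) D) := by
    intro c
    constructor
    · intro h
      exact ⟨⟨c, Subring.mem_center_iff.2 fun g => (h g).symm⟩, rfl⟩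
    · rintro ⟨r, rfl⟩ d
      exact (Subring.mem_center_iff.1 r.2 d).symm
  refine ⟨Subring.center D, inferInstance, inferInstance, hcen, ?_⟩
  have hcp : CharZero (Subring.center D) := ⟨fun n m h => by
    have := congrArg (algebraMap (Subring.center D) D) h
    simpa using this⟩
  obtain ⟨a, W, haW⟩ := hnc
  obtain ⟨x, hx⟩ := hroot (GP.add (GP.add (GP.mul GP.X (GP.const W)) (GP.mul (GP.const (-W)) GP.X))
    (GP.const (-1))) ⟨a, 0, by
      simp only [GP.eval, id]
      intro h
      apply haW
      have h2 : a * W + -W * a = 0 := by simpa using h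
      rw [neg_mul, add_neg_eq_zero] at h2
      exact h2⟩
  have hx1 : x * W - W * x = 1 := by
    simp only [GP.eval, id] at hx
    rw [neg_mul, ← sub_eq_add_neg, ← sub_eq_add_neg, sub_eq_zero] at hx
    exact hx
  have hinf : ¬ FiniteDimensional (Subring.center D) D := by
    intro hfd
    have hint : IsIntegral (Subring.center D) x := Algebra.IsIntegral.isIntegral x
    have h1 := aux663_der x W hx1 (minpoly (Subring.center D) x)
    rw [minpoly.aeval, zero_mul, mul_zero, sub_zero] at h1
    have hne : minpoly (Subring.center D) x ≠ 0 := minpoly.ne_zero hint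
    have hdne : Polynomial.derivative (minpoly (Subring.center D) x) ≠ 0 := by
      intro h0
      have h2 := Polynomial.derivative_eq_zero.1 h0
      have h3 := minpoly.natDegree_pos hint
      omega
    have h4 := minpoly.degree_le_of_ne_zero (Subring.center D) x hdne h1.symm
    exact absurd (Polynomial.degree_derivative_lt hne) (not_lt.2 h4)
  rw [Pool.Agent.Results.MP_4b1745_al.OneVariable.result]
  refine ⟨?_, ?_⟩
  · intro hs
    apply haW
    exact (hcen a).2 (hs a) W
  · intro f hf
    obtain ⟨F, hF⟩ := aux663_exists_eval f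
    by_cases hc : ∃ a b : D, F.eval id a ≠ F.eval id b
    · obtain ⟨y, hy⟩ := hroot F hc
      exact ⟨fun _ => y, by rw [hF]; exact hy⟩
    · push Not at hc
      exfalso
      apply hf
      have h0 := gpi (P := Subring.center D) (D := D) (fun c hc => (hcen c).1 hc) hinf
        (f - const (Subring.center D) D Unit (F.eval id 0)) (fun z => by
          rw [map_sub, hF]
          have : evalAt (fun _ => z) (const (Subring.center D) D Unit (F.eval id 0)) =
            F.eval id 0 := by rw [evalAt, lift_const]; rfl
          rw [this, hc z 0, sub_self])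
      exact ⟨F.eval id 0, (sub_eq_zero.1 h0).symm⟩

/-- Abstract form: a noncommutative ring in which every nonconstant generalised polynomial
function has a root is algebraically closed over its centre. -/
theorem abs_closed {D : Type} [Ring D] [Algebra ℚ D] [Nontrivial D]
    (hnc : ∃ a b : D, a * b ≠ b * a)
    (hroot : ∀ F : GP D, (∃ a b : D, F.eval id a ≠ F.eval id b) → ∃ x : D, F.eval id x = 0) :
    (∀ a : D, a ≠ 0 → ∃ b : D, a * b = 1 ∧ b * a = 1) ∧
    ∃ (P : Type) (_ : Field P) (_ : Algebra P D),
      (∀ c : D, (∀ d, c * d = d * c) ↔ c ∈ Set.range (algebraMap P D)) ∧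
      AlgClosedIn P D ℕ := by
  have hright : ∀ a : D, a ≠ 0 → ∃ b : D, a * b = 1 := by
    intro a ha
    obtain ⟨b, hb⟩ := hroot (GP.add (GP.mul (GP.const a) GP.X) (GP.const (-1))) ⟨1, 0, by
      simp only [GP.eval, id]
      intro h
      apply ha
      simpa using h⟩
    refine ⟨b, ?_⟩
    simp only [GP.eval, id] at hb
    rw [← sub_eq_add_neg, sub_eq_zero] at hb
    exact hb
  have hinv : ∀ a : D, a ≠ 0 → ∃ b : D, a * b = 1 ∧ b * a = 1 := by
    intro a ha
    obtain ⟨b, hb⟩ := hright a ha
    have hb0 : b ≠ 0 := by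
      rintro rfl
      rw [mul_zero] at hb
      exact zero_ne_one hb
    obtain ⟨c, hc⟩ := hright b hb0
    have hac : a = c := by
      calc a = a * (b * c) := by rw [hc, mul_one]
        _ = c := by rw [← mul_assoc, hb, one_mul]
    exact ⟨b, hb, by rw [hac]; exact hc⟩
  refine ⟨hinv, ?_⟩
  have hu : ∀ a : D, IsUnit a ∨ a = 0 := by
    intro a
    by_cases ha : a = 0
    · exact Or.inr ha
    · obtain ⟨b, h1, h2⟩ := hinv a ha
      exact Or.inl ⟨⟨a, b, h1, h2⟩, rfl⟩
  exact @aux663_closed D (DivisionRing.ofIsUnitOrEqZero hu) _ hnc hroot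

end ACA

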