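import Pool.Agent.Helper601.ACA.Defs

namespace ACA

open BiDiff

/-- the ring homomorphism `a ↦ a + ε d a` -/
noncomputable def kHom {K σ : Type*} [CommRing K] (d : Derivation ℤ K K) :
    K →+* TrivSqZeroExt (MvPolynomial σ K) (MvPolynomial σ K) where
  toFun := fun a => TrivSqZeroExt.inl (MvPolynomial.C a) + TrivSqZeroExt.inr (MvPolynomial.C (d a))
  map_one' := by
    apply TrivSqZeroExt.ext
    · simp
    · simp
  map_mul' := by
    intro a b
    apply TrivSqZeroExt.ext
    · simp
    · simp only [TrivSqZeroExt.snd_add, TrivSqZeroExt.snd_inl, TrivSqZeroExt.snd_inr, zero_add,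
        Derivation.leibniz, smul_eq_mul, map_add, map_mul, TrivSqZeroExt.snd_mul,
        TrivSqZeroExt.fst_add, TrivSqZeroExt.fst_inl, TrivSqZeroExt.fst_inr, add_zero,
        MulOpposite.smul_eq_mul_unop, MulOpposite.unop_op]
      ring
  map_zero' := by
    apply TrivSqZeroExt.ext
    · simp
    · simp
  map_add' := by
    intro a b
    apply TrivSqZeroExt.ext
    · simp
    · simp only [TrivSqZeroExt.snd_add, TrivSqZeroExt.snd_inl, TrivSqZeroExt.snd_inr, zero_add,
        map_add]

theorem kHom_fst {K σ : Type*} [CommRing K] (d : Derivation ℤ K K) (a : K) :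
    (kHom (σ := σ) d a).fst = MvPolynomial.C a := by
  simp [kHom]

theorem kHom_snd {K σ : Type*} [CommRing K] (d : Derivation ℤ K K) (a : K) :
    (kHom (σ := σ) d a).snd = MvPolynomial.C (d a) := by
  show (TrivSqZeroExt.inl (MvPolynomial.C a) + TrivSqZeroExt.inr (MvPolynomial.C (d a)) :
    TrivSqZeroExt (MvPolynomial σ K) (MvPolynomial σ K)).snd = _
  rw [TrivSqZeroExt.snd_add, TrivSqZeroExt.snd_inl, TrivSqZeroExt.snd_inr, zero_add]

theorem exists_der {K σ : Type*} [CommRing K] (d : Derivation ℤ K K)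
    (f : σ → MvPolynomial σ K) :
    ∃ D : Derivation ℤ (MvPolynomial σ K) (MvPolynomial σ K),
      (∀ a, D (MvPolynomial.C a) = MvPolynomial.C (d a)) ∧ ∀ i, D (MvPolynomial.X i) = f i := by
  obtain ⟨ψ, hψ⟩ : ∃ ψ : MvPolynomial σ K →+* TrivSqZeroExt (MvPolynomial σ K) (MvPolynomial σ K),
    ψ = MvPolynomial.eval₂Hom (kHom d)
    (fun i => TrivSqZeroExt.inl (MvPolynomial.X i) + TrivSqZeroExt.inr (f i)) := ⟨_, rfl⟩
  have hC : ∀ a, ψ (MvPolynomial.C a) = kHom d a := by
    intro a
    rw [hψ, MvPolynomial.coe_eval₂Hom, MvPolynomial.eval₂_C]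
  have hX : ∀ i, ψ (MvPolynomial.X i) =
      TrivSqZeroExt.inl (MvPolynomial.X i) + TrivSqZeroExt.inr (f i) := by
    intro i
    rw [hψ, MvPolynomial.coe_eval₂Hom, MvPolynomial.eval₂_X]
  have hfst : ∀ p, (ψ p).fst = p := by
    intro p
    have h : ((TrivSqZeroExt.fstHom ℤ (MvPolynomial σ K) (MvPolynomial σ K)).toRingHom.comp ψ)
        = RingHom.id _ := by
      apply MvPolynomial.ringHom_ext
      · intro a
        show (ψ (MvPolynomial.C a)).fst = MvPolynomial.C a
        rw [hC, kHom_fst]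
      · intro i
        show (ψ (MvPolynomial.X i)).fst = MvPolynomial.X i
        rw [hX, TrivSqZeroExt.fst_add, TrivSqZeroExt.fst_inl, TrivSqZeroExt.fst_inr, add_zero]
    exact congrArg (fun g : MvPolynomial σ K →+* MvPolynomial σ K => g p) h
  let F : MvPolynomial σ K →+ MvPolynomial σ K :=
    { toFun := fun p => (ψ p).snd
      map_zero' := by rw [map_zero, TrivSqZeroExt.snd_zero]
      map_add' := by
        intro p q
        rw [map_add, TrivSqZeroExt.snd_add] }
  refine ⟨Derivation.mk' F.toIntLinearMap ?_, ?_, ?_⟩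
  · intro p q
    show (ψ (p * q)).snd = p • (ψ q).snd + q • (ψ p).snd
    rw [map_mul, TrivSqZeroExt.snd_mul, hfst, hfst]
    simp only [smul_eq_mul, MulOpposite.smul_eq_mul_unop, MulOpposite.unop_op]
    ring
  · intro a
    show (ψ (MvPolynomial.C a)).snd = _
    rw [hC, kHom_snd]
  · intro i
    show (ψ (MvPolynomial.X i)).snd = _
    rw [hX, TrivSqZeroExt.snd_add, TrivSqZeroExt.snd_inl, TrivSqZeroExt.snd_inr, zero_add]

/-- Total derivations on the ring of differential polynomials `K{u}`. -/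
theorem total_exists {K : Type*} [CommRing K] [BiDiff K] :
    ∃ D : BiDiff (MvPolynomial (ℕ × ℕ) K),
      (∀ a, D.d1 (MvPolynomial.C a) = MvPolynomial.C (d1 a)) ∧
      (∀ a, D.d2 (MvPolynomial.C a) = MvPolynomial.C (d2 a)) ∧
      (∀ i j, D.d1 (MvPolynomial.X (i, j)) = MvPolynomial.X (i + 1, j)) ∧
      (∀ i j, D.d2 (MvPolynomial.X (i, j)) = MvPolynomial.X (i, j + 1)) := by
  obtain ⟨D1, h1, h1'⟩ := exists_der (σ := ℕ × ℕ) (d1 (A := K))
    (fun p => MvPolynomial.X (p.1 + 1, p.2))
  obtain ⟨D2, h2, h2'⟩ := exists_der (σ := ℕ × ℕ) (d2 (A := K))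
    (fun p => MvPolynomial.X (p.1, p.2 + 1))
  have hcomm : ∀ a, D1 (D2 a) = D2 (D1 a) := by
    intro a
    induction a using MvPolynomial.induction_on with
    | C a => rw [h2, h1, h1, h2, BiDiff.comm]
    | add p q hp hq => rw [map_add, map_add, map_add, map_add, hp, hq]
    | mul_X p i hp =>
      rw [Derivation.leibniz, Derivation.leibniz, map_add, map_add, h1', h2']
      simp only [Derivation.leibniz, smul_eq_mul]
      rw [h1', h2', h1', h2', hp]
      ring
  exact ⟨⟨D1, D2, hcomm⟩, h1, h2, fun i j => h1' (i, j), fun i j => h2' (i, j)⟩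

end ACA

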