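import Pool.Agent.Helper601.ACA.Defs

namespace ACA

open BiDiff

/-- `d/dX` on power series. -/
noncomputable def psDer (R : Type*) [CommRing R] : PowerSeries R →+ PowerSeries R where
  toFun f := PowerSeries.mk fun n => (n + 1 : R) * PowerSeries.coeff (n + 1) f
  map_zero' := by ext; simp
  map_add' f g := by ext; simp [mul_add]

/-- Coefficientwise additive map. -/
noncomputable def psMap {R : Type*} [CommRing R] (d : R →+ R) : PowerSeries R →+ PowerSeries R where
  toFun f := PowerSeries.mk fun n => d (PowerSeries.coeff n f)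
  map_zero' := by ext; simp
  map_add' f g := by ext; simp

theorem coeff_psDer {R : Type*} [CommRing R] (f : PowerSeries R) (n : ℕ) :
    PowerSeries.coeff n (psDer R f) = (n + 1 : R) * PowerSeries.coeff (n + 1) f := by
  simp [psDer]

theorem coeff_psMap {R : Type*} [CommRing R] (d : R →+ R) (f : PowerSeries R) (n : ℕ) :
    PowerSeries.coeff n (psMap d f) = d (PowerSeries.coeff n f) := by
  simp [psMap]

theorem psDer_leib {R : Type*} [CommRing R] (f g : PowerSeries R) :
    psDer R (f * g) = f * psDer R g + g * psDer R f := by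
  have h : ∀ f : PowerSeries R, psDer R f = PowerSeries.derivative R f := by
    intro f
    ext n
    rw [coeff_psDer, PowerSeries.coeff_derivative, mul_comm]
  rw [h, h, h, Derivation.leibniz, smul_eq_mul, smul_eq_mul]

theorem psMap_leib {R : Type*} [CommRing R] (d : R →+ R)
    (h : ∀ a b, d (a * b) = a * d b + b * d a) (f g : PowerSeries R) :
    psMap d (f * g) = f * psMap d g + g * psMap d f := by
  ext n
  rw [coeff_psMap, map_add, PowerSeries.coeff_mul, PowerSeries.coeff_mul, PowerSeries.coeff_mul,
    map_sum, ← Finset.Nat.sum_antidiagonal_swap (n := n)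
      (f := fun p => PowerSeries.coeff p.1 g * PowerSeries.coeff p.2 (psMap d f)),
    ← Finset.sum_add_distrib]
  apply Finset.sum_congr rfl
  intro p _
  rw [h, coeff_psMap]
  simp only [Prod.fst_swap, Prod.snd_swap]
  rw [coeff_psMap]

theorem psDer_natmul {R : Type*} [CommRing R] (n : ℕ) (f : PowerSeries R) :
    psDer R ((n : PowerSeries R) * f) = (n : PowerSeries R) * psDer R f := by
  rw [← nsmul_eq_mul, ← nsmul_eq_mul, map_nsmul]

/-- `L[[Y]][[X]]` with `d1 = d/dX`, `d2 = d/dY`. -/
noncomputable instance instBiDiffPS (L : Type*) [CommRing L] :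
    BiDiff (PowerSeries (PowerSeries L)) where
  d1 := mkDer (psDer (PowerSeries L)) psDer_leib
  d2 := mkDer (psMap (psDer L)) (psMap_leib _ psDer_leib)
  comm := by
    intro a
    rw [mkDer_apply, mkDer_apply, mkDer_apply, mkDer_apply]
    apply PowerSeries.ext
    intro n
    rw [coeff_psDer, coeff_psMap, coeff_psMap, coeff_psDer]
    have h := psDer_natmul (n + 1) (PowerSeries.coeff (n + 1) a)
    push_cast at h
    exact h.symm

/-- The Taylor map. -/
noncomputable def tay {R L : Type*} [CommRing R] [BiDiff R] [Field L] (c : R →+* L) (x : R) :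
    PowerSeries (PowerSeries L) :=
  PowerSeries.mk fun i => PowerSeries.mk fun j =>
    ((i.factorial : L)⁻¹ * (j.factorial : L)⁻¹) *
      c ((⇑(d1 : Derivation ℤ R R))^[i] ((⇑(d2 : Derivation ℤ R R))^[j] x))

/-- one variable Taylor map -/
noncomputable def tay1 {R L S : Type*} [CommRing R] [Field L] [CommRing S] [Algebra L S]
    (D : Derivation ℤ R R) (τ : R → S) (x : R) : PowerSeries S :=
  PowerSeries.mk fun i => ((i.factorial : L)⁻¹) • τ ((⇑D)^[i] x)

section one
variable {R L S : Type*} [CommRing R] [Field L] [CommRing S] [Algebra L S]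
  (D : Derivation ℤ R R) (τ : R → S)

theorem coeff_tay1 (x : R) (i : ℕ) : PowerSeries.coeff i (tay1 (L := L) D τ x) =
    ((i.factorial : L)⁻¹) • τ ((⇑D)^[i] x) := by
  simp [tay1]

theorem iter_add (n : ℕ) (x y : R) : (⇑D)^[n] (x + y) = (⇑D)^[n] x + (⇑D)^[n] y := by
  induction n generalizing x y with
  | zero => rfl
  | succ n ih => rw [Function.iterate_succ_apply, map_add, ih]; rfl

theorem iter_one (n : ℕ) : (⇑D)^[n + 1] (1 : R) = 0 := by
  induction n with
  | zero => simp
  | succ n ih => rw [Function.iterate_succ_apply', ih, map_zero]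

theorem tay1_add (hτ : ∀ x y, τ (x + y) = τ x + τ y) (x y : R) :
    tay1 (L := L) D τ (x + y) = tay1 (L := L) D τ x + tay1 (L := L) D τ y := by
  apply PowerSeries.ext
  intro i
  rw [map_add, coeff_tay1, coeff_tay1, coeff_tay1, iter_add, hτ, smul_add]

theorem tay1_D [CharZero L] (x : R) :
    tay1 (L := L) D τ (D x) = psDer S (tay1 (L := L) D τ x) := by
  apply PowerSeries.ext
  intro i
  rw [coeff_psDer, coeff_tay1, coeff_tay1, Function.iterate_succ_apply]
  have h : ((i : S) + 1) = algebraMap L S ((i : L) + 1) := by simp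
  rw [h, ← Algebra.smul_def, smul_smul]
  congr 1
  have h1 : ((i : L) + 1) ≠ 0 := by exact_mod_cast Nat.succ_ne_zero i
  have h2 : (i.factorial : L) ≠ 0 := by exact_mod_cast Nat.factorial_ne_zero i
  rw [Nat.factorial_succ]
  push_cast
  field_simp

theorem tay1_mul [CharZero L] (hτ : ∀ x y, τ (x + y) = τ x + τ y)
    (hm : ∀ x y, τ (x * y) = τ x * τ y) (x y : R) :
    tay1 (L := L) D τ (x * y) = tay1 (L := L) D τ x * tay1 (L := L) D τ y := by
  have key : ∀ n : ℕ, ∀ x y : R, PowerSeries.coeff n (tay1 (L := L) D τ (x * y)) =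
      PowerSeries.coeff n (tay1 (L := L) D τ x * tay1 (L := L) D τ y) := by
    intro n
    induction n with
    | zero =>
      intro x y
      rw [PowerSeries.coeff_mul]
      simp [coeff_tay1, hm]
    | succ n ih =>
      intro x y
      have h1 : PowerSeries.coeff n (psDer S (tay1 (L := L) D τ (x * y))) =
          PowerSeries.coeff n (psDer S (tay1 (L := L) D τ x * tay1 (L := L) D τ y)) := by
        rw [← tay1_D, Derivation.leibniz, smul_eq_mul, smul_eq_mul, tay1_add D τ hτ, map_add,
          ih, ih, psDer_leib, map_add, tay1_D, tay1_D]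
      rw [coeff_psDer, coeff_psDer] at h1
      have h2 : ((n : S) + 1) = algebraMap L S ((n : L) + 1) := by simp
      have h3 : ((n : L) + 1) ≠ 0 := by exact_mod_cast Nat.succ_ne_zero n
      rw [h2, ← Algebra.smul_def, ← Algebra.smul_def] at h1
      have h4 := congrArg (fun s => ((n : L) + 1)⁻¹ • s) h1
      simp only [smul_smul, inv_mul_cancel₀ h3, one_smul] at h4
      exact h4
  exact PowerSeries.ext fun n => key n x y

end one

theorem iter_comm {R : Type*} [CommRing R] [BiDiff R] (i j : ℕ) (x : R) :
    (⇑(d1 : Derivation ℤ R R))^[i] ((⇑(d2 : Derivation ℤ R R))^[j] x) =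
      (⇑(d2 : Derivation ℤ R R))^[j] ((⇑(d1 : Derivation ℤ R R))^[i] x) := by
  have h : Function.Commute (⇑(d1 : Derivation ℤ R R)) (⇑(d2 : Derivation ℤ R R)) :=
    fun a => BiDiff.comm a
  exact (h.iterate_iterate i j) x

theorem tay_eq {R L : Type*} [CommRing R] [BiDiff R] [Field L] (c : R →+* L) (x : R) :
    tay c x = tay1 (L := L) (d1 : Derivation ℤ R R)
      (fun y => tay1 (L := L) (d2 : Derivation ℤ R R) c y) x := by
  apply PowerSeries.ext
  intro i
  rw [coeff_tay1]
  apply PowerSeries.ext
  intro j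
  rw [tay, PowerSeries.coeff_mk, PowerSeries.coeff_mk, PowerSeries.coeff_smul, coeff_tay1,
    iter_comm, smul_eq_mul, smul_eq_mul, mul_assoc]

theorem tay_add {R L : Type*} [CommRing R] [BiDiff R] [Field L] (c : R →+* L) (x y : R) :
    tay c (x + y) = tay c x + tay c y := by
  rw [tay_eq, tay_eq, tay_eq]
  exact tay1_add _ _ (fun a b => tay1_add _ _ (map_add c) a b) x y

theorem tay_one {R L : Type*} [CommRing R] [BiDiff R] [Field L] (c : R →+* L) :
    tay c (1 : R) = 1 := by
  apply PowerSeries.ext
  intro i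
  apply PowerSeries.ext
  intro j
  rw [tay, PowerSeries.coeff_mk, PowerSeries.coeff_mk]
  rcases j with _ | j
  · rcases i with _ | i
    · simp
    · rw [Function.iterate_zero_apply, iter_one, map_zero, mul_zero, PowerSeries.coeff_one,
        if_neg (Nat.succ_ne_zero i), map_zero]
  · rw [iter_comm]
    rcases i with _ | i
    · rw [Function.iterate_zero_apply, iter_one, map_zero, mul_zero]
      simp [PowerSeries.coeff_one]
    · rw [iter_one]
      have : (⇑(d2 : Derivation ℤ R R))^[j + 1] (0 : R) = 0 := by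
        rw [Function.iterate_succ_apply, map_zero]
        exact Function.iterate_fixed (map_zero _) j
      rw [this, map_zero, mul_zero, PowerSeries.coeff_one, if_neg (Nat.succ_ne_zero i), map_zero]

theorem tay_mul {R L : Type*} [CommRing R] [BiDiff R] [Field L] [CharZero L] (c : R →+* L)
    (x y : R) : tay c (x * y) = tay c x * tay c y := by
  rw [tay_eq, tay_eq, tay_eq]
  exact tay1_mul _ _ (fun a b => tay1_add _ _ (map_add c) a b)
    (fun a b => tay1_mul _ _ (map_add c) (map_mul c) a b) x y

theorem tay_d1 {R L : Type*} [CommRing R] [BiDiff R] [Field L] [CharZero L] (c : R →+* L)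
    (x : R) : tay c (d1 x) = d1 (tay c x) := by
  rw [tay_eq, tay_eq]
  exact tay1_D _ _ x

theorem psDer_smul {L : Type*} [Field L] (a : L) (f : PowerSeries L) :
    psDer L (a • f) = a • psDer L f := by
  ext n
  rw [coeff_psDer, PowerSeries.coeff_smul, PowerSeries.coeff_smul, coeff_psDer]
  simp only [smul_eq_mul]
  ring

theorem tay_d2 {R L : Type*} [CommRing R] [BiDiff R] [Field L] [CharZero L] (c : R →+* L)
    (x : R) : tay c (d2 x) = d2 (tay c x) := by
  rw [tay_eq, tay_eq]
  show _ = psMap (psDer L) _
  apply PowerSeries.ext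
  intro i
  rw [coeff_psMap, coeff_tay1, coeff_tay1, psDer_smul]
  congr 1
  rw [← tay1_D]
  congr 1
  have h := iter_comm i 1 x
  simpa using h

end ACA

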