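import Pool.Agent.Helper601.ACA.Defs

namespace ACA

open BiDiff

theorem frac_ext_aux (S : Type*) [CommRing S] [IsDomain S] (d : Derivation ℤ S S) :
    ∃ D : FractionRing S → FractionRing S, (∀ x y, D (x + y) = D x + D y) ∧
      (∀ x y, D (x * y) = x * D y + D x * y) ∧
      (∀ s : S, D (algebraMap S (FractionRing S) s) = algebraMap S (FractionRing S) (d s)) := by
  let F := FractionRing S
  let ι : S →+* F := algebraMap S F
  let f : S →+* TrivSqZeroExt F F :=
    { toFun := fun s => TrivSqZeroExt.inl (ι s) + TrivSqZeroExt.inr (ι (d s))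
      map_one' := by
        ext <;> simp
      map_zero' := by
        ext <;> simp
      map_add' := by
        intro a b
        ext
        · simp only [map_add, TrivSqZeroExt.fst_add, TrivSqZeroExt.fst_inl, TrivSqZeroExt.fst_inr]
          ring
        · simp only [map_add, TrivSqZeroExt.snd_add, TrivSqZeroExt.snd_inl, TrivSqZeroExt.snd_inr]
          ring
      map_mul' := by
        intro a b
        ext
        · simp only [map_mul, TrivSqZeroExt.fst_add, TrivSqZeroExt.fst_mul, TrivSqZeroExt.fst_inl,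
            TrivSqZeroExt.fst_inr]
          ring
        · simp only [map_mul, TrivSqZeroExt.snd_add, TrivSqZeroExt.snd_mul, TrivSqZeroExt.snd_inl,
            TrivSqZeroExt.snd_inr, TrivSqZeroExt.fst_add, TrivSqZeroExt.fst_inl,
            TrivSqZeroExt.fst_inr, d.leibniz, map_add, smul_eq_mul, MulOpposite.smul_eq_mul_unop,
            MulOpposite.unop_op]
          ring }
  have hf : ∀ s, f s = TrivSqZeroExt.inl (ι s) + TrivSqZeroExt.inr (ι (d s)) := fun _ => rfl
  have hunit : ∀ y : nonZeroDivisors S, IsUnit (f y) := by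
    intro y
    rw [TrivSqZeroExt.isUnit_iff_isUnit_fst, hf]
    simp only [TrivSqZeroExt.fst_add, TrivSqZeroExt.fst_inl, TrivSqZeroExt.fst_inr, add_zero]
    exact IsLocalization.map_units F y
  let g : F →+* TrivSqZeroExt F F := IsLocalization.lift (M := nonZeroDivisors S) hunit
  have hg : ∀ s, g (ι s) = f s := fun s => IsLocalization.lift_eq hunit s
  have hfst : ∀ x, (g x).fst = x := by
    have : ((TrivSqZeroExt.fstHom F F F).toRingHom).comp g = RingHom.id F := by
      apply IsLocalization.ringHom_ext (nonZeroDivisors S)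
      ext s
      show (g (ι s)).fst = ι s
      rw [hg, hf]
      simp
    intro x
    exact DFunLike.congr_fun this x
  refine ⟨fun x => (g x).snd, ?_, ?_, ?_⟩
  · intro x y
    simp only [map_add, TrivSqZeroExt.snd_add]
  · intro x y
    simp only [map_mul, TrivSqZeroExt.snd_mul, hfst]
    simp [mul_comm]
  · intro s
    show (g (ι s)).snd = _
    rw [hg, hf]
    simp
    rfl

theorem frac_unique_aux (S : Type*) [CommRing S] [IsDomain S]
    (D D' : FractionRing S → FractionRing S)
    (h2 : ∀ x y, D (x * y) = x * D y + D x * y)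
    (h2' : ∀ x y, D' (x * y) = x * D' y + D' x * y)
    (h : ∀ s : S, D (algebraMap S (FractionRing S) s) = D' (algebraMap S (FractionRing S) s)) :
    ∀ x, D x = D' x := by
  intro x
  obtain ⟨a, b, hb, rfl⟩ := IsFractionRing.div_surjective (A := S) x
  set ι := algebraMap S (FractionRing S) with hι
  have hb0 : ι b ≠ 0 := by
    rw [hι]
    simpa using nonZeroDivisors.ne_zero hb
  have e1 := h2 (ι b) (ι a / ι b)
  have e2 := h2' (ι b) (ι a / ι b)
  have e3 : ι b * (ι a / ι b) = ι a := by field_simp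
  rw [e3, h a, h b] at e1
  rw [e3] at e2
  have e4 : ι b * D (ι a / ι b) = ι b * D' (ι a / ι b) := by
    linear_combination e2 - e1
  exact mul_left_cancel₀ hb0 e4

theorem mk_bidiff_aux (A : Type*) [CommRing A] (D1 D2 : A → A)
    (a1 : ∀ x y, D1 (x + y) = D1 x + D1 y) (m1 : ∀ x y, D1 (x * y) = x * D1 y + D1 x * y)
    (a2 : ∀ x y, D2 (x + y) = D2 x + D2 y) (m2 : ∀ x y, D2 (x * y) = x * D2 y + D2 x * y)
    (hcomm : ∀ x, D1 (D2 x) = D2 (D1 x)) :
    ∃ i : BiDiff A, (∀ x, i.d1 x = D1 x) ∧ (∀ x, i.d2 x = D2 x) := by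
  have z1 : D1 0 = 0 := by have := a1 0 0; simpa using this
  have z2 : D2 0 = 0 := by have := a2 0 0; simpa using this
  let f1 : A →+ A := ⟨⟨D1, z1⟩, a1⟩
  let f2 : A →+ A := ⟨⟨D2, z2⟩, a2⟩
  let E1 : Derivation ℤ A A :=
    Derivation.mk' f1.toIntLinearMap (by
      intro a b
      show D1 (a * b) = a • D1 b + b • D1 a
      rw [m1, smul_eq_mul, smul_eq_mul, mul_comm b])
  let E2 : Derivation ℤ A A :=
    Derivation.mk' f2.toIntLinearMap (by
      intro a b
      show D2 (a * b) = a • D2 b + b • D2 a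
      rw [m2, smul_eq_mul, smul_eq_mul, mul_comm b])
  exact ⟨⟨E1, E2, hcomm⟩, fun _ => rfl, fun _ => rfl⟩

/-- Commuting derivations extend to the field of fractions. -/
theorem bidiff_frac (S : Type*) [CommRing S] [IsDomain S] [BiDiff S] :
    ∃ i : BiDiff (FractionRing S),
      (∀ s : S, i.d1 (algebraMap S (FractionRing S) s) = algebraMap S (FractionRing S) (d1 s)) ∧
      (∀ s : S, i.d2 (algebraMap S (FractionRing S) s) = algebraMap S (FractionRing S) (d2 s)) := by
  obtain ⟨D1, a1, m1, e1⟩ := frac_ext_aux S (d1 : Derivation ℤ S S)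
  obtain ⟨D2, a2, m2, e2⟩ := frac_ext_aux S (d2 : Derivation ℤ S S)
  have hcomm : ∀ x, D1 (D2 x) - D2 (D1 x) = 0 := by
    refine frac_unique_aux S (fun x => D1 (D2 x) - D2 (D1 x)) (fun _ => 0) ?_ ?_ ?_
    · intro x y
      simp only [m1, m2, a1, a2]
      ring
    · intro x y; simp
    · intro s
      simp only [e1, e2]
      rw [BiDiff.comm, sub_self]
  obtain ⟨i, h1, h2⟩ := mk_bidiff_aux (FractionRing S) D1 D2 a1 m1 a2 m2
    (fun x => sub_eq_zero.1 (hcomm x))
  exact ⟨i, fun s => (h1 _).trans (e1 s), fun s => (h2 _).trans (e2 s)⟩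

end ACA

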