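import Pool.Agent.Helper601.ACA.C5

namespace ACA

open BiDiff

/- GIVEN (proved elsewhere), keep as axiom. -/
section aux
open MvPolynomial

variable {K : Type} [Field K]

theorem D_supported (D : Derivation ℤ (MvPolynomial (ℕ × ℕ) K) (MvPolynomial (ℕ × ℕ) K))
    (s : ℕ × ℕ → ℕ × ℕ)
    (hC : ∀ a, D (C a) ∈ Set.range (C : K → MvPolynomial (ℕ × ℕ) K))
    (hX : ∀ ψ, D (X ψ) = X (s ψ))
    {T T' : Set (ℕ × ℕ)} (hT : T ⊆ T') (hs : ∀ ψ ∈ T, s ψ ∈ T')
    (P : MvPolynomial (ℕ × ℕ) K) (hP : P ∈ supported K T) : D P ∈ supported K T' := by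
  rw [supported_eq_adjoin_X] at hP
  induction hP using Algebra.adjoin_induction with
  | mem x hx =>
    obtain ⟨ψ, hψ, rfl⟩ := hx
    rw [hX]
    exact (X_mem_supported (R := K)).2 (hs ψ hψ)
  | algebraMap r =>
    obtain ⟨b, hb⟩ := hC r
    rw [algebraMap_eq, ← hb]
    exact (supported K T').algebraMap_mem b
  | add x y hx hy ihx ihy =>
    rw [map_add]; exact add_mem ihx ihy
  | mul x y hx hy ihx ihy =>
    rw [← supported_eq_adjoin_X] at hx hy
    rw [D.leibniz, smul_eq_mul, smul_eq_mul]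
    exact add_mem (mul_mem (supported_mono hT hx) ihy) (mul_mem (supported_mono hT hy) ihx)

theorem D_top (D : Derivation ℤ (MvPolynomial (ℕ × ℕ) K) (MvPolynomial (ℕ × ℕ) K))
    (s : ℕ × ℕ → ℕ × ℕ)
    (hC : ∀ a, D (C a) ∈ Set.range (C : K → MvPolynomial (ℕ × ℕ) K))
    (hX : ∀ ψ, D (X ψ) = X (s ψ))
    (θ : ℕ × ℕ) {T T' : Set (ℕ × ℕ)} (hT : T ⊆ T') (hs : ∀ ψ ∈ T, ψ ≠ θ → s ψ ∈ T')
    (P : MvPolynomial (ℕ × ℕ) K) (hP : P ∈ supported K T) :
    D P - pderiv θ P * X (s θ) ∈ supported K T' := by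
  rw [supported_eq_adjoin_X] at hP
  induction hP using Algebra.adjoin_induction with
  | mem x hx =>
    obtain ⟨ψ, hψ, rfl⟩ := hx
    rw [hX]
    by_cases h : ψ = θ
    · subst h
      simp
    · rw [pderiv_X_of_ne h, zero_mul, sub_zero]
      exact (X_mem_supported (R := K)).2 (hs ψ hψ h)
  | algebraMap r =>
    obtain ⟨b, hb⟩ := hC r
    rw [algebraMap_eq, ← hb, pderiv_C, zero_mul, sub_zero]
    exact (supported K T').algebraMap_mem b
  | add x y hx hy ihx ihy =>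
    have : D (x + y) - pderiv θ (x + y) * X (s θ) =
      (D x - pderiv θ x * X (s θ)) + (D y - pderiv θ y * X (s θ)) := by
      rw [map_add, map_add]; ring
    rw [this]; exact add_mem ihx ihy
  | mul x y hx hy ihx ihy =>
    rw [← supported_eq_adjoin_X] at hx hy
    have : D (x * y) - pderiv θ (x * y) * X (s θ) =
      x * (D y - pderiv θ y * X (s θ)) + y * (D x - pderiv θ x * X (s θ)) := by
      rw [D.leibniz, pderiv_mul, smul_eq_mul, smul_eq_mul]; ring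
    rw [this]
    exact add_mem (mul_mem (supported_mono hT hx) ihy) (mul_mem (supported_mono hT hy) ihx)


theorem aeval_congr_supported {L : Type} [CommRing L] [Algebra K L] {T : Set (ℕ × ℕ)}
    (f g : ℕ × ℕ → L) (h : ∀ ψ ∈ T, f ψ = g ψ) (P : MvPolynomial (ℕ × ℕ) K)
    (hP : P ∈ supported K T) : aeval f P = aeval g P := by
  rw [supported_eq_adjoin_X] at hP
  induction hP using Algebra.adjoin_induction with
  | mem x hx =>
    obtain ⟨ψ, hψ, rfl⟩ := hx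
    simp [h ψ hψ]
  | algebraMap r => simp
  | add x y hx hy ihx ihy => rw [map_add, map_add, ihx, ihy]
  | mul x y hx hy ihx ihy => rw [map_mul, map_mul, ihx, ihy]

/-- variables below `χ` -/
def Low (χ : ℕ × ℕ) : Set (ℕ × ℕ) := {ψ | toLex ψ < toLex χ}
/-- variables at most `θ` -/
def LowE (θ : ℕ × ℕ) : Set (ℕ × ℕ) := {ψ | toLex ψ ≤ toLex θ}

/-- shape of the derivatives -/
def Form (θ χ : ℕ × ℕ) (S P : MvPolynomial (ℕ × ℕ) K) : Prop :=
  toLex θ < toLex χ ∧ ∃ H ∈ supported K (Low χ), P = S * X χ + H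

theorem form_zero (D : Derivation ℤ (MvPolynomial (ℕ × ℕ) K) (MvPolynomial (ℕ × ℕ) K))
    (s : ℕ × ℕ → ℕ × ℕ)
    (hC : ∀ a, D (C a) ∈ Set.range (C : K → MvPolynomial (ℕ × ℕ) K))
    (hX : ∀ ψ, D (X ψ) = X (s ψ))
    (hmono : ∀ ψ χ : ℕ × ℕ, toLex ψ < toLex χ → toLex (s ψ) < toLex (s χ))
    (hinc : ∀ ψ : ℕ × ℕ, toLex ψ < toLex (s ψ))
    (θ : ℕ × ℕ) (G : MvPolynomial (ℕ × ℕ) K) (hG : G ∈ supported K (LowE θ)) :
    Form θ (s θ) (pderiv θ G) (D G) := by
  refine ⟨hinc θ, D G - pderiv θ G * X (s θ), ?_, by ring⟩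
  apply D_top D s hC hX θ (T := LowE θ) _ _ G hG
  · intro ψ hψ
    exact lt_of_le_of_lt hψ (hinc θ)
  · intro ψ hψ hne
    have : toLex ψ < toLex θ := lt_of_le_of_ne hψ (fun h => hne (toLex_inj.1 h))
    exact hmono _ _ this

theorem form_succ (D : Derivation ℤ (MvPolynomial (ℕ × ℕ) K) (MvPolynomial (ℕ × ℕ) K))
    (s : ℕ × ℕ → ℕ × ℕ)
    (hC : ∀ a, D (C a) ∈ Set.range (C : K → MvPolynomial (ℕ × ℕ) K))
    (hX : ∀ ψ, D (X ψ) = X (s ψ))
    (hmono : ∀ ψ χ : ℕ × ℕ, toLex ψ < toLex χ → toLex (s ψ) < toLex (s χ))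
    (hinc : ∀ ψ : ℕ × ℕ, toLex ψ < toLex (s ψ))
    (θ χ : ℕ × ℕ) (S P : MvPolynomial (ℕ × ℕ) K) (hS : S ∈ supported K (LowE θ))
    (h : Form θ χ S P) : Form θ (s χ) S (D P) := by
  obtain ⟨hlt, H, hH, rfl⟩ := h
  refine ⟨hlt.trans (hinc χ), X χ * D S + D H, ?_, ?_⟩
  · apply add_mem
    · apply mul_mem
      · exact (X_mem_supported (R := K)).2 (hinc χ)
      · apply D_supported D s hC hX (T := LowE θ) _ _ S hS
        · intro ψ hψ
          exact lt_of_le_of_lt hψ (hlt.trans (hinc χ))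
        · intro ψ hψ
          exact hmono _ _ (lt_of_le_of_lt hψ hlt)
    · apply D_supported D s hC hX (T := Low χ) _ _ H hH
      · intro ψ hψ
        exact lt_trans hψ (hinc χ)
      · intro ψ hψ
        exact hmono _ _ hψ
  · rw [map_add, D.leibniz, hX, smul_eq_mul, smul_eq_mul]; ring


theorem pderiv_supported (θ : ℕ × ℕ) {T : Set (ℕ × ℕ)} (P : MvPolynomial (ℕ × ℕ) K)
    (hP : P ∈ supported K T) : pderiv θ P ∈ supported K T := by
  rw [supported_eq_adjoin_X] at hP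
  induction hP using Algebra.adjoin_induction with
  | mem x hx =>
    obtain ⟨ψ, hψ, rfl⟩ := hx
    by_cases h : ψ = θ
    · subst h
      simp [one_mem]
    · rw [pderiv_X_of_ne h]; exact zero_mem _
  | algebraMap r => rw [algebraMap_eq, pderiv_C]; exact zero_mem _
  | add x y hx hy ihx ihy => rw [map_add]; exact add_mem ihx ihy
  | mul x y hx hy ihx ihy =>
    rw [← supported_eq_adjoin_X] at hx hy
    rw [pderiv_mul]
    exact add_mem (mul_mem ihx hy) (mul_mem hx ihy)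

theorem form_all (D : BiDiff (MvPolynomial (ℕ × ℕ) K))
    (h1C : ∀ a, D.d1 (C a) ∈ Set.range (C : K → MvPolynomial (ℕ × ℕ) K))
    (h2C : ∀ a, D.d2 (C a) ∈ Set.range (C : K → MvPolynomial (ℕ × ℕ) K))
    (h1X : ∀ i j, D.d1 (MvPolynomial.X (i, j)) = MvPolynomial.X (i + 1, j))
    (h2X : ∀ i j, D.d2 (MvPolynomial.X (i, j)) = MvPolynomial.X (i, j + 1))
    (θ : ℕ × ℕ) (G : MvPolynomial (ℕ × ℕ) K) (hG : G ∈ supported K (LowE θ))
    (hS : pderiv θ G ∈ supported K (LowE θ)) (i j : ℕ) (hij : (i, j) ≠ (0, 0)) :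
    Form θ (θ.1 + i, θ.2 + j) (pderiv θ G) ((⇑D.d1)^[i] ((⇑D.d2)^[j] G)) := by
  have m1 : ∀ ψ χ : ℕ × ℕ, toLex ψ < toLex χ →
      toLex ((fun p : ℕ × ℕ => (p.1 + 1, p.2)) ψ) < toLex ((fun p : ℕ × ℕ => (p.1 + 1, p.2)) χ) := by
    intro ψ χ h
    rw [Prod.Lex.toLex_lt_toLex] at h ⊢
    simp only
    omega
  have m2 : ∀ ψ χ : ℕ × ℕ, toLex ψ < toLex χ →
      toLex ((fun p : ℕ × ℕ => (p.1, p.2 + 1)) ψ) < toLex ((fun p : ℕ × ℕ => (p.1, p.2 + 1)) χ) := by
    intro ψ χ h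
    rw [Prod.Lex.toLex_lt_toLex] at h ⊢
    simp only
    omega
  have i1 : ∀ ψ : ℕ × ℕ, toLex ψ < toLex ((fun p : ℕ × ℕ => (p.1 + 1, p.2)) ψ) := by
    intro ψ
    rw [Prod.Lex.toLex_lt_toLex]
    exact Or.inl (Nat.lt_succ_self _)
  have i2 : ∀ ψ : ℕ × ℕ, toLex ψ < toLex ((fun p : ℕ × ℕ => (p.1, p.2 + 1)) ψ) := by
    intro ψ
    rw [Prod.Lex.toLex_lt_toLex]
    exact Or.inr ⟨rfl, Nat.lt_succ_self _⟩
  have x1 : ∀ ψ : ℕ × ℕ, D.d1 (X ψ) = X ((fun p : ℕ × ℕ => (p.1 + 1, p.2)) ψ) := fun ψ => h1X ψ.1 ψ.2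
  have x2 : ∀ ψ : ℕ × ℕ, D.d2 (X ψ) = X ((fun p : ℕ × ℕ => (p.1, p.2 + 1)) ψ) := fun ψ => h2X ψ.1 ψ.2
  have key2 : ∀ j : ℕ, j ≠ 0 → Form θ (θ.1, θ.2 + j) (pderiv θ G) ((⇑D.d2)^[j] G) := by
    intro j hj
    induction j with
    | zero => exact absurd rfl hj
    | succ j ih =>
      rw [Function.iterate_succ_apply']
      by_cases h0 : j = 0
      · subst h0
        exact form_zero D.d2 _ h2C x2 m2 i2 θ G hG
      · exact form_succ D.d2 _ h2C x2 m2 i2 θ _ _ _ hS (ih h0)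
  induction i with
  | zero =>
    have hj : j ≠ 0 := fun h => hij (by rw [h])
    simpa using key2 j hj
  | succ i ih =>
    rw [Function.iterate_succ_apply']
    by_cases h0 : (i, j) = (0, 0)
    · have hi : i = 0 := congrArg Prod.fst h0
      have hj : j = 0 := congrArg Prod.snd h0
      subst hi; subst hj
      exact form_zero D.d1 _ h1C x1 m1 i1 θ G hG
    · exact form_succ D.d1 _ h1C x1 m1 i1 θ _ _ _ hS (ih h0)

/-- irreducible case -/
theorem point_irred [CharZero K] (D : BiDiff (MvPolynomial (ℕ × ℕ) K))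
    (h1C : ∀ a, D.d1 (C a) ∈ Set.range (C : K → MvPolynomial (ℕ × ℕ) K))
    (h2C : ∀ a, D.d2 (C a) ∈ Set.range (C : K → MvPolynomial (ℕ × ℕ) K))
    (h1X : ∀ i j, D.d1 (MvPolynomial.X (i, j)) = MvPolynomial.X (i + 1, j))
    (h2X : ∀ i j, D.d2 (MvPolynomial.X (i, j)) = MvPolynomial.X (i, j + 1))
    (G : MvPolynomial (ℕ × ℕ) K) (hirr : Irreducible G) :
    ∃ c : ℕ × ℕ → AlgebraicClosure K,
      ∀ i j : ℕ, aeval c ((⇑D.d1)^[i] ((⇑D.d2)^[j] G)) = 0 := by
  classical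
  have hne : G.vars.Nonempty := by
    by_contra h
    rw [Finset.not_nonempty_iff_eq_empty, vars_eq_empty_iff_eq_C] at h
    have h' : G = C (coeff 0 G) := h
    by_cases h0 : coeff 0 G = 0
    · rw [h0, C_0] at h'
      exact hirr.ne_zero h'
    · apply hirr.not_isUnit
      rw [h']
      exact (IsUnit.mk0 _ h0).map C
  obtain ⟨θ, hθ, hmax⟩ := G.vars.exists_max_image (fun p => toLex p) hne
  obtain ⟨c0, hc0, hs0⟩ := nonsing G hirr θ hθ
  have hG : G ∈ supported K (LowE θ) := by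
    rw [mem_supported]
    intro ψ hψ
    exact hmax ψ hψ
  have hS : pderiv θ G ∈ supported K (LowE θ) := pderiv_supported θ G hG
  have hform := form_all D h1C h2C h1X h2X θ G hG hS
  -- the remainders
  have hH : ∀ χ : ℕ × ℕ, ∃ H ∈ supported K (Low χ), (θ.1 ≤ χ.1 ∧ θ.2 ≤ χ.2 ∧ χ ≠ θ) →
      (⇑D.d1)^[χ.1 - θ.1] ((⇑D.d2)^[χ.2 - θ.2] G) = pderiv θ G * X χ + H := by
    intro χ
    by_cases h : θ.1 ≤ χ.1 ∧ θ.2 ≤ χ.2 ∧ χ ≠ θ
    · obtain ⟨a, b, hc⟩ := h
      have hne' : (χ.1 - θ.1, χ.2 - θ.2) ≠ (0, 0) := by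
        intro h
        have h1 : χ.1 - θ.1 = 0 := congrArg Prod.fst h
        have h2 : χ.2 - θ.2 = 0 := congrArg Prod.snd h
        apply hc
        ext <;> omega
      obtain ⟨-, H, hH, e⟩ := hform (χ.1 - θ.1) (χ.2 - θ.2) hne'
      have e1 : θ.1 + (χ.1 - θ.1) = χ.1 := by omega
      have e2 : θ.2 + (χ.2 - θ.2) = χ.2 := by omega
      rw [e1, e2] at hH e
      exact ⟨H, hH, fun _ => e⟩
    · exact ⟨0, zero_mem _, fun h' => absurd h' h⟩
  choose H hHs hHe using hH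
  let wf : WellFounded (fun a b : ℕ × ℕ => toLex a < toLex b) :=
    InvImage.wf (fun p : ℕ × ℕ => toLex p) wellFounded_lt
  let c : ℕ × ℕ → AlgebraicClosure K := wf.fix (fun χ rec =>
    if θ.1 ≤ χ.1 ∧ θ.2 ≤ χ.2 ∧ χ ≠ θ then
      - (aeval (fun ψ => if h : toLex ψ < toLex χ then rec ψ h else 0) (H χ)) /
        aeval c0 (pderiv θ G)
    else c0 χ)
  have hc : ∀ χ, c χ = if θ.1 ≤ χ.1 ∧ θ.2 ≤ χ.2 ∧ χ ≠ θ then
      - (aeval (fun ψ => if toLex ψ < toLex χ then c ψ else 0) (H χ)) /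
        aeval c0 (pderiv θ G)
    else c0 χ := by
    intro χ
    have := wf.fix_eq (fun χ rec =>
      if θ.1 ≤ χ.1 ∧ θ.2 ≤ χ.2 ∧ χ ≠ θ then
        - (aeval (fun ψ => if h : toLex ψ < toLex χ then rec ψ h else 0) (H χ)) /
          aeval c0 (pderiv θ G)
      else c0 χ) χ
    simpa only [dite_eq_ite] using this
  have hlow : ∀ ψ ∈ LowE θ, c ψ = c0 ψ := by
    intro ψ hψ
    rw [hc, if_neg]
    rintro ⟨a, b, hne⟩
    have hψ' : toLex ψ ≤ toLex θ := hψ
    have hlt : toLex ψ < toLex θ := lt_of_le_of_ne hψ' (fun h => hne (toLex_inj.1 h))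
    rw [Prod.Lex.toLex_lt_toLex] at hlt
    omega
  refine ⟨c, fun i j => ?_⟩
  by_cases h0 : (i, j) = (0, 0)
  · have hi : i = 0 := congrArg Prod.fst h0
    have hj : j = 0 := congrArg Prod.snd h0
    subst hi; subst hj
    simp only [Function.iterate_zero, id]
    rw [aeval_congr_supported c c0 hlow G hG, hc0]
  · have hT : θ.1 ≤ (θ.1 + i, θ.2 + j).1 ∧ θ.2 ≤ (θ.1 + i, θ.2 + j).2 ∧ (θ.1 + i, θ.2 + j) ≠ θ := by
      refine ⟨by simp, by simp, ?_⟩
      intro h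
      have h1 : θ.1 + i = θ.1 := congrArg Prod.fst h
      have h2 : θ.2 + j = θ.2 := congrArg Prod.snd h
      apply h0
      ext <;> simp <;> omega
    have e := hHe _ hT
    simp only [Nat.add_sub_cancel_left] at e
    rw [e, map_add, map_mul, aeval_X, aeval_congr_supported c c0 hlow _ hS]
    have e2 := hc (θ.1 + i, θ.2 + j)
    rw [if_pos hT] at e2
    rw [e2, aeval_congr_supported (fun ψ => if toLex ψ < toLex (θ.1 + i, θ.2 + j) then c ψ else 0) c
      (fun ψ hψ => if_pos hψ) _ (hHs _)]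
    field_simp
    ring

end aux

/-- A point at which all derivatives of `G` vanish. -/
theorem point_exists {K : Type} [Field K] [CharZero K] [BiDiff K]
    (D : BiDiff (MvPolynomial (ℕ × ℕ) K))
    (h1C : ∀ a, D.d1 (MvPolynomial.C a) = MvPolynomial.C (d1 a))
    (h2C : ∀ a, D.d2 (MvPolynomial.C a) = MvPolynomial.C (d2 a))
    (h1X : ∀ i j, D.d1 (MvPolynomial.X (i, j)) = MvPolynomial.X (i + 1, j))
    (h2X : ∀ i j, D.d2 (MvPolynomial.X (i, j)) = MvPolynomial.X (i, j + 1))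
    (G : MvPolynomial (ℕ × ℕ) K) (hG : G ∉ Set.range MvPolynomial.C) :
    ∃ c : MvPolynomial (ℕ × ℕ) K →+* AlgebraicClosure K,
      (∀ a, c (MvPolynomial.C a) = algebraMap K (AlgebraicClosure K) a) ∧
      ∀ i j : ℕ, c ((⇑D.d1)^[i] ((⇑D.d2)^[j] G)) = 0 := by
  have hnu : ¬ IsUnit G := by
    intro h
    obtain ⟨r, -, e⟩ := MvPolynomial.isUnit_iff_eq_C_of_isReduced.1 h
    exact hG ⟨r, e.symm⟩
  have hn0 : G ≠ 0 := by
    rintro rfl
    exact hG ⟨0, map_zero _⟩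
  obtain ⟨F, hF, Q, rfl⟩ := WfDvdMonoid.exists_irreducible_factor hnu hn0
  obtain ⟨c, hc⟩ := point_irred D (fun a => ⟨_, (h1C a).symm⟩) (fun a => ⟨_, (h2C a).symm⟩)
    h1X h2X F hF
  refine ⟨(MvPolynomial.aeval c : MvPolynomial (ℕ × ℕ) K →ₐ[K] AlgebraicClosure K).toRingHom, fun a => ?_, ?_⟩
  · simp
  · have hcomm : Function.Commute (⇑D.d1) (⇑D.d2) := fun x => D.comm x
    have key : ∀ n : ℕ, ∀ i j : ℕ, i + j = n → ∀ x y : MvPolynomial (ℕ × ℕ) K,
        (∀ i j, MvPolynomial.aeval c ((⇑D.d1)^[i] ((⇑D.d2)^[j] x)) = 0) →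
        MvPolynomial.aeval c ((⇑D.d1)^[i] ((⇑D.d2)^[j] (x * y))) = 0 := by
      intro n
      induction n with
      | zero =>
        intro i j hij x y hx
        have hi : i = 0 := by omega
        have hj : j = 0 := by omega
        subst hi; subst hj
        have := hx 0 0
        simp only [Function.iterate_zero, id] at this ⊢
        rw [map_mul, this, zero_mul]
      | succ n ih =>
        intro i j hij x y hx
        have hx2 : ∀ i j, MvPolynomial.aeval c ((⇑D.d1)^[i] ((⇑D.d2)^[j] (D.d2 x))) = 0 := by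
          intro i j
          rw [← Function.iterate_succ_apply]
          exact hx i (j + 1)
        have hx1 : ∀ i j, MvPolynomial.aeval c ((⇑D.d1)^[i] ((⇑D.d2)^[j] (D.d1 x))) = 0 := by
          intro i j
          have : (⇑D.d2)^[j] (D.d1 x) = D.d1 ((⇑D.d2)^[j] x) := ((hcomm.iterate_right j) x).symm
          rw [this, ← Function.iterate_succ_apply]
          exact hx (i + 1) j
        have iadd1 : ∀ i (u v : MvPolynomial (ℕ × ℕ) K), (⇑D.d1)^[i] (u + v) = (⇑D.d1)^[i] u + (⇑D.d1)^[i] v := by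
          intro i u v
          exact iterate_map_add D.d1 i u v
        have iadd2 : ∀ i (u v : MvPolynomial (ℕ × ℕ) K), (⇑D.d2)^[i] (u + v) = (⇑D.d2)^[i] u + (⇑D.d2)^[i] v := by
          intro i u v
          exact iterate_map_add D.d2 i u v
        rcases Nat.eq_zero_or_pos j with h | h
        · subst h
          obtain ⟨i', rfl⟩ : ∃ i', i = i' + 1 := ⟨i - 1, by omega⟩
          simp only [Function.iterate_zero, id]
          rw [Function.iterate_succ_apply, D.d1.leibniz, iadd1, map_add, smul_eq_mul, smul_eq_mul,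
            mul_comm y]
          have a1 := ih i' 0 (by omega) x (D.d1 y) hx
          have a2 := ih i' 0 (by omega) (D.d1 x) y hx1
          simp only [Function.iterate_zero, id] at a1 a2
          rw [a1, a2, add_zero]
        · obtain ⟨j', rfl⟩ : ∃ j', j = j' + 1 := ⟨j - 1, by omega⟩
          rw [Function.iterate_succ_apply, D.d2.leibniz, iadd2, iadd1, map_add, smul_eq_mul,
            smul_eq_mul, mul_comm y]
          rw [ih i j' (by omega) x (D.d2 y) hx, ih i j' (by omega) (D.d2 x) y hx2, add_zero]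
    intro i j
    exact key (i + j) i j rfl F Q hc

end ACA

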