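import Pool.Agent.Helper601.ACA.Defs

namespace ACA

theorem not_dvd_pderiv {K : Type} [Field K] [CharZero K] {σ : Type} (G : MvPolynomial σ K)
    (θ : σ) (hθ : θ ∈ G.vars) : ¬ G ∣ MvPolynomial.pderiv θ G := by
  classical
  have hG0 : G ≠ 0 := by
    rintro rfl
    simp at hθ
  obtain ⟨d, hd, hdθ⟩ := (MvPolynomial.mem_vars_iff_mem_support θ).mp hθ
  have hdθ' : d θ ≠ 0 := Finsupp.mem_support_iff.mp hdθ
  have hS : MvPolynomial.pderiv θ G ≠ 0 := by
    intro h0
    have h1 := MvPolynomial.coeff_pderiv (i := θ) G (d - Finsupp.single θ 1)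
    rw [h0, MvPolynomial.coeff_zero] at h1
    have h2 : d - Finsupp.single θ 1 + Finsupp.single θ 1 = d := by
      apply tsub_add_cancel_of_le
      rw [Finsupp.single_le_iff]
      omega
    rw [h2] at h1
    rcases mul_eq_zero.mp h1.symm with h | h
    · exact (MvPolynomial.mem_support_iff.mp hd) h
    · exact (Nat.cast_add_one_ne_zero _) h
  rintro ⟨Q, hQ⟩
  have hQ0 : Q ≠ 0 := by
    rintro rfl
    rw [mul_zero] at hQ
    exact hS hQ
  have h1 : MvPolynomial.degreeOf θ (MvPolynomial.pderiv θ G) =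
      MvPolynomial.degreeOf θ G + MvPolynomial.degreeOf θ Q := by
    rw [hQ, MvPolynomial.degreeOf_mul_eq hG0 hQ0]
  have hpos : 0 < MvPolynomial.degreeOf θ G :=
    Nat.pos_of_ne_zero (MvPolynomial.mem_vars_iff_degreeOf_ne_zero.mp hθ)
  have h2 : MvPolynomial.degreeOf θ (MvPolynomial.pderiv θ G) < MvPolynomial.degreeOf θ G := by
    rw [MvPolynomial.degreeOf_lt_iff hpos]
    intro m hm
    rw [MvPolynomial.mem_support_iff, MvPolynomial.coeff_pderiv] at hm
    have h3 : MvPolynomial.coeff (m + Finsupp.single θ 1) G ≠ 0 := left_ne_zero_of_mul hm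
    have h4 := MvPolynomial.monomial_le_degreeOf θ (MvPolynomial.mem_support_iff.mpr h3)
    rw [Finsupp.add_apply, Finsupp.single_eq_same] at h4
    omega
  omega

theorem nonsing_fin {K : Type} [Field K] [CharZero K] {σ : Type} [Finite σ]
    (G : MvPolynomial σ K) (hirr : Irreducible G) (θ : σ) (hθ : θ ∈ G.vars) :
    ∃ c : σ → AlgebraicClosure K, MvPolynomial.aeval c G = 0 ∧
      MvPolynomial.aeval c (MvPolynomial.pderiv θ G) ≠ 0 := by
  by_contra hcon
  push Not at hcon
  have hprime : (Ideal.span {G}).IsPrime := by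
    rw [Ideal.span_singleton_prime hirr.ne_zero]
    exact hirr.prime
  have h1 := MvPolynomial.IsPrime.vanishingIdeal_zeroLocus (K := AlgebraicClosure K)
    (Ideal.span {G})
  have h2 : MvPolynomial.pderiv θ G ∈ Ideal.span {G} := by
    rw [← h1, MvPolynomial.mem_vanishingIdeal_iff]
    intro x hx
    apply hcon
    exact (MvPolynomial.mem_zeroLocus_iff.mp hx) G (Ideal.mem_span_singleton_self G)
  exact not_dvd_pderiv G θ hθ (Ideal.mem_span_singleton.mp h2)

/-- An irreducible polynomial in characteristic zero has a nonsingular zero over the algebraic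
closure. -/
theorem nonsing {K : Type} [Field K] [CharZero K] {σ : Type} (G : MvPolynomial σ K)
    (hirr : Irreducible G) (θ : σ) (hθ : θ ∈ G.vars) :
    ∃ c : σ → AlgebraicClosure K, MvPolynomial.aeval c G = 0 ∧
      MvPolynomial.aeval c (MvPolynomial.pderiv θ G) ≠ 0 := by
  classical
  let f : {x // x ∈ G.vars} → σ := Subtype.val
  have hf : Function.Injective f := Subtype.val_injective
  obtain ⟨G0, hG0⟩ := MvPolynomial.exists_rename_eq_of_vars_subset_range G f hf
    (by intro x hx; exact ⟨⟨x, hx⟩, rfl⟩)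
  have hirr0 : Irreducible G0 := by
    constructor
    · intro hu
      apply hirr.not_isUnit
      rw [← hG0]
      exact hu.map _
    · intro a b hab
      have h1 : G = MvPolynomial.rename f a * MvPolynomial.rename f b :=
        hG0.symm.trans (by rw [hab, map_mul])
      have hu : ∀ p : MvPolynomial {x // x ∈ G.vars} K,
          IsUnit (MvPolynomial.rename f p) → IsUnit p := by
        intro p hp
        have := hp.map (MvPolynomial.killCompl hf)
        rwa [MvPolynomial.killCompl_rename_app] at this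
      rcases hirr.isUnit_or_isUnit h1 with h | h
      · exact Or.inl (hu _ h)
      · exact Or.inr (hu _ h)
  have hθ0 : (⟨θ, hθ⟩ : {x // x ∈ G.vars}) ∈ G0.vars := by
    have h1 : θ ∈ (MvPolynomial.rename f G0).vars := by rw [hG0]; exact hθ
    obtain ⟨i, hi, hi'⟩ := MvPolynomial.mem_vars_rename f G0 h1
    have : i = ⟨θ, hθ⟩ := Subtype.ext hi'
    rw [← this]; exact hi
  obtain ⟨c0, hc1, hc2⟩ := nonsing_fin G0 hirr0 ⟨θ, hθ⟩ hθ0
  set c : σ → AlgebraicClosure K := fun x => if h : x ∈ G.vars then c0 ⟨x, h⟩ else 0 with hc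
  have hcf : c ∘ f = c0 := by
    ext ⟨x, hx⟩
    show c x = c0 ⟨x, hx⟩
    rw [hc]
    exact dif_pos hx
  refine ⟨c, ?_, ?_⟩
  · rw [← hG0, MvPolynomial.aeval_rename, hcf, hc1]
  · have h2 : MvPolynomial.pderiv θ G =
        MvPolynomial.rename f (MvPolynomial.pderiv ⟨θ, hθ⟩ G0) := by
      rw [← MvPolynomial.pderiv_rename hf, hG0]
    rw [h2, MvPolynomial.aeval_rename, hcf]
    exact hc2

end ACA

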