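import Pool.Agent.Helper601.ACA.Defs

namespace ACA

open BiDiff

/-- Transition maps. -/
noncomputable def h170F (K : ℕ → Type) [∀ n, Field (K n)] (T : ∀ n, K n →+* K (n + 1))
    (i j : ℕ) (h : i ≤ j) : K i →+* K j :=
  Nat.leRec (motive := fun j _ => K i →+* K j) (RingHom.id _) (fun k _ g => (T k).comp g) h

theorem h170F_self (K : ℕ → Type) [∀ n, Field (K n)] (T : ∀ n, K n →+* K (n + 1))
    (i : ℕ) : h170F K T i i le_rfl = RingHom.id _ := by
  unfold h170F
  rw [Nat.leRec_self]

theorem h170F_succ (K : ℕ → Type) [∀ n, Field (K n)] (T : ∀ n, K n →+* K (n + 1))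
    (i j : ℕ) (h : i ≤ j) : h170F K T i (j+1) (h.trans (Nat.le_succ j)) = (T j).comp (h170F K T i j h) := by
  unfold h170F
  rw [Nat.leRec_succ]

theorem h170F_map (K : ℕ → Type) [∀ n, Field (K n)] (T : ∀ n, K n →+* K (n + 1))
    (i j k : ℕ) (h : i ≤ j) (h' : j ≤ k) (x : K i) :
    h170F K T j k h' (h170F K T i j h x) = h170F K T i k (h.trans h') x := by
  induction k, h' using Nat.le_induction with
  | base => rw [h170F_self]; rfl
  | succ k hk ih =>
    rw [h170F_succ K T j k hk, h170F_succ K T i k (h.trans hk)]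
    simp [ih]

theorem h170F_d (K : ℕ → Type) [∀ n, Field (K n)] (T : ∀ n, K n →+* K (n + 1))
    (d : ∀ n, Derivation ℤ (K n) (K n))
    (hT : ∀ n (a : K n), T n (d n a) = d (n+1) (T n a))
    (i j : ℕ) (h : i ≤ j) (x : K i) :
    h170F K T i j h (d i x) = d j (h170F K T i j h x) := by
  induction j, h using Nat.le_induction with
  | base => rw [h170F_self]; rfl
  | succ k hk ih =>
    rw [h170F_succ K T i k hk]
    simp [ih, hT]

instance h170DS (K : ℕ → Type) [∀ n, Field (K n)] (T : ∀ n, K n →+* K (n + 1)) :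
    DirectedSystem K (h170F K T · · ·) where
  map_self i x := by
    show h170F K T i i le_rfl x = x
    rw [h170F_self]; rfl
  map_map {k j i} hij hjk x := h170F_map K T i j k hij hjk x

/-- Derivation on the limit. -/
noncomputable def h170D (K : ℕ → Type) [∀ n, Field (K n)] (T : ∀ n, K n →+* K (n + 1))
    (d : ∀ n, Derivation ℤ (K n) (K n))
    (hT : ∀ n (a : K n), T n (d n a) = d (n+1) (T n a)) :
    Derivation ℤ (DirectLimit K (h170F K T)) (DirectLimit K (h170F K T)) :=
  Derivation.mk' (AddMonoidHom.toIntLinearMap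
    { toFun := DirectLimit.map (h170F K T) (h170F K T) (fun i x => d i x)
        (fun i j h x => h170F_d K T d hT i j h x)
      map_zero' := by
        rw [DirectLimit.zero_def 0, DirectLimit.map_def]
        simp
      map_add' := by
        refine DirectLimit.induction₂ _ (fun i x y => ?_)
        rw [DirectLimit.add_def, DirectLimit.map_def, DirectLimit.map_def, DirectLimit.map_def,
          DirectLimit.add_def]
        simp })
    (by
      refine DirectLimit.induction₂ _ (fun i x y => ?_)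
      simp only [AddMonoidHom.coe_toIntLinearMap, AddMonoidHom.coe_mk, ZeroHom.coe_mk]
      rw [DirectLimit.mul_def, DirectLimit.map_def, DirectLimit.map_def, DirectLimit.map_def,
        smul_eq_mul, smul_eq_mul, DirectLimit.mul_def, DirectLimit.mul_def, DirectLimit.add_def]
      simp)

theorem h170D_mk (K : ℕ → Type) [∀ n, Field (K n)] (T : ∀ n, K n →+* K (n + 1))
    (d : ∀ n, Derivation ℤ (K n) (K n))
    (hT : ∀ n (a : K n), T n (d n a) = d (n+1) (T n a)) (i : ℕ) (x : K i) :
    h170D K T d hT ⟦⟨i, x⟩⟧ = ⟦⟨i, d i x⟩⟧ := rfl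

/-- Inclusion. -/
noncomputable def h170I (K : ℕ → Type) [∀ n, Field (K n)] (T : ∀ n, K n →+* K (n + 1)) (n : ℕ) :
    K n →+* DirectLimit K (h170F K T) where
  toFun a := ⟦⟨n, a⟩⟧
  map_one' := (DirectLimit.one_def n).symm
  map_zero' := (DirectLimit.zero_def n).symm
  map_mul' x y := (DirectLimit.mul_def n x y).symm
  map_add' x y := (DirectLimit.add_def n x y).symm

/-- The colimit of a sequence of fields with two commuting derivations. -/
theorem colimit_exists (K : ℕ → Type) [∀ n, Field (K n)] [∀ n, CharZero (K n)]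
    [∀ n, BiDiff (K n)] (T : ∀ n, K n →+* K (n + 1))
    (hT1 : ∀ n (a : K n), T n (d1 a) = d1 (T n a))
    (hT2 : ∀ n (a : K n), T n (d2 a) = d2 (T n a)) :
    ∃ (k : Type) (_ : Field k) (_ : CharZero k) (_ : BiDiff k) (ι : ∀ n, K n →+* k),
      (∀ n (a : K n), ι n (d1 a) = d1 (ι n a)) ∧
      (∀ n (a : K n), ι n (d2 a) = d2 (ι n a)) ∧
      (∀ n (a : K n), ι (n + 1) (T n a) = ι n a) ∧
      (∀ x : k, ∃ (n : ℕ) (a : K n), ι n a = x) := by
  refine ⟨DirectLimit K (h170F K T), inferInstance, ?_, ?_, h170I K T, ?_, ?_, ?_, ?_⟩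
  · exact charZero_of_injective_ringHom (h170I K T 0).injective
  · exact
      { d1 := h170D K T (fun n => d1) hT1
        d2 := h170D K T (fun n => d2) hT2
        comm := by
          refine DirectLimit.induction _ (fun i x => ?_)
          rw [h170D_mk, h170D_mk, h170D_mk, h170D_mk, BiDiff.comm] }
  · intro n a
    rfl
  · intro n a
    rfl
  · intro n a
    show (⟦⟨n+1, T n a⟩⟧ : DirectLimit K (h170F K T)) = ⟦⟨n, a⟩⟧
    have h := DirectLimit.mk_apply (f := h170F K T) n (n+1) a (Nat.le_succ n)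
    rw [← h, h170F_succ K T n n le_rfl, h170F_self]
    rfl
  · refine DirectLimit.induction _ (fun i x => ?_)
    exact ⟨i, x, rfl⟩

end ACA

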