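import Pool.Agent.Helper601.ACA.C1
import Pool.Agent.Helper601.ACA.C2
import Pool.Agent.Helper601.ACA.C3
import Pool.Agent.Helper601.ACA.C4

namespace ACA

open BiDiff

/- GIVEN (proved elsewhere), keep as axioms. -/
/-- One step: an extension in which every nonconstant differential polynomial over `K` has a
root. -/
theorem one_step (K : Type) [Field K] [CharZero K] [BiDiff K] :
    ∃ (K' : Type) (_ : Field K') (_ : CharZero K') (_ : BiDiff K') (T : K →+* K'),
      (∀ a : K, T (d1 a) = d1 (T a)) ∧ (∀ a : K, T (d2 a) = d2 (T a)) ∧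
      ∀ G : MvPolynomial (ℕ × ℕ) K, G ∉ Set.range MvPolynomial.C →
        ∃ u : K', MvPolynomial.eval₂ T (fun φ : ℕ × ℕ =>
          (⇑(d1 : Derivation ℤ K' K'))^[φ.1] ((⇑(d2 : Derivation ℤ K' K'))^[φ.2] u)) G = 0 := by
  classical
  have : CharZero (AlgebraicClosure K) :=
    charZero_of_injective_algebraMap (algebraMap K (AlgebraicClosure K)).injective
  obtain ⟨iF, hF1, hF2⟩ := bidiff_frac (PowerSeries (PowerSeries (AlgebraicClosure K)))
  have tz : ∀ {R : Type} [CommRing R] [BiDiff R] (c : R →+* AlgebraicClosure K),
      tay c (0 : R) = 0 := by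
    intro R _ _ c
    have h := tay_add c (0 : R) 0
    rw [add_zero] at h
    exact left_eq_add.mp h
  let TT : ∀ {R : Type} [CommRing R] [BiDiff R] (c : R →+* AlgebraicClosure K),
      R →+* PowerSeries (PowerSeries (AlgebraicClosure K)) := fun {R} _ _ c =>
    { toFun := fun x => tay c x
      map_one' := tay_one c
      map_mul' := tay_mul c
      map_zero' := tz c
      map_add' := tay_add c }
  let al := algebraMap (PowerSeries (PowerSeries (AlgebraicClosure K)))
    (FractionRing (PowerSeries (PowerSeries (AlgebraicClosure K))))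
  have hal : Function.Injective al := IsFractionRing.injective _ _
  have hCZS : CharZero (PowerSeries (PowerSeries (AlgebraicClosure K))) := by
    have hinj : Function.Injective ((PowerSeries.C (R := PowerSeries (AlgebraicClosure K))).comp
        (PowerSeries.C (R := AlgebraicClosure K))) :=
      PowerSeries.C_injective.comp PowerSeries.C_injective
    exact charZero_of_injective_ringHom hinj
  have hCZ : CharZero (FractionRing (PowerSeries (PowerSeries (AlgebraicClosure K)))) :=
    charZero_of_injective_ringHom hal
  refine ⟨FractionRing (PowerSeries (PowerSeries (AlgebraicClosure K))), inferInstance, hCZ, iF,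
    al.comp (TT (algebraMap K (AlgebraicClosure K))), ?_, ?_, ?_⟩
  · intro a
    show al (tay _ (d1 a)) = iF.d1 (al (tay _ a))
    rw [tay_d1, hF1]
  · intro a
    show al (tay _ (d2 a)) = iF.d2 (al (tay _ a))
    rw [tay_d2, hF2]
  · intro G hG
    obtain ⟨D, h1C, h2C, h1X, h2X⟩ := total_exists (K := K)
    obtain ⟨c, hcC, hc0⟩ := point_exists D h1C h2C h1X h2X G hG
    let tau : MvPolynomial (ℕ × ℕ) K →+* PowerSeries (PowerSeries (AlgebraicClosure K)) :=
      @TT _ _ D c
    have t1 : ∀ x, tau (D.d1 x) = (instBiDiffPS (AlgebraicClosure K)).d1 (tau x) := by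
      intro x
      exact @tay_d1 _ _ _ D _ _ c x
    have t2 : ∀ x, tau (D.d2 x) = (instBiDiffPS (AlgebraicClosure K)).d2 (tau x) := by
      intro x
      exact @tay_d2 _ _ _ D _ _ c x
    have iX : ∀ i j : ℕ, (⇑D.d1)^[i] ((⇑D.d2)^[j] (MvPolynomial.X (0, 0) : MvPolynomial (ℕ × ℕ) K)) =
        MvPolynomial.X (i, j) := by
      intro i j
      have hj : (⇑D.d2)^[j] (MvPolynomial.X (0, 0) : MvPolynomial (ℕ × ℕ) K) =
          MvPolynomial.X (0, j) := by
        induction j with
        | zero => rfl
        | succ j ih => rw [Function.iterate_succ_apply', ih, h2X]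
      rw [hj]
      induction i with
      | zero => rfl
      | succ i ih => rw [Function.iterate_succ_apply', ih, h1X]
    have iC : ∀ (i j : ℕ) (a : K), (⇑D.d1)^[i] ((⇑D.d2)^[j] (MvPolynomial.C a : MvPolynomial (ℕ × ℕ) K)) =
        MvPolynomial.C ((⇑(d1 : Derivation ℤ K K))^[i] ((⇑(d2 : Derivation ℤ K K))^[j] a)) := by
      intro i j a
      have hj : (⇑D.d2)^[j] (MvPolynomial.C a : MvPolynomial (ℕ × ℕ) K) =
          MvPolynomial.C ((⇑(d2 : Derivation ℤ K K))^[j] a) := by
        induction j with
        | zero => rfl
        | succ j ih => rw [Function.iterate_succ_apply', ih, h2C, Function.iterate_succ_apply']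
      rw [hj]
      induction i with
      | zero => rfl
      | succ i ih => rw [Function.iterate_succ_apply', ih, h1C, Function.iterate_succ_apply']
    have hC : ∀ a : K, tau (MvPolynomial.C a) = TT (algebraMap K (AlgebraicClosure K)) a := by
      intro a
      show @tay _ _ _ D _ c (MvPolynomial.C a) = tay (algebraMap K (AlgebraicClosure K)) a
      unfold tay
      congr 1
      funext i
      congr 1
      funext j
      rw [← hcC]
      congr 2
      exact iC i j a
    have hG0 : tau G = 0 := by
      show @tay _ _ _ D _ c G = 0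
      unfold tay
      ext i j
      simp only [PowerSeries.coeff_mk, map_zero]
      have := hc0 i j
      erw [this]
      simp
    refine ⟨al (tau (MvPolynomial.X (0, 0))), ?_⟩
    have key : ∀ (i j : ℕ), (⇑iF.d1)^[i] ((⇑iF.d2)^[j] (al (tau (MvPolynomial.X (0, 0))))) =
        al (tau (MvPolynomial.X (i, j))) := by
      intro i j
      rw [← iX i j]
      have hj : (⇑iF.d2)^[j] (al (tau (MvPolynomial.X (0, 0)))) =
          al (tau ((⇑D.d2)^[j] (MvPolynomial.X (0, 0) : MvPolynomial (ℕ × ℕ) K))) := by
        induction j with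
        | zero => rfl
        | succ j ih => rw [Function.iterate_succ_apply', ih, hF2, Function.iterate_succ_apply', t2]
      rw [hj]
      induction i with
      | zero => rfl
      | succ i ih => rw [Function.iterate_succ_apply', ih, hF1, Function.iterate_succ_apply', t1]
    have hev : (MvPolynomial.eval₂Hom (al.comp (TT (algebraMap K (AlgebraicClosure K))))
        (fun φ : ℕ × ℕ => (⇑iF.d1)^[φ.1] ((⇑iF.d2)^[φ.2] (al (tau (MvPolynomial.X (0, 0))))))) =
        al.comp tau := by
      apply MvPolynomial.ringHom_ext
      · intro a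
        simp only [MvPolynomial.coe_eval₂Hom, MvPolynomial.eval₂_C, RingHom.comp_apply]
        rw [hC]
      · rintro ⟨i, j⟩
        simp only [MvPolynomial.coe_eval₂Hom, MvPolynomial.eval₂_X, RingHom.comp_apply]
        exact key i j
    have := congrArg (fun f => f G) hev
    simp only [MvPolynomial.coe_eval₂Hom, RingHom.comp_apply, hG0, map_zero] at this
    exact this

end ACA

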