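import Pool.Agent.Helper601.ACA.C6
import Pool.Agent.Helper601.ACA.C7

namespace ACA

open BiDiff

/- GIVEN (proved elsewhere), keep as axioms. -/
/-- bundled field of characteristic zero with two commuting derivations -/
structure BK : Type 1 where
  K : Type
  [f : Field K]
  [cz : CharZero K]
  [bd : BiDiff K]

attribute [instance] BK.f BK.cz BK.bd

theorem one_step_bk (B : BK) : ∃ (B' : BK) (T : B.K →+* B'.K),
      (∀ a : B.K, T (d1 a) = d1 (T a)) ∧ (∀ a : B.K, T (d2 a) = d2 (T a)) ∧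
      ∀ G : MvPolynomial (ℕ × ℕ) B.K, G ∉ Set.range MvPolynomial.C →
        ∃ u : B'.K, MvPolynomial.eval₂ T (fun φ : ℕ × ℕ =>
          (⇑(d1 : Derivation ℤ B'.K B'.K))^[φ.1] ((⇑(d2 : Derivation ℤ B'.K B'.K))^[φ.2] u)) G = 0 := by
  obtain ⟨K', i1, i2, i3, T, h⟩ := one_step B.K
  exact ⟨@BK.mk K' i1 i2 i3, T, h⟩

/-- start: `ℚ` with zero derivations -/
noncomputable def bk0 : BK :=
  @BK.mk ℚ _ _ ⟨0, 0, fun _ => rfl⟩

noncomputable def bkSeq : ℕ → BK := fun n => Nat.rec bk0 (fun _ B => (one_step_bk B).choose) n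

noncomputable def bkT (n : ℕ) : (bkSeq n).K →+* (bkSeq (n + 1)).K :=
  (one_step_bk (bkSeq n)).choose_spec.choose

theorem bkT_spec (n : ℕ) :
      (∀ a : (bkSeq n).K, bkT n (d1 a) = d1 (bkT n a)) ∧
      (∀ a : (bkSeq n).K, bkT n (d2 a) = d2 (bkT n a)) ∧
      ∀ G : MvPolynomial (ℕ × ℕ) (bkSeq n).K, G ∉ Set.range MvPolynomial.C →
        ∃ u : (bkSeq (n + 1)).K, MvPolynomial.eval₂ (bkT n) (fun φ : ℕ × ℕ =>
          (⇑(d1 : Derivation ℤ (bkSeq (n + 1)).K (bkSeq (n + 1)).K))^[φ.1]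
            ((⇑(d2 : Derivation ℤ (bkSeq (n + 1)).K (bkSeq (n + 1)).K))^[φ.2] u)) G = 0 :=
  (one_step_bk (bkSeq n)).choose_spec.choose_spec

/-- Existence of a field with two commuting derivations in which every nonconstant differential
polynomial in one unknown has a root. -/
theorem exists_dclosed :
    ∃ (k : Type) (_ : Field k) (_ : CharZero k) (_ : BiDiff k),
      ∀ G : MvPolynomial (ℕ × ℕ) k, G ∉ Set.range MvPolynomial.C →
        ∃ u : k, MvPolynomial.eval (fun φ : ℕ × ℕ =>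
          (⇑(d1 : Derivation ℤ k k))^[φ.1] ((⇑(d2 : Derivation ℤ k k))^[φ.2] u)) G = 0 := by
  obtain ⟨k, i1, i2, i3, ι, hι1, hι2, hT, hs⟩ := colimit_exists (fun n => (bkSeq n).K) bkT
    (fun n => (bkT_spec n).1) (fun n => (bkT_spec n).2.1)
  refine ⟨k, i1, i2, i3, ?_⟩
  have lift : ∀ n m, n ≤ m → ∀ P : MvPolynomial (ℕ × ℕ) (bkSeq n).K,
      ∃ P' : MvPolynomial (ℕ × ℕ) (bkSeq m).K,
        MvPolynomial.map (ι m) P' = MvPolynomial.map (ι n) P := by
    intro n m hnm
    induction m, hnm using Nat.le_induction with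
    | base => intro P; exact ⟨P, rfl⟩
    | succ m hm ih =>
      intro P
      obtain ⟨P', hP'⟩ := ih P
      refine ⟨MvPolynomial.map (bkT m) P', ?_⟩
      have e : (ι (m + 1)).comp (bkT m) = ι m := by
        ext a
        exact hT m a
      rw [← hP', MvPolynomial.map_map, e]
  have desc : ∀ G : MvPolynomial (ℕ × ℕ) k, ∃ (n : ℕ) (P : MvPolynomial (ℕ × ℕ) (bkSeq n).K),
      MvPolynomial.map (ι n) P = G := by
    intro G
    induction G using MvPolynomial.induction_on with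
    | C a =>
      obtain ⟨n, a', ha'⟩ := hs a
      exact ⟨n, MvPolynomial.C a', by rw [MvPolynomial.map_C, ha']⟩
    | add p q hp hq =>
      obtain ⟨n, P, hP⟩ := hp
      obtain ⟨m, R, hR⟩ := hq
      obtain ⟨P', hP'⟩ := lift n (max n m) (le_max_left _ _) P
      obtain ⟨R', hR'⟩ := lift m (max n m) (le_max_right _ _) R
      exact ⟨max n m, P' + R', by rw [map_add, hP', hR', hP, hR]⟩
    | mul_X p i hp =>
      obtain ⟨n, P, hP⟩ := hp
      exact ⟨n, P * MvPolynomial.X i, by rw [map_mul, hP, MvPolynomial.map_X]⟩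
  intro G hG
  obtain ⟨n, P, hP⟩ := desc G
  have hPn : P ∉ Set.range MvPolynomial.C := by
    rintro ⟨a, rfl⟩
    apply hG
    refine ⟨ι n a, ?_⟩
    rw [← hP, MvPolynomial.map_C]
  obtain ⟨u, hu⟩ := (bkT_spec n).2.2 P hPn
  refine ⟨ι (n + 1) u, ?_⟩
  rw [← hP, MvPolynomial.eval_map]
  have hit1 : ∀ (i : ℕ) (a : (bkSeq (n + 1)).K),
      ι (n + 1) ((⇑(d1 : Derivation ℤ (bkSeq (n + 1)).K (bkSeq (n + 1)).K))^[i] a) =
        (⇑(d1 : Derivation ℤ k k))^[i] (ι (n + 1) a) := by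
    intro i
    induction i with
    | zero => intro a; rfl
    | succ i ih =>
      intro a
      rw [Function.iterate_succ_apply', Function.iterate_succ_apply', hι1 (n + 1), ih]
  have hit2 : ∀ (i : ℕ) (a : (bkSeq (n + 1)).K),
      ι (n + 1) ((⇑(d2 : Derivation ℤ (bkSeq (n + 1)).K (bkSeq (n + 1)).K))^[i] a) =
        (⇑(d2 : Derivation ℤ k k))^[i] (ι (n + 1) a) := by
    intro i
    induction i with
    | zero => intro a; rfl
    | succ i ih =>
      intro a
      rw [Function.iterate_succ_apply', Function.iterate_succ_apply', hι2 (n + 1), ih]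
  have h1 := congrArg (ι (n + 1)) hu
  rw [map_zero, MvPolynomial.hom_eval₂] at h1
  have e1 : (ι (n + 1)).comp (bkT n) = ι n := by
    ext a
    exact hT n a
  rw [e1] at h1
  rw [← h1]
  congr 1
  funext φ
  simp only [Function.comp, hit1, hit2]

/-- jet -/
noncomputable def jet {k : Type} [Field k] [BiDiff k] (u : k) (φ : ℕ × ℕ) : k :=
  (⇑(BiDiff.d1 : Derivation ℤ k k))^[φ.1] ((⇑(BiDiff.d2 : Derivation ℤ k k))^[φ.2] u)

theorem jet_d1 {k : Type} [Field k] [BiDiff k] (u : k) (i j : ℕ) :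
    BiDiff.d1 (jet u (i, j)) = jet u (i + 1, j) := by
  simp only [jet]
  rw [Function.iterate_succ_apply']

theorem d2_it {k : Type} [Field k] [BiDiff k] (i : ℕ) (a : k) :
    BiDiff.d2 ((⇑(BiDiff.d1 : Derivation ℤ k k))^[i] a) =
      (⇑(BiDiff.d1 : Derivation ℤ k k))^[i] (BiDiff.d2 a) := by
  induction i with
  | zero => rfl
  | succ i ih =>
    rw [Function.iterate_succ_apply', Function.iterate_succ_apply', ← BiDiff.comm, ih]

theorem jet_d2 {k : Type} [Field k] [BiDiff k] (u : k) (i j : ℕ) :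
    BiDiff.d2 (jet u (i, j)) = jet u (i, j + 1) := by
  simp only [jet]
  rw [d2_it, Function.iterate_succ_apply']

theorem poly_d1 {k : Type} [Field k] [BiDiff k] (G : MvPolynomial (ℕ × ℕ) k) :
    ∃ G' : MvPolynomial (ℕ × ℕ) k, ∀ u : k,
      BiDiff.d1 (MvPolynomial.eval (jet u) G) = MvPolynomial.eval (jet u) G' := by
  induction G using MvPolynomial.induction_on with
  | C a => exact ⟨MvPolynomial.C (BiDiff.d1 a), fun u => by simp⟩
  | add p q hp hq =>
    obtain ⟨p', hp'⟩ := hp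
    obtain ⟨q', hq'⟩ := hq
    exact ⟨p' + q', fun u => by rw [map_add, map_add, hp', hq', map_add]⟩
  | mul_X p i hp =>
    obtain ⟨p', hp'⟩ := hp
    refine ⟨p * MvPolynomial.X (i.1 + 1, i.2) + MvPolynomial.X i * p', fun u => ?_⟩
    rw [map_mul, MvPolynomial.eval_X, Derivation.leibniz, hp']
    have := jet_d1 u i.1 i.2
    simp only [map_add, map_mul, MvPolynomial.eval_X, smul_eq_mul]
    rw [show BiDiff.d1 (jet u i) = jet u (i.1 + 1, i.2) from this]

theorem poly_d2 {k : Type} [Field k] [BiDiff k] (G : MvPolynomial (ℕ × ℕ) k) :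
    ∃ G' : MvPolynomial (ℕ × ℕ) k, ∀ u : k,
      BiDiff.d2 (MvPolynomial.eval (jet u) G) = MvPolynomial.eval (jet u) G' := by
  induction G using MvPolynomial.induction_on with
  | C a => exact ⟨MvPolynomial.C (BiDiff.d2 a), fun u => by simp⟩
  | add p q hp hq =>
    obtain ⟨p', hp'⟩ := hp
    obtain ⟨q', hq'⟩ := hq
    exact ⟨p' + q', fun u => by rw [map_add, map_add, hp', hq', map_add]⟩
  | mul_X p i hp =>
    obtain ⟨p', hp'⟩ := hp
    refine ⟨p * MvPolynomial.X (i.1, i.2 + 1) + MvPolynomial.X i * p', fun u => ?_⟩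
    rw [map_mul, MvPolynomial.eval_X, Derivation.leibniz, hp']
    have := jet_d2 u i.1 i.2
    simp only [map_add, map_mul, MvPolynomial.eval_X, smul_eq_mul]
    rw [show BiDiff.d2 (jet u i) = jet u (i.1, i.2 + 1) from this]

theorem isDP_poly {k : Type} [Field k] [BiDiff k] (h : k → k) (hh : IsDP h) :
    ∃ G : MvPolynomial (ℕ × ℕ) k, ∀ u : k, h u = MvPolynomial.eval (jet u) G := by
  induction hh with
  | const c => exact ⟨MvPolynomial.C c, fun u => by simp⟩
  | id => exact ⟨MvPolynomial.X (0, 0), fun u => by simp [jet]⟩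
  | add _ _ hf hg =>
    obtain ⟨p, hp⟩ := hf
    obtain ⟨q, hq⟩ := hg
    exact ⟨p + q, fun u => by simp only [hp, hq, map_add]⟩
  | mul _ _ hf hg =>
    obtain ⟨p, hp⟩ := hf
    obtain ⟨q, hq⟩ := hg
    exact ⟨p * q, fun u => by simp only [hp, hq, map_mul]⟩
  | d1 _ hf =>
    obtain ⟨p, hp⟩ := hf
    obtain ⟨p', hp'⟩ := poly_d1 p
    exact ⟨p', fun u => by simp only [hp, hp']⟩
  | d2 _ hf =>
    obtain ⟨p, hp⟩ := hf
    obtain ⟨p', hp'⟩ := poly_d2 p
    exact ⟨p', fun u => by simp only [hp, hp']⟩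

/-- Existence of a field with two commuting derivations on which every differential polynomial
function is constant or surjective. -/
theorem exists_dfield :
    ∃ (k : Type) (_ : Field k) (_ : CharZero k) (_ : BiDiff k),
      (∀ h : k → k, IsDP h → (∃ c, ∀ u, h u = c) ∨ Function.Surjective h) ∧
      ∃ b c : k, (BiDiff.d1 b : k) * BiDiff.d2 c - BiDiff.d1 c * BiDiff.d2 b = 1 := by
  obtain ⟨k, i1, i2, i3, H⟩ := exists_dclosed
  have H' : ∀ G : MvPolynomial (ℕ × ℕ) k, G ∉ Set.range MvPolynomial.C →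
      ∃ u : k, MvPolynomial.eval (jet u) G = 0 := H
  refine ⟨k, i1, i2, i3, ?_, ?_⟩
  · intro h hh
    obtain ⟨G, hG⟩ := isDP_poly h hh
    by_cases hc : G ∈ Set.range MvPolynomial.C
    · left
      obtain ⟨a, rfl⟩ := hc
      exact ⟨a, fun u => by rw [hG]; simp⟩
    · right
      intro v
      have hne : G - MvPolynomial.C v ∉ Set.range MvPolynomial.C := by
        rintro ⟨a, ha⟩
        apply hc
        exact ⟨a + v, by rw [map_add, ha]; ring⟩
      obtain ⟨u, hu⟩ := H' _ hne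
      refine ⟨u, ?_⟩
      rw [hG]
      rw [map_sub, MvPolynomial.eval_C] at hu
      exact sub_eq_zero.1 hu
  · -- two elements with wronskian one
    have key : ∀ (G : MvPolynomial (ℕ × ℕ) k) (x y : ℕ × ℕ → k),
        MvPolynomial.eval x G ≠ MvPolynomial.eval y G → G ∉ Set.range MvPolynomial.C := by
      rintro G x y hxy ⟨a, rfl⟩
      simp at hxy
    have hb : (MvPolynomial.X (1, 0) - 1 : MvPolynomial (ℕ × ℕ) k) ∉ Set.range MvPolynomial.C := by
      apply key _ (fun _ => 0) (fun _ => 1)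
      simp
    obtain ⟨b, hb'⟩ := H' _ hb
    have hb1 : BiDiff.d1 b = (1 : k) := by
      simp [jet] at hb'
      exact sub_eq_zero.1 hb'
    have hc : (MvPolynomial.X (0, 1) - MvPolynomial.C (BiDiff.d2 b) * MvPolynomial.X (1, 0) - 1 :
        MvPolynomial (ℕ × ℕ) k) ∉ Set.range MvPolynomial.C := by
      apply key _ (fun _ => 0) (fun φ => if φ = (0, 1) then 1 else 0)
      simp
    obtain ⟨c, hc'⟩ := H' _ hc
    refine ⟨b, c, ?_⟩
    simp [jet] at hc'
    rw [hb1]
    linear_combination hc'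

end ACA

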