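import Mathlib

namespace ACA

/-- A commutative ring with two commuting derivations. -/
class BiDiff (A : Type*) [CommRing A] where
  d1 : Derivation ℤ A A
  d2 : Derivation ℤ A A
  comm : ∀ a, d1 (d2 a) = d2 (d1 a)

/-- A derivation from an additive map satisfying the Leibniz rule. -/
def mkDer {A : Type*} [CommRing A] (f : A →+ A) (h : ∀ a b, f (a * b) = a * f b + b * f a) :
    Derivation ℤ A A :=
  Derivation.mk' f.toIntLinearMap h

theorem mkDer_apply {A : Type*} [CommRing A] (f : A →+ A)
    (h : ∀ a b, f (a * b) = a * f b + b * f a) (a : A) : mkDer f h a = f a := rfl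

/-- Syntax of generalised polynomials in one variable over `D`. -/
inductive GP (D : Type*) where
  | const : D → GP D
  | X : GP D
  | add : GP D → GP D → GP D
  | mul : GP D → GP D → GP D

/-- Evaluation of a generalised polynomial. -/
def GP.eval {D : Type*} {B : Type*} [Ring B] (φ : D → B) (b : B) : GP D → B
  | GP.const a => φ a
  | GP.X => b
  | GP.add p q => GP.eval φ b p + GP.eval φ b q
  | GP.mul p q => GP.eval φ b p * GP.eval φ b q

/-- Differential polynomial functions on `k`. -/
inductive IsDP {k : Type} [Field k] [BiDiff k] : (k → k) → Prop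
  | const (c : k) : IsDP (fun _ => c)
  | id : IsDP (fun u => u)
  | add {f g : k → k} : IsDP f → IsDP g → IsDP (fun u => f u + g u)
  | mul {f g : k → k} : IsDP f → IsDP g → IsDP (fun u => f u * g u)
  | d1 {f : k → k} : IsDP f → IsDP (fun u => BiDiff.d1 (f u))
  | d2 {f : k → k} : IsDP f → IsDP (fun u => BiDiff.d2 (f u))

end ACA
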