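import Pool.Agent.Helper601.ACA.A7c
import Pool.Agent.Helper601.ACA.A8
import Pool.Agent.Helper601.ACA.C8
import Pool.Agent.Helper601.ACA.B5

namespace ACA

open BiDiff SA
open Pool.Agent.Results.MP_4b1745_al.OneVariable (AlgClosedIn)

section main
variable {k : Type} [Field k] [CharZero k] [BiDiff k]

/-- Every nonconstant generalised polynomial function on the star algebra has a root. -/
theorem exists_root (hD : ∀ h : k → k, IsDP h → (∃ c, ∀ u, h u = c) ∨ Function.Surjective h)
    (F : GP (SA k)) (hnc : ∃ a b : SA k, F.eval id a ≠ F.eval id b) :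
    ∃ x : SA k, F.eval id x = 0 := by
  by_contra hcon
  push Not at hcon
  have hm : ∀ x : SA k, ∃ r, Good F x r ∧ ∀ ρ, Good F x ρ → ρ ≤ r := fun x =>
    good_max F x (hcon x) (good_exists F hnc x)
  choose r hr hrmax using hm
  refine no_infinite_ascent r ?_ ?_
  · intro x y ρ hρ hxy
    exact hrmax y ρ (good_shift F x y ρ (good_mono F x (r x) ρ (hr x) hρ) hxy)
  · intro x
    obtain ⟨y, hy, h | ⟨r', hr', hg⟩⟩ := newton_step hD F x (hcon x) (r x) (hr x) (hrmax x)
    · exact absurd h (hcon y)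
    · exact ⟨y, hy, lt_of_lt_of_le hr' (hrmax y r' hg)⟩

theorem coeff_one_sgl_mul (b c : k) :
    ((sgl 0 b : SA k) * sgl 0 c).coeff 1 = d1 b * d2 c := by
  have h0 : ({0} : Set ℚ).IsPWO := Set.isPWO_singleton 0
  have hs : ∀ a : k, Function.support (sgl 0 a : SA k).coeff ⊆ ({0} : Set ℚ) := by
    intro a g hg
    by_contra hne
    have hne' : ¬ g = 0 := fun h => hne (by simp [h])
    exact hg (by rw [coeff_sgl, if_neg hne'])
  rw [coeff_mul_eq _ _ h0 h0 (hs b) (hs c)]
  have htrip : (trip_finite h0 h0 1).toFinset = {((1 : ℕ), (0 : ℚ), (0 : ℚ))} := by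
    ext ⟨n, i, j⟩
    simp only [Set.Finite.mem_toFinset, trip, Set.mem_ofPred_eq, Set.mem_singleton_iff,
      Finset.mem_singleton, Prod.mk.injEq]
    constructor
    · rintro ⟨hi, hj, hs⟩
      subst hi; subst hj
      simp at hs
      exact ⟨by exact_mod_cast hs, rfl, rfl⟩
    · rintro ⟨rfl, rfl, rfl⟩
      simp
  rw [htrip, Finset.sum_singleton]
  simp [term, coeff_sgl]

theorem exists_closed :
    ∃ (D : Type) (_ : Ring D) (_ : Algebra ℚ D) (_ : Nontrivial D),
      (∃ a b : D, a * b ≠ b * a) ∧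
      ∀ F : GP D, (∃ a b : D, F.eval id a ≠ F.eval id b) → ∃ x : D, F.eval id x = 0 := by
  obtain ⟨k, _, _, _, hD, b, c, hbc⟩ := exists_dfield
  refine ⟨SA k, inferInstance, inferInstance, ⟨⟨0, 1, ?_⟩⟩, ⟨sgl 0 b, sgl 0 c, ?_⟩, exists_root hD⟩
  · intro h
    have h2 := congrArg (fun x : SA k => x.coeff 0) h
    have h3 : (1 : SA k).coeff 0 = (1 : k) := by
      show (sgl 0 1 : SA k).coeff 0 = 1
      rw [coeff_sgl, if_pos rfl]
    simp [h3] at h2
  · intro h
    have h2 := congrArg (fun x : SA k => x.coeff 1) h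
    simp only [coeff_one_sgl_mul] at h2
    rw [h2, sub_self] at hbc
    exact zero_ne_one hbc

/-- There are a field `P` of characteristic zero and a division algebra `R` with centre `P` that
is algebraically closed in countably many unknowns. -/
theorem final :
    ∃ (P : Type) (_ : Field P) (R : Type) (_ : Ring R) (_ : Algebra P R),
      Nontrivial R ∧ (∀ a : R, a ≠ 0 → ∃ b : R, a * b = 1 ∧ b * a = 1) ∧
      (∀ c : R, (∀ d, c * d = d * c) ↔ c ∈ Set.range (algebraMap P R)) ∧
      AlgClosedIn P R ℕ := by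
  obtain ⟨D, i1, i2, i3, hnc, hroot⟩ := exists_closed
  obtain ⟨hdiv, P, j1, j2, hc, hcl⟩ := abs_closed hnc hroot
  exact ⟨P, j1, D, i1, j2, i3, hdiv, hc, hcl⟩

end main

end ACA
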