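import Pool.Agent.Helper601.ACA.B2

namespace ACA

open Pool.Agent.Results.MP_4b1745_al.OneVariable

/-- Amitsur's theorem in one variable: over a division ring of infinite dimension over its centre
(of characteristic zero) a generalised polynomial that vanishes identically is zero. -/
theorem gpi {P D : Type*} [Field P] [CharZero P] [DivisionRing D] [Algebra P D]
    (hcenter : ∀ c : D, (∀ d, c * d = d * c) → c ∈ Set.range (algebraMap P D))
    (hinf : ¬ FiniteDimensional P D) (f : FreeOver P D Unit)
    (hf : ∀ z : D, evalAt (fun _ => z) f = 0) : f = 0 := by
  obtain ⟨m, hm⟩ := fil_exists f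
  have key : ∀ m : ℕ, f ∈ Fil P D m → f = 0 := by
    intro m
    induction m with
    | zero => intro h; exact h
    | succ m ih =>
      intro h
      refine ih (fil_descend hcenter hinf m f h 0 Fin.elim0 Fin.elim0 (fun k => k.elim0)
        (fun k => k.elim0) (fun z => ?_))
      simpa using hf z
  exact key m hm

end ACA
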