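import Pool.Agent.Helper601.ACA.Ring

namespace ACA

theorem GP.map_eval {D B B' : Type*} [Ring B] [Ring B'] (ψ : B →+* B') (φ : D → B) (b : B)
    (F : GP D) : ψ (F.eval φ b) = F.eval (fun a => ψ (φ a)) (ψ b) := by
  induction F with
  | const a => rfl
  | X => rfl
  | add p q hp hq => simp only [GP.eval, map_add, hp, hq]
  | mul p q hp hq => simp only [GP.eval, map_mul, hp, hq]

open BiDiff SA

section fn
variable {k : Type} [Field k] [CharZero k] [BiDiff k]

/-- The ring of functions `k → k` with pointwise derivations. -/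
noncomputable instance instBiDiffFn : BiDiff (k → k) where
  d1 := mkDer
    { toFun := fun f u => d1 (f u), map_zero' := by ext u; simp, map_add' := fun f g => by ext u; simp }
    (fun a b => by ext u; simp [Derivation.leibniz])
  d2 := mkDer
    { toFun := fun f u => d2 (f u), map_zero' := by ext u; simp, map_add' := fun f g => by ext u; simp }
    (fun a b => by ext u; simp [Derivation.leibniz])
  comm a := by
    ext u
    exact BiDiff.comm (a u)

theorem d1_fn (f : k → k) (u : k) : (d1 f : k → k) u = d1 (f u) := rfl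
theorem d2_fn (f : k → k) (u : k) : (d2 f : k → k) u = d2 (f u) := rfl

/-- Constant series. -/
noncomputable def iota : SA k →+* SA (k → k) :=
  SA.map (Pi.constRingHom k k) (fun a => by ext u; rfl) (fun a => by ext u; rfl)

theorem coeff_iota (x : SA k) (g : ℚ) (u : k) : (iota x).coeff g u = x.coeff g := rfl

/-- Evaluation of the coefficient functions at `u`. -/
noncomputable def evu (u : k) : SA (k → k) →+* SA k :=
  SA.map (Pi.evalRingHom (fun _ : k => k) u) (fun a => rfl) (fun a => rfl)

theorem coeff_evu (u : k) (x : SA (k → k)) (g : ℚ) : (evu u x).coeff g = x.coeff g u := rfl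

/-- Precomposition of the coefficient functions with `τ`. -/
noncomputable def pre (τ : k → k) : SA (k → k) →+* SA (k → k) :=
  SA.map
    { toFun := fun f u => f (τ u), map_one' := rfl, map_mul' := fun _ _ => rfl, map_zero' := rfl,
      map_add' := fun _ _ => rfl }
    (fun a => by ext u; rfl) (fun a => by ext u; rfl)

theorem coeff_pre (τ : k → k) (x : SA (k → k)) (g : ℚ) (u : k) :
    (pre τ x).coeff g u = x.coeff g (τ u) := rfl

/-- The generic element: coefficient function `u ↦ u` at exponent `0`. -/
noncomputable def uu : SA (k → k) := sgl 0 (fun u : k => u)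

theorem pre_iota (τ : k → k) (x : SA k) : pre τ (iota x) = iota x := by
  ext g u; rfl

theorem evu_iota (u : k) (x : SA k) : evu u (iota x) = x := by
  ext g; rfl

theorem evu_uu (u : k) : evu u (uu : SA (k → k)) = sgl 0 u := by
  ext g
  rw [coeff_evu, uu, coeff_sgl, coeff_sgl]
  split_ifs <;> rfl

theorem evu_mon (u : k) (t : ℚ) : evu u (mon (k → k) t) = mon k t := by
  ext g
  rw [coeff_evu, mon, mon, coeff_sgl, coeff_sgl]
  split_ifs <;> rfl

theorem iota_mon (t : ℚ) : iota (mon k t) = mon (k → k) t := by
  ext g u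
  rw [coeff_iota, mon, mon, coeff_sgl, coeff_sgl]
  split_ifs <;> rfl

theorem pre_mon (τ : k → k) (t : ℚ) : pre τ (mon (k → k) t) = mon (k → k) t := by
  rw [← iota_mon, pre_iota]

/-- `F(x + ħ^ρ u)` with `u` generic. -/
noncomputable def ww (F : GP (SA k)) (x : SA k) (ρ : ℚ) : SA (k → k) :=
  F.eval iota (iota x + mon (k → k) ρ * uu)

theorem evu_ww (F : GP (SA k)) (x : SA k) (ρ : ℚ) (u : k) :
    evu u (ww F x ρ) = F.eval id (x + sgl ρ u) := by
  rw [ww, GP.map_eval, map_add, map_mul, evu_iota, evu_uu, evu_mon, mon_mul_sgl, add_zero]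
  congr 1

end fn

/-- Truncation to a finite set of exponents. -/
noncomputable def trunc {A : Type*} [CommRing A] (T : Finset ℚ) (z : SA A) : SA A :=
  ∑ t ∈ T, sgl t (z.coeff t)

end ACA

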