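import Pool.Agent.Helper601.ACA.Star

namespace ACA

open BiDiff

/-- Hahn series over `A` with exponents in `ℚ`, with the star product. -/
def SA (A : Type*) [CommRing A] : Type _ := HahnSeries ℚ A

namespace SA

section basic
variable {A : Type*} [CommRing A]

noncomputable instance : AddCommGroup (SA A) := inferInstanceAs (AddCommGroup (HahnSeries ℚ A))

/-- Coefficients. -/
def coeff (x : SA A) (g : ℚ) : A := HahnSeries.coeff (x : HahnSeries ℚ A) g

/-- Constructor from a function with partially well ordered support. -/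
def ofFun (f : ℚ → A) (h : (Function.support f).IsPWO) : SA A :=
  (⟨f, h⟩ : HahnSeries ℚ A)

@[simp] theorem coeff_ofFun (f : ℚ → A) (h : (Function.support f).IsPWO) (g : ℚ) :
    (ofFun f h).coeff g = f g := rfl

theorem isPWO (x : SA A) : (Function.support x.coeff).IsPWO :=
  HahnSeries.isPWO_support (x : HahnSeries ℚ A)

@[ext] theorem ext {x y : SA A} (h : ∀ g, x.coeff g = y.coeff g) : x = y :=
  HahnSeries.ext (funext h)

@[simp] theorem coeff_zero (g : ℚ) : (0 : SA A).coeff g = 0 := rfl
@[simp] theorem coeff_add (x y : SA A) (g : ℚ) : (x + y).coeff g = x.coeff g + y.coeff g := rfl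
@[simp] theorem coeff_neg (x : SA A) (g : ℚ) : (-x).coeff g = -x.coeff g := rfl
@[simp] theorem coeff_sub (x y : SA A) (g : ℚ) : (x - y).coeff g = x.coeff g - y.coeff g := by
  rw [sub_eq_add_neg, coeff_add, coeff_neg, sub_eq_add_neg]

/-- `single t a`, the series `a ħ^t`. -/
noncomputable def sgl (t : ℚ) (a : A) : SA A := (HahnSeries.single t a : HahnSeries ℚ A)

theorem coeff_sgl (t : ℚ) (a : A) (g : ℚ) : (sgl t a).coeff g = if g = t then a else 0 := by
  classical
  by_cases h : g = t
  · subst h; simpa [coeff, sgl] using HahnSeries.coeff_single_same g a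
  · simpa [coeff, sgl, h] using HahnSeries.coeff_single_of_ne h

/-- Coefficient as an additive homomorphism. -/
def coeffHom (g : ℚ) : SA A →+ A where
  toFun x := x.coeff g
  map_zero' := rfl
  map_add' _ _ := rfl

theorem coeff_sum {ι : Type*} (s : Finset ι) (f : ι → SA A) (g : ℚ) :
    (∑ i ∈ s, f i).coeff g = ∑ i ∈ s, (f i).coeff g :=
  map_sum (coeffHom g) f s

end basic

section ring
variable {A : Type*} [CommRing A] [Algebra ℚ A] [BiDiff A]

noncomputable instance : Module ℚ (SA A) := inferInstanceAs (Module ℚ (HahnSeries ℚ A))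

@[simp] theorem coeff_smul (r : ℚ) (x : SA A) (g : ℚ) : (r • x).coeff g = r • x.coeff g := rfl

noncomputable instance instMul : Mul (SA A) := ⟨fun x y => (st (x : HahnSeries ℚ A) y : HahnSeries ℚ A)⟩
noncomputable instance instOne : One (SA A) := ⟨sgl 0 1⟩

theorem coeff_mul_eq (x y : SA A) {S T : Set ℚ} (hS : S.IsPWO) (hT : T.IsPWO)
    (hx : Function.support x.coeff ⊆ S) (hy : Function.support y.coeff ⊆ T) (g : ℚ) :
    (x * y).coeff g = ∑ z ∈ (trip_finite hS hT g).toFinset, term x.coeff y.coeff z :=
  stCoeff_eq x.coeff y.coeff hS hT hx hy g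

theorem one_mul' (x : SA A) : 1 * x = x := by
  ext g
  have := coeff_single_st 0 (x : HahnSeries ℚ A) g
  rw [sub_zero] at this
  exact this

theorem mul_one' (x : SA A) : x * 1 = x := by
  ext g
  have := coeff_st_single 0 (x : HahnSeries ℚ A) g
  rw [sub_zero] at this
  exact this

noncomputable instance instRing : Ring (SA A) :=
  { (inferInstance : AddCommGroup (SA A)), instMul, instOne with
    left_distrib := fun a b c => st_add (a : HahnSeries ℚ A) b c
    right_distrib := fun a b c => add_st (a : HahnSeries ℚ A) b c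
    zero_mul := fun a => by
      have h := add_st (0 : HahnSeries ℚ A) 0 a
      rw [add_zero] at h
      have h2 : (st (0 : HahnSeries ℚ A) a) = 0 := by simpa using h
      exact h2
    mul_zero := fun a => by
      have h := st_add (a : HahnSeries ℚ A) 0 0
      rw [add_zero] at h
      have h2 : (st (a : HahnSeries ℚ A) 0) = 0 := by simpa using h
      exact h2
    mul_assoc := fun a b c => st_assoc (a : HahnSeries ℚ A) b c
    one_mul := one_mul'
    mul_one := mul_one' }

/-- `ħ^t`. -/
noncomputable def mon (A : Type*) [CommRing A] (t : ℚ) : SA A := sgl t 1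

@[simp] theorem coeff_mon_mul (t : ℚ) (x : SA A) (g : ℚ) :
    (mon A t * x).coeff g = x.coeff (g - t) :=
  coeff_single_st t (x : HahnSeries ℚ A) g

@[simp] theorem coeff_mul_mon (t : ℚ) (x : SA A) (g : ℚ) :
    (x * mon A t).coeff g = x.coeff (g - t) :=
  coeff_st_single t (x : HahnSeries ℚ A) g

theorem mon_comm (t : ℚ) (x : SA A) : Commute (mon A t) x := by
  ext g; simp

theorem mon_mul_sgl (s t : ℚ) (a : A) : mon A s * sgl t a = sgl (s + t) a := by
  ext g
  rw [coeff_mon_mul, coeff_sgl, coeff_sgl]
  by_cases h : g = s + t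
  · rw [if_pos h, if_pos (by rw [h]; ring)]
  · rw [if_neg h, if_neg (fun h' => h (by rw [← h']; ring))]

theorem mon_add (s t : ℚ) : mon A (s + t) = mon A s * mon A t := (mon_mul_sgl s t 1).symm

theorem mon_zero : mon A 0 = 1 := rfl

theorem mon_pow (t : ℚ) (n : ℕ) : mon A t ^ n = mon A (n * t) := by
  induction n with
  | zero => simp [mon_zero]
  | succ n ih => rw [pow_succ, ih, ← mon_add]; congr 1; push_cast; ring

theorem mul_smul_comm' (r : ℚ) (x y : SA A) : x * (r • y) = r • (x * y) := by
  ext g
  rw [coeff_smul]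
  have h2 : Function.support (r • y).coeff ⊆ Function.support y.coeff := by
    intro z hz hz2
    exact hz (by rw [coeff_smul, hz2, smul_zero])
  rw [coeff_mul_eq x (r • y) x.isPWO y.isPWO subset_rfl h2,
    coeff_mul_eq x y x.isPWO y.isPWO subset_rfl subset_rfl, Finset.smul_sum]
  refine Finset.sum_congr rfl fun z _ => ?_
  unfold term
  rw [coeff_smul]
  have h3 : ∀ (n : ℕ) (a : A), (⇑(d2 : Derivation ℤ A A))^[n] (r • a) =
      r • (⇑(d2 : Derivation ℤ A A))^[n] a := by
    intro n a
    rw [it2, it2]
    exact map_rat_smul ((e2 A) ^ n : A →+ A) r a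
  rw [h3, mul_smul_comm, smul_comm]

theorem smul_mul_assoc' (r : ℚ) (x y : SA A) : (r • x) * y = r • (x * y) := by
  ext g
  rw [coeff_smul]
  have h2 : Function.support (r • x).coeff ⊆ Function.support x.coeff := by
    intro z hz hz2
    exact hz (by rw [coeff_smul, hz2, smul_zero])
  rw [coeff_mul_eq (r • x) y x.isPWO y.isPWO h2 subset_rfl,
    coeff_mul_eq x y x.isPWO y.isPWO subset_rfl subset_rfl, Finset.smul_sum]
  refine Finset.sum_congr rfl fun z _ => ?_
  unfold term
  rw [coeff_smul]
  have h3 : ∀ (n : ℕ) (a : A), (⇑(d1 : Derivation ℤ A A))^[n] (r • a) =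
      r • (⇑(d1 : Derivation ℤ A A))^[n] a := by
    intro n a
    rw [it1, it1]
    exact map_rat_smul ((e1 A) ^ n : A →+ A) r a
  rw [h3, smul_mul_assoc, smul_comm]

noncomputable instance instAlg : Algebra ℚ (SA A) :=
  Algebra.ofModule (fun r x y => smul_mul_assoc' r x y) (fun r x y => mul_smul_comm' r x y)

end ring

section map
variable {A B : Type*} [CommRing A] [Algebra ℚ A] [BiDiff A] [CommRing B] [Algebra ℚ B] [BiDiff B]

/-- Functoriality of the star algebra. -/
noncomputable def map (φ : A →+* B) (h1 : ∀ a, φ (d1 a) = d1 (φ a)) (h2 : ∀ a, φ (d2 a) = d2 (φ a)) :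
    SA A →+* SA B where
  toFun x := ofFun (fun g => φ (x.coeff g))
    (x.isPWO.mono (fun g hg h => hg (by show φ (x.coeff g) = 0; rw [h, map_zero])))
  map_zero' := by ext g; simp
  map_add' x y := by ext g; simp
  map_one' := by
    ext g
    show φ ((sgl 0 1 : SA A).coeff g) = (sgl 0 1 : SA B).coeff g
    rw [coeff_sgl, coeff_sgl]; split_ifs <;> simp
  map_mul' x y := by
    ext g
    have hs : ∀ z : SA A, Function.support (fun g => φ (z.coeff g)) ⊆ Function.support z.coeff :=
      fun z g hg h => hg (by show φ (z.coeff g) = 0; rw [h, map_zero])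
    rw [coeff_ofFun, coeff_mul_eq x y x.isPWO y.isPWO subset_rfl subset_rfl,
      coeff_mul_eq (ofFun _ _) (ofFun _ _) x.isPWO y.isPWO (hs x) (hs y), map_sum]
    refine Finset.sum_congr rfl fun z _ => ?_
    have k1 : ∀ (n : ℕ) (a : A), φ ((⇑(d1 : Derivation ℤ A A))^[n] a) =
        (⇑(d1 : Derivation ℤ B B))^[n] (φ a) := by
      intro n a
      induction n with
      | zero => rfl
      | succ n ih => rw [Function.iterate_succ_apply', Function.iterate_succ_apply', h1, ih]
    have k2 : ∀ (n : ℕ) (a : A), φ ((⇑(d2 : Derivation ℤ A A))^[n] a) =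
        (⇑(d2 : Derivation ℤ B B))^[n] (φ a) := by
      intro n a
      induction n with
      | zero => rfl
      | succ n ih => rw [Function.iterate_succ_apply', Function.iterate_succ_apply', h2, ih]
    unfold term
    have k3 : ∀ (r : ℚ) (a : A), φ (r • a) = r • φ a := fun r a => map_rat_smul φ r a
    rw [k3, map_mul, k1, k2]
    rfl

@[simp] theorem coeff_map (φ : A →+* B) (h1 : ∀ a, φ (d1 a) = d1 (φ a))
    (h2 : ∀ a, φ (d2 a) = d2 (φ a)) (x : SA A) (g : ℚ) :
    (map φ h1 h2 x).coeff g = φ (x.coeff g) := rfl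

end map

end SA

end ACA
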