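import Pool.Agent.Helper601.ACA.Defs

namespace ACA

open scoped BigOperators

open BiDiff

variable {A : Type*} [CommRing A] [Algebra ℚ A] [BiDiff A]

/-- Index triples `(n,i,j)` with `i ∈ S`, `j ∈ T`, `i + j + n = g`. -/
def trip (S T : Set ℚ) (g : ℚ) : Set (ℕ × ℚ × ℚ) :=
  {x | x.2.1 ∈ S ∧ x.2.2 ∈ T ∧ x.2.1 + x.2.2 + (x.1 : ℚ) = g}

/-- The term `(1/n!) d1^n(a_i) d2^n(b_j)`. -/
noncomputable def term (a b : ℚ → A) (x : ℕ × ℚ × ℚ) : A :=
  ((x.1.factorial : ℚ)⁻¹) • ((⇑(d1 : Derivation ℤ A A))^[x.1] (a x.2.1) *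
    (⇑(d2 : Derivation ℤ A A))^[x.1] (b x.2.2))

/-- Coefficient of the star product. -/
noncomputable def stCoeff (a b : ℚ → A) (g : ℚ) : A :=
  ∑ᶠ x ∈ {x : ℕ × ℚ × ℚ | x.2.1 + x.2.2 + (x.1 : ℚ) = g}, term a b x

theorem natRange_isPWO : (Set.range (Nat.cast : ℕ → ℚ)).IsPWO := by
  have h := (Set.isPWO_of_wellQuasiOrderedLE (Set.univ : Set ℕ)).image_of_monotone
    (f := (Nat.cast : ℕ → ℚ)) Nat.mono_cast
  rwa [Set.image_univ] at h

open scoped Pointwise in
theorem trip_finite {S T : Set ℚ} (hS : S.IsPWO) (hT : T.IsPWO) (g : ℚ) :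
    (trip S T g).Finite := by
  have hN := natRange_isPWO
  have h1 := Set.AddAntidiagonal.finite_of_isPWO (hS.add hT) hN g
  have h2 : (⋃ p ∈ Set.antidiagonal (S + T) (Set.range (Nat.cast : ℕ → ℚ)) g,
      (fun q : ℚ × ℚ => ((⌊p.2⌋₊ : ℕ), q.1, q.2)) '' Set.antidiagonal S T p.1).Finite := by
    apply h1.biUnion
    intro p _
    exact (Set.AddAntidiagonal.finite_of_isPWO hS hT p.1).image _
  refine h2.subset ?_
  rintro ⟨n, i, j⟩ ⟨hi, hj, hg⟩
  simp only at hi hj hg
  rw [Set.mem_iUnion₂]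
  refine ⟨(i + j, (n : ℚ)), ?_, (i, j), ?_, ?_⟩
  · exact ⟨Set.add_mem_add hi hj, ⟨n, rfl⟩, hg⟩
  · exact ⟨hi, hj, rfl⟩
  · simp

omit [Algebra ℚ A] in
theorem iterate_d1_zero (n : ℕ) : (⇑(d1 : Derivation ℤ A A))^[n] (0 : A) = 0 :=
  iterate_map_zero (d1 : Derivation ℤ A A) n

omit [Algebra ℚ A] in
theorem iterate_d2_zero (n : ℕ) : (⇑(d2 : Derivation ℤ A A))^[n] (0 : A) = 0 :=
  iterate_map_zero (d2 : Derivation ℤ A A) n

theorem term_eq_zero_left (a b : ℚ → A) (x : ℕ × ℚ × ℚ) (h : a x.2.1 = 0) : term a b x = 0 := by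
  unfold term
  rw [h, iterate_d1_zero, zero_mul, smul_zero]

theorem term_eq_zero_right (a b : ℚ → A) (x : ℕ × ℚ × ℚ) (h : b x.2.2 = 0) : term a b x = 0 := by
  unfold term
  rw [h, iterate_d2_zero, mul_zero, smul_zero]

theorem stCoeff_eq (a b : ℚ → A) {S T : Set ℚ} (hS : S.IsPWO) (hT : T.IsPWO)
    (ha : Function.support a ⊆ S) (hb : Function.support b ⊆ T) (g : ℚ) :
    stCoeff a b g = ∑ x ∈ (trip_finite hS hT g).toFinset, term a b x := by
  unfold stCoeff
  rw [← finsum_mem_eq_finite_toFinset_sum]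
  apply finsum_mem_inter_support_eq'
  intro x hx
  constructor
  · intro h
    refine ⟨ha ?_, hb ?_, h⟩
    · intro h0
      exact hx (term_eq_zero_left a b x h0)
    · intro h0
      exact hx (term_eq_zero_right a b x h0)
  · intro h
    exact h.2.2

/-- `{s + t + n}` is partially well ordered. -/
theorem sumset_isPWO {S T : Set ℚ} (hS : S.IsPWO) (hT : T.IsPWO) :
    {g : ℚ | (trip S T g).Nonempty}.IsPWO := by
  refine ((hS.add hT).add natRange_isPWO).mono ?_
  rintro g ⟨⟨n, i, j⟩, hi, hj, hg⟩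
  simp only at hi hj hg
  rw [← hg]
  exact Set.add_mem_add (Set.add_mem_add hi hj) ⟨n, rfl⟩

theorem stCoeff_isPWO (a b : ℚ → A) (ha : (Function.support a).IsPWO)
    (hb : (Function.support b).IsPWO) : (Function.support (stCoeff a b)).IsPWO := by
  refine (sumset_isPWO ha hb).mono ?_
  intro g hg
  by_contra hne
  simp only [Set.mem_ofPred_eq, Set.not_nonempty_iff_eq_empty] at hne
  apply hg
  rw [stCoeff_eq a b ha hb subset_rfl subset_rfl g]
  apply Finset.sum_eq_zero
  intro x hx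
  rw [Set.Finite.mem_toFinset, hne] at hx
  exact absurd hx (Set.notMem_empty x)

/-- The star product. -/
noncomputable def st (a b : HahnSeries ℚ A) : HahnSeries ℚ A :=
  ⟨stCoeff a.coeff b.coeff, stCoeff_isPWO _ _ a.isPWO_support b.isPWO_support⟩

theorem term_add_right (a b c : ℚ → A) (x : ℕ × ℚ × ℚ) :
    term a (b + c) x = term a b x + term a c x := by
  unfold term
  rw [Pi.add_apply, iterate_map_add (d2 : Derivation ℤ A A), mul_add, smul_add]

theorem term_add_left (a b c : ℚ → A) (x : ℕ × ℚ × ℚ) :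
    term (a + b) c x = term a c x + term b c x := by
  unfold term
  rw [Pi.add_apply, iterate_map_add (d1 : Derivation ℤ A A), add_mul, smul_add]

theorem st_add (a b c : HahnSeries ℚ A) : st a (b + c) = st a b + st a c := by
  ext g
  rw [HahnSeries.coeff_add]
  change stCoeff a.coeff (b + c).coeff g = stCoeff a.coeff b.coeff g + stCoeff a.coeff c.coeff g
  have hT : (Function.support b.coeff ∪ Function.support c.coeff).IsPWO :=
    b.isPWO_support.union c.isPWO_support
  have hbc : (b + c).coeff = b.coeff + c.coeff := by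
    ext x; simp
  rw [stCoeff_eq a.coeff (b + c).coeff a.isPWO_support hT subset_rfl ?_ g,
    stCoeff_eq a.coeff b.coeff a.isPWO_support hT subset_rfl Set.subset_union_left g,
    stCoeff_eq a.coeff c.coeff a.isPWO_support hT subset_rfl Set.subset_union_right g,
    ← Finset.sum_add_distrib]
  · apply Finset.sum_congr rfl
    intro x _
    rw [hbc, term_add_right]
  · rw [hbc]
    exact Function.support_add _ _

theorem add_st (a b c : HahnSeries ℚ A) : st (a + b) c = st a c + st b c := by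
  ext g
  rw [HahnSeries.coeff_add]
  change stCoeff (a + b).coeff c.coeff g = stCoeff a.coeff c.coeff g + stCoeff b.coeff c.coeff g
  have hT : (Function.support a.coeff ∪ Function.support b.coeff).IsPWO :=
    a.isPWO_support.union b.isPWO_support
  have hbc : (a + b).coeff = a.coeff + b.coeff := by
    ext x; simp
  rw [stCoeff_eq (a + b).coeff c.coeff hT c.isPWO_support ?_ subset_rfl g,
    stCoeff_eq a.coeff c.coeff hT c.isPWO_support Set.subset_union_left subset_rfl g,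
    stCoeff_eq b.coeff c.coeff hT c.isPWO_support Set.subset_union_right subset_rfl g,
    ← Finset.sum_add_distrib]
  · apply Finset.sum_congr rfl
    intro x _
    rw [hbc, term_add_left]
  · rw [hbc]
    exact Function.support_add _ _

omit [Algebra ℚ A] in
theorem iterate_d1_one (n : ℕ) (hn : n ≠ 0) : (⇑(d1 : Derivation ℤ A A))^[n] (1 : A) = 0 := by
  obtain ⟨m, rfl⟩ := Nat.exists_eq_succ_of_ne_zero hn
  rw [Function.iterate_succ_apply, Derivation.map_one_eq_zero, iterate_d1_zero]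

omit [Algebra ℚ A] in
theorem iterate_d2_one (n : ℕ) (hn : n ≠ 0) : (⇑(d2 : Derivation ℤ A A))^[n] (1 : A) = 0 := by
  obtain ⟨m, rfl⟩ := Nat.exists_eq_succ_of_ne_zero hn
  rw [Function.iterate_succ_apply, Derivation.map_one_eq_zero, iterate_d2_zero]

theorem coeff_single_st (t : ℚ) (b : HahnSeries ℚ A) (g : ℚ) :
    (st (HahnSeries.single t (1 : A)) b).coeff g = b.coeff (g - t) := by
  change stCoeff (HahnSeries.single t (1 : A)).coeff b.coeff g = _
  rw [stCoeff_eq (HahnSeries.single t (1 : A)).coeff b.coeff (Set.isPWO_singleton t)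
    b.isPWO_support HahnSeries.support_single_subset subset_rfl g]
  have hterm : ∀ x ∈ (trip_finite (Set.isPWO_singleton t) b.isPWO_support g).toFinset,
      x ≠ (0, t, g - t) → term (HahnSeries.single t (1 : A)).coeff b.coeff x = 0 := by
    rintro ⟨n, i, j⟩ hx hne
    rw [Set.Finite.mem_toFinset] at hx
    obtain ⟨hi, hj, hg⟩ := hx
    simp only [Set.mem_singleton_iff] at hi hg
    subst hi
    have hn : n ≠ 0 := by
      rintro rfl
      apply hne
      have : j = g - i := by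
        push_cast at hg
        linarith
      rw [this]
    unfold term
    simp only [HahnSeries.coeff_single_same]
    rw [iterate_d1_one n hn, zero_mul, smul_zero]
  by_cases hb : b.coeff (g - t) = 0
  · rw [hb]
    apply Finset.sum_eq_zero
    intro x hx
    by_cases hxe : x = (0, t, g - t)
    · rw [hxe]
      exact term_eq_zero_right _ _ _ hb
    · exact hterm x hx hxe
  · rw [Finset.sum_eq_single (0, t, g - t) hterm]
    · unfold term
      simp
    · intro hnot
      exfalso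
      apply hnot
      rw [Set.Finite.mem_toFinset]
      refine ⟨rfl, hb, ?_⟩
      push_cast
      ring

theorem coeff_st_single (t : ℚ) (b : HahnSeries ℚ A) (g : ℚ) :
    (st b (HahnSeries.single t (1 : A))).coeff g = b.coeff (g - t) := by
  change stCoeff b.coeff (HahnSeries.single t (1 : A)).coeff g = _
  rw [stCoeff_eq b.coeff (HahnSeries.single t (1 : A)).coeff b.isPWO_support
    (Set.isPWO_singleton t) subset_rfl HahnSeries.support_single_subset g]
  have hterm : ∀ x ∈ (trip_finite b.isPWO_support (Set.isPWO_singleton t) g).toFinset,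
      x ≠ (0, g - t, t) → term b.coeff (HahnSeries.single t (1 : A)).coeff x = 0 := by
    rintro ⟨n, i, j⟩ hx hne
    rw [Set.Finite.mem_toFinset] at hx
    obtain ⟨hi, hj, hg⟩ := hx
    simp only [Set.mem_singleton_iff] at hj hg
    subst hj
    have hn : n ≠ 0 := by
      rintro rfl
      apply hne
      have : i = g - j := by
        push_cast at hg
        linarith
      rw [this]
    unfold term
    simp only [HahnSeries.coeff_single_same]
    rw [iterate_d2_one n hn, mul_zero, smul_zero]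
  by_cases hb : b.coeff (g - t) = 0
  · rw [hb]
    apply Finset.sum_eq_zero
    intro x hx
    by_cases hxe : x = (0, g - t, t)
    · rw [hxe]
      exact term_eq_zero_left _ _ _ hb
    · exact hterm x hx hxe
  · rw [Finset.sum_eq_single (0, g - t, t) hterm]
    · unfold term
      simp
    · intro hnot
      exfalso
      apply hnot
      rw [Set.Finite.mem_toFinset]
      refine ⟨hb, rfl, ?_⟩
      push_cast
      ring

/-- first derivation as an additive endomorphism -/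
noncomputable def e1 (A : Type*) [CommRing A] [BiDiff A] : AddMonoid.End A :=
  (d1 : Derivation ℤ A A).toLinearMap.toAddMonoidHom

/-- second derivation as an additive endomorphism -/
noncomputable def e2 (A : Type*) [CommRing A] [BiDiff A] : AddMonoid.End A :=
  (d2 : Derivation ℤ A A).toLinearMap.toAddMonoidHom

omit [Algebra ℚ A] in
theorem it1 (n : ℕ) (x : A) : (⇑(d1 : Derivation ℤ A A))^[n] x = ((e1 A) ^ n) x := by
  rw [AddMonoid.End.coe_pow]
  rfl

omit [Algebra ℚ A] in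
theorem it2 (n : ℕ) (x : A) : (⇑(d2 : Derivation ℤ A A))^[n] x = ((e2 A) ^ n) x := by
  rw [AddMonoid.End.coe_pow]
  rfl

omit [Algebra ℚ A] in
theorem e_comm : Commute (e1 A) (e2 A) := by
  show e1 A * e2 A = e2 A * e1 A
  ext x
  exact BiDiff.comm x

omit [Algebra ℚ A] in
theorem e_comm_pow (m n : ℕ) (x : A) : ((e1 A) ^ m) (((e2 A) ^ n) x) = ((e2 A) ^ n) (((e1 A) ^ m) x) := by
  have h := (e_comm (A := A)).pow_pow m n
  exact DFunLike.congr_fun h x

omit [Algebra ℚ A] [BiDiff A] in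
theorem leib (E : AddMonoid.End A) (hE : ∀ x y : A, E (x * y) = E x * y + x * E y) (m : ℕ) (x y : A) :
    (E ^ m) (x * y) =
      ∑ pq ∈ Finset.HasAntidiagonal.antidiagonal m, (m.choose pq.1) • ((E ^ pq.1) x * (E ^ pq.2) y) := by
  induction m with
  | zero => simp
  | succ m ih =>
    have h1 : (E ^ (m + 1)) (x * y) = E ((E ^ m) (x * y)) := by
      rw [pow_succ']; rfl
    rw [h1, ih, map_sum, Finset.sum_antidiagonal_choose_succ_nsmul
      (fun p q => (E ^ p) x * (E ^ q) y) m, ← Finset.sum_add_distrib]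
    refine Finset.sum_congr rfl fun pq hpq => ?_
    rw [map_nsmul, hE]
    have h2 : ∀ (k : ℕ) (z : A), E ((E ^ k) z) = (E ^ (k + 1)) z := by
      intro k z
      rw [pow_succ']; rfl
    rw [h2, h2, Nat.choose_symm_of_eq_add (Finset.HasAntidiagonal.mem_antidiagonal.mp hpq).symm, smul_add, add_comm]

omit [Algebra ℚ A] in
theorem e1_leib (m : ℕ) (x y : A) : ((e1 A) ^ m) (x * y) =
      ∑ pq ∈ Finset.HasAntidiagonal.antidiagonal m, (m.choose pq.1) • (((e1 A) ^ pq.1) x * ((e1 A) ^ pq.2) y) := by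
  apply leib
  intro x y
  show d1 (x * y) = d1 x * y + x * d1 y
  rw [Derivation.leibniz, smul_eq_mul, smul_eq_mul]
  ring

omit [Algebra ℚ A] in
theorem e2_leib (m : ℕ) (x y : A) : ((e2 A) ^ m) (x * y) =
      ∑ pq ∈ Finset.HasAntidiagonal.antidiagonal m, (m.choose pq.1) • (((e2 A) ^ pq.1) x * ((e2 A) ^ pq.2) y) := by
  apply leib
  intro x y
  show d2 (x * y) = d2 x * y + x * d2 y
  rw [Derivation.leibniz, smul_eq_mul, smul_eq_mul]
  ring

/-- the symmetric term -/
noncomputable def GG (a b c : ℚ → A) (α β γ : ℕ) (i j l : ℚ) : A :=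
  (((α.factorial : ℚ) * β.factorial * γ.factorial)⁻¹) •
    (((e1 A) ^ (α + γ)) (a i) * ((e1 A) ^ β) (((e2 A) ^ α) (b j)) * ((e2 A) ^ (β + γ)) (c l))

theorem coef_id (p q : ℕ) : (((p + q).factorial : ℚ)⁻¹) * ((p + q).choose p : ℚ) =
    ((p.factorial : ℚ) * q.factorial)⁻¹ := by
  have h : ((p + q).choose p * p.factorial * q.factorial : ℕ) = (p + q).factorial := by
    rw [Nat.choose_symm_add]
    exact Nat.add_choose_mul_factorial_mul_factorial p q
  have h' : ((p + q).choose p : ℚ) * p.factorial * q.factorial = (p + q).factorial := by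
    exact_mod_cast h
  have h1 : (p.factorial : ℚ) ≠ 0 := by exact_mod_cast p.factorial_ne_zero
  have h2 : (q.factorial : ℚ) ≠ 0 := by exact_mod_cast q.factorial_ne_zero
  have h3 : ((p + q).factorial : ℚ) ≠ 0 := by exact_mod_cast (p + q).factorial_ne_zero
  field_simp
  linarith

omit [BiDiff A] in
theorem scal (u v : ℚ) (k : ℕ) (z : A) : u • (v • ((k : ℕ) • z)) = (u * v * (k : ℚ)) • z := by
  rw [← Nat.cast_smul_eq_nsmul ℚ k z, smul_smul, smul_smul]

theorem lhs_term (a b c : ℚ → A) {S T : Set ℚ} (hS : S.IsPWO) (hT : T.IsPWO)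
    (ha : Function.support a ⊆ S) (hb : Function.support b ⊆ T) (x : ℕ × ℚ × ℚ) :
    term (stCoeff a b) c x = ∑ y ∈ (trip_finite hS hT x.2.1).toFinset,
      ∑ pq ∈ Finset.HasAntidiagonal.antidiagonal x.1, GG a b c y.1 pq.2 pq.1 y.2.1 y.2.2 x.2.2 := by
  rw [term, stCoeff_eq a b hS hT ha hb, it1, it2, map_sum, Finset.sum_mul, Finset.smul_sum]
  refine Finset.sum_congr rfl fun y _ => ?_
  rw [term, it1, it2, map_rat_smul, e1_leib, Finset.smul_sum, Finset.sum_mul, Finset.smul_sum]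
  refine Finset.sum_congr rfl fun pq hpq => ?_
  have hpq' := Finset.HasAntidiagonal.mem_antidiagonal.mp hpq
  rw [GG, ← hpq', smul_mul_assoc, smul_mul_assoc, scal]
  have h1 : ((e1 A) ^ pq.1) (((e1 A) ^ y.1) (a y.2.1)) = ((e1 A) ^ (y.1 + pq.1)) (a y.2.1) := by
    rw [add_comm, pow_add]; rfl
  rw [h1, add_comm pq.2 pq.1]
  congr 1
  rw [mul_right_comm, coef_id]
  rw [mul_inv, mul_inv, mul_inv]
  ring

theorem rhs_term (a b c : ℚ → A) {T U : Set ℚ} (hT : T.IsPWO) (hU : U.IsPWO)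
    (hb : Function.support b ⊆ T) (hc : Function.support c ⊆ U) (x : ℕ × ℚ × ℚ) :
    term a (stCoeff b c) x = ∑ y ∈ (trip_finite hT hU x.2.2).toFinset,
      ∑ pq ∈ Finset.HasAntidiagonal.antidiagonal x.1, GG a b c pq.1 y.1 pq.2 x.2.1 y.2.1 y.2.2 := by
  rw [term, stCoeff_eq b c hT hU hb hc, it1, it2, map_sum, Finset.mul_sum, Finset.smul_sum]
  refine Finset.sum_congr rfl fun y _ => ?_
  rw [term, it1, it2, map_rat_smul, e2_leib, Finset.smul_sum, Finset.mul_sum, Finset.smul_sum]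
  refine Finset.sum_congr rfl fun pq hpq => ?_
  have hpq' := Finset.HasAntidiagonal.mem_antidiagonal.mp hpq
  rw [GG, ← hpq', mul_smul_comm, mul_smul_comm, scal]
  have h1 : ((e2 A) ^ pq.2) (((e2 A) ^ y.1) (c y.2.2)) = ((e2 A) ^ (y.1 + pq.2)) (c y.2.2) := by
    rw [add_comm, pow_add]; rfl
  rw [h1, ← e_comm_pow, ← mul_assoc]
  congr 1
  rw [mul_right_comm, coef_id]
  rw [mul_inv, mul_inv, mul_inv]
  ring

theorem st_assoc (a b c : HahnSeries ℚ A) : st (st a b) c = st a (st b c) := by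
  ext g
  have hS := a.isPWO_support
  have hT := b.isPWO_support
  have hU := c.isPWO_support
  have hP := sumset_isPWO hS hT
  have hQ := sumset_isPWO hT hU
  have hsub : ∀ (u v : HahnSeries ℚ A), Function.support (stCoeff u.coeff v.coeff) ⊆
      {h : ℚ | (trip u.support v.support h).Nonempty} := by
    intro u v h hh
    by_contra hcon
    apply hh
    rw [stCoeff_eq u.coeff v.coeff u.isPWO_support v.isPWO_support (le_refl _) (le_refl _)]
    apply Finset.sum_eq_zero
    intro x hx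
    exfalso
    apply hcon
    exact ⟨x, (Set.Finite.mem_toFinset _).mp hx⟩
  show stCoeff (stCoeff a.coeff b.coeff) c.coeff g = stCoeff a.coeff (stCoeff b.coeff c.coeff) g
  rw [stCoeff_eq _ _ hP hU (hsub a b) (le_refl _), stCoeff_eq _ _ hS hQ (le_refl _) (hsub b c)]
  rw [Finset.sum_congr rfl (fun x _ => lhs_term a.coeff b.coeff c.coeff hS hT (le_refl _) (le_refl _) x),
    Finset.sum_congr rfl (fun x _ => rhs_term a.coeff b.coeff c.coeff hT hU (le_refl _) (le_refl _) x)]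
  simp only [Finset.sum_sigma']
  refine Finset.sum_nbij'
    (fun z => ⟨(z.2.1.1 + z.2.2.1, z.2.1.2.1, g - z.2.1.2.1 - ((z.2.1.1 + z.2.2.1 : ℕ) : ℚ)),
      ⟨(z.2.2.2, z.2.1.2.2, z.1.2.2), (z.2.1.1, z.2.2.1)⟩⟩)
    (fun z => ⟨(z.2.1.1 + z.2.2.2, g - z.2.1.2.2 - ((z.2.1.1 + z.2.2.2 : ℕ) : ℚ), z.2.1.2.2),
      ⟨(z.2.2.1, z.1.2.1, z.2.1.2.1), (z.2.2.2, z.2.1.1)⟩⟩) ?_ ?_ ?_ ?_ ?_
  · rintro ⟨⟨m, h, l⟩, ⟨⟨n, i, j⟩, ⟨p, q⟩⟩⟩ hz
    simp only [Finset.mem_sigma, Set.Finite.mem_toFinset, Finset.HasAntidiagonal.mem_antidiagonal] at hz ⊢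
    obtain ⟨⟨h1, h2, h3⟩, ⟨h4, h5, h6⟩, h7⟩ := hz
    simp only at h1 h2 h3 h4 h5 h6 h7
    have h8 : (m : ℚ) = p + q := by rw [← h7]; push_cast; ring
    refine ⟨⟨h4, ⟨(q, j, l), h5, h2, ?_⟩, ?_⟩, ⟨h5, h2, ?_⟩, trivial⟩
    · simp only; push_cast; linarith
    · simp only; push_cast; linarith
    · simp only; push_cast; linarith
  · rintro ⟨⟨n, i, h⟩, ⟨⟨m, j, l⟩, ⟨p, q⟩⟩⟩ hz
    simp only [Finset.mem_sigma, Set.Finite.mem_toFinset, Finset.HasAntidiagonal.mem_antidiagonal] at hz ⊢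
    obtain ⟨⟨h1, h2, h3⟩, ⟨h4, h5, h6⟩, h7⟩ := hz
    simp only at h1 h2 h3 h4 h5 h6 h7
    have h8 : (n : ℚ) = p + q := by rw [← h7]; push_cast; ring
    refine ⟨⟨⟨(p, i, j), h1, h4, ?_⟩, h5, ?_⟩, ⟨h1, h4, ?_⟩, add_comm _ _⟩
    · simp only; push_cast; linarith
    · simp only; push_cast; linarith
    · simp only; push_cast; linarith
  · rintro ⟨⟨m, h, l⟩, ⟨⟨n, i, j⟩, ⟨p, q⟩⟩⟩ hz
    simp only [Finset.mem_sigma, Set.Finite.mem_toFinset, Finset.HasAntidiagonal.mem_antidiagonal] at hz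
    obtain ⟨⟨h1, h2, h3⟩, ⟨h4, h5, h6⟩, h7⟩ := hz
    simp only at h1 h2 h3 h4 h5 h6 h7
    subst h7
    have h9 : g - l - ((p + q : ℕ) : ℚ) = h := by push_cast at h3 ⊢; linarith
    simp only [add_comm q p, h9]
  · rintro ⟨⟨n, i, h⟩, ⟨⟨m, j, l⟩, ⟨p, q⟩⟩⟩ hz
    simp only [Finset.mem_sigma, Set.Finite.mem_toFinset, Finset.HasAntidiagonal.mem_antidiagonal] at hz
    obtain ⟨⟨h1, h2, h3⟩, ⟨h4, h5, h6⟩, h7⟩ := hz
    simp only at h1 h2 h3 h4 h5 h6 h7
    subst h7
    have h9 : g - i - ((p + q : ℕ) : ℚ) = h := by push_cast at h3 ⊢; linarith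
    simp only [h9]
  · rintro ⟨⟨m, h, l⟩, ⟨⟨n, i, j⟩, ⟨p, q⟩⟩⟩ _
    rfl


end ACA

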